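import Mathlib

set_option autoImplicit false

open Polynomial

namespace Pool.Agent.Helper95.CDD

/-- The right end `X_n = (m+1)/2 - n l` of the strip of regularity. -/
noncomputable def XX (m : ℕ) (l : ℝ) (n : ℕ) : ℝ := ((m : ℝ) + 1) / 2 - n * l

/-- `V_0(z) = exp(i pi z) Gamma(X_0 + z) Gamma(X_0 - z)`, `V_{n+1}(z) = V_n(z+l) - V_n(z-l)`. -/
noncomputable def V (m : ℕ) (l : ℝ) : ℕ → ℂ → ℂ
  | 0, z => Complex.exp (Complex.I * (Real.pi : ℂ) * z) * Complex.Gamma ((XX m l 0 : ℝ) + z) *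
      Complex.Gamma ((XX m l 0 : ℝ) - z)
  | n + 1, z => V m l n (z + (l : ℂ)) - V m l n (z - (l : ℂ))

/-- `V_n` divided by `Gamma(X_n - z)`: no pole at the right end of the strip. -/
noncomputable def Vt (m : ℕ) (l : ℝ) : ℕ → ℂ → ℂ
  | 0, z => Complex.exp (Complex.I * (Real.pi : ℂ) * z) * Complex.Gamma ((XX m l 0 : ℝ) + z)
  | n + 1, z => Vt m l n (z + (l : ℂ)) -
      (Complex.Gamma ((XX m l (n + 1) : ℝ) - z))⁻¹ * V m l n (z - (l : ℂ))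

/-- The quotient `V_n(z-l)/V_n(z+l)`, written without poles. -/
noncomputable def psi (m : ℕ) (l : ℝ) (n : ℕ) (z : ℂ) : ℂ :=
  (Complex.Gamma ((XX m l n : ℝ) - (z + (l : ℂ))))⁻¹ * V m l n (z - (l : ℂ)) /
    Vt m l n (z + (l : ℂ))

/-- The main inequality `|V_n(z-l)| < |V_n(z+l)|` on `0 < Re z < X_n`. -/
def LL (m : ℕ) (l : ℝ) (n : ℕ) : Prop :=
  ∀ z : ℂ, 0 < z.re → z.re < XX m l n → Vt m l n (z + (l : ℂ)) ≠ 0 ∧ ‖psi m l n z‖ < 1

/-- the polynomial `p_m` -/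
noncomputable def pm (m : ℕ) : ℂ[X] :=
  ∏ j ∈ Finset.range m, (X + C ((j : ℂ) - ((m : ℂ) - 1) / 2))

/-- polynomial asymptotics with exponentially small error in the half plane `s Im z ≥ 1` -/
def Asy (s : ℝ) (f : ℂ → ℂ) (Q : ℂ[X]) : Prop :=
  ∃ K : ℝ, ∃ k : ℕ, 0 < K ∧ ∀ z : ℂ, 1 ≤ s * z.im →
    ‖f z - Q.eval z‖ ≤ K * (1 + ‖z‖) ^ k * Real.exp (-(s * z.im))

/-- the continuous phase -/
noncomputable def Phi (m : ℕ) (l : ℝ) : ℕ → ℝ → ℝ
  | 0, x => Real.pi * x - Real.pi * m / 2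
  | n + 1, x => Phi m l n (x + l) + Complex.arg (1 - psi m l n (x : ℂ))

/-- unnormalised central difference -/
noncomputable def del (l : ℝ) (P : ℝ[X]) : ℝ[X] := P.comp (X + C l) - P.comp (X - C l)

/-- iterated differences of `prod (X - k)` -/
noncomputable def PP (N : ℕ) (l : ℝ) : ℕ → ℝ[X]
  | 0 => ∏ k ∈ Finset.Icc (-(N : ℤ)) (N : ℤ), (X - C (k : ℝ))
  | n + 1 => del l (PP N l n)

/-- every complex root is real or purely imaginary -/
def Good (P : ℝ[X]) : Prop := ∀ z : ℂ, aeval z P = 0 → z.im = 0 ∨ z.re = 0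

/-- terminal regime -/
def Tame (l : ℝ) (P : ℝ[X]) : Prop :=
  ∀ z : ℂ, aeval z P = 0 → z.re = 0 ∨ (z.im = 0 ∧ |z.re| ≤ l)

/-- the induction hypothesis of the counting argument -/
def AA (N : ℕ) (l : ℝ) (n : ℕ) : Prop :=
  Good (PP N l n) ∧ ∀ x, 0 < x → x < XX (2 * N + 1) l n → (PP N l n).eval x ≠ 0 →
    (((PP N l n).roots.filter (fun r => x < r)).card : ℤ) =
      -⌊Phi (2 * N + 1) l n x / Real.pi + 1 / 2⌋

end Pool.Agent.Helper95.CDD
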