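import Pool.Agent.Helper95.CDD.Defs

set_option autoImplicit false

open Polynomial

namespace Pool.Agent.Helper95.CDD

theorem auxDel_coeff (l : ℝ) (P : ℝ[X]) (k : ℕ) :
    (del l P).coeff k = (hasseDeriv k P).eval l - (hasseDeriv k P).eval (-l) := by
  unfold del
  rw [coeff_sub, ← taylor_apply, taylor_coeff]
  have h : (X - C l : ℝ[X]) = X + C (-l) := by
    rw [C_neg, sub_eq_add_neg]
  rw [h, ← taylor_apply, taylor_coeff]

theorem auxDel_coeff_ge (l : ℝ) (P : ℝ[X]) (k : ℕ) (hk : P.natDegree ≤ k) :
    (del l P).coeff k = 0 := by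
  rw [auxDel_coeff]
  have h : (hasseDeriv k P).natDegree = 0 := by
    have := natDegree_hasseDeriv_le P k
    omega
  rw [eq_C_of_natDegree_eq_zero h]
  simp

theorem auxDel_coeff_pred (l : ℝ) (P : ℝ[X]) (hd : 1 ≤ P.natDegree) :
    (del l P).coeff (P.natDegree - 1) = 2 * l * P.natDegree * P.leadingCoeff := by
  rw [auxDel_coeff]
  obtain ⟨d, hd'⟩ : ∃ d, P.natDegree = d + 1 := ⟨P.natDegree - 1, by omega⟩
  have h : (hasseDeriv (P.natDegree - 1) P).natDegree < 2 := by
    have := natDegree_hasseDeriv_le P (P.natDegree - 1)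
    omega
  rw [eval_eq_sum_range' h, eval_eq_sum_range' h]
  rw [Finset.sum_range_succ, Finset.sum_range_succ, Finset.sum_range_zero,
    Finset.sum_range_succ, Finset.sum_range_succ, Finset.sum_range_zero]
  have h1 : (hasseDeriv (P.natDegree - 1) P).coeff 1 = P.natDegree * P.leadingCoeff := by
    rw [hasseDeriv_coeff, leadingCoeff, hd']
    have e1 : 1 + (d + 1 - 1) = d + 1 := by omega
    rw [e1]
    have e2 : (d + 1).choose (d + 1 - 1) = d + 1 := by
      simp
    rw [e2]
  rw [h1]
  ring

theorem del_natDegree {l : ℝ} (hl : 0 < l) (P : ℝ[X]) (hd : 1 ≤ P.natDegree) :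
    (del l P).natDegree = P.natDegree - 1 ∧
      (del l P).leadingCoeff = 2 * l * P.natDegree * P.leadingCoeff := by
  have h1 : (del l P).natDegree ≤ P.natDegree - 1 := by
    rw [natDegree_le_iff_coeff_eq_zero]
    intro k hk
    exact auxDel_coeff_ge l P k (by omega)
  have h2 := auxDel_coeff_pred l P hd
  have h3 : (del l P).coeff (P.natDegree - 1) ≠ 0 := by
    rw [h2]
    have hP : P.leadingCoeff ≠ 0 := by
      rw [Ne, leadingCoeff_eq_zero]
      rintro rfl
      simp at hd
    have hd0 : (P.natDegree : ℝ) ≠ 0 := by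
      have : P.natDegree ≠ 0 := by omega
      exact_mod_cast this
    positivity
  have h4 : (del l P).natDegree = P.natDegree - 1 :=
    natDegree_eq_of_le_of_coeff_ne_zero h1 h3
  refine ⟨h4, ?_⟩
  rw [leadingCoeff, h4, h2]

theorem del_comp_neg (l : ℝ) (P : ℝ[X]) (d : ℕ) (h : P.comp (-X) = (-1) ^ d * P) :
    (del l P).comp (-X) = (-1) ^ (d + 1) * del l P := by
  unfold del
  have e1 : (P.comp (X + C l)).comp (-X) = (-1) ^ d * P.comp (X - C l) := by
    have : (P.comp (-X)).comp (X - C l) = (-1) ^ d * P.comp (X - C l) := by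
      rw [h, mul_comp]
      simp
    rw [← this, comp_assoc, comp_assoc]
    congr 1
    simp
    ring
  have e2 : (P.comp (X - C l)).comp (-X) = (-1) ^ d * P.comp (X + C l) := by
    have : (P.comp (-X)).comp (X + C l) = (-1) ^ d * P.comp (X + C l) := by
      rw [h, mul_comp]
      simp
    rw [← this, comp_assoc, comp_assoc]
    congr 1
    simp
    ring
  rw [sub_comp, e1, e2]
  ring

theorem PP_facts (N : ℕ) {l : ℝ} (hl : 0 < l) (n : ℕ) (hn : n ≤ 2 * N + 1) :
    (PP N l n).natDegree = 2 * N + 1 - n ∧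
    (PP N l n).leadingCoeff = (2 * l) ^ n * (2 * N + 1).factorial / (2 * N + 1 - n).factorial ∧
    0 < (PP N l n).leadingCoeff ∧
    (PP N l n).comp (-X) = (-1) ^ (2 * N + 1 - n) * PP N l n := by
  induction n with
  | zero =>
    have hm : (PP N l 0).Monic := by
      unfold PP
      exact monic_prod_of_monic _ _ fun k _ => monic_X_sub_C _
    have hdeg : (PP N l 0).natDegree = 2 * N + 1 := by
      unfold PP
      rw [natDegree_prod_of_monic _ _ fun k _ => monic_X_sub_C _]
      rw [Finset.sum_congr rfl (fun (k : ℤ) _ => natDegree_X_sub_C ((k : ℝ)))]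
      simp
      omega
    have hf : ((2 * N + 1).factorial : ℝ) ≠ 0 := by
      exact_mod_cast Nat.factorial_ne_zero _
    refine ⟨by simpa using hdeg, ?_, ?_, ?_⟩
    · rw [hm.leadingCoeff]
      simp [hf]
    · rw [hm.leadingCoeff]
      norm_num
    · have hcard : (Finset.Icc (-(N : ℤ)) (N : ℤ)).card = 2 * N + 1 := by
        simp
        omega
      unfold PP
      rw [prod_comp]
      have h1 : ∀ k ∈ Finset.Icc (-(N : ℤ)) (N : ℤ),
          (X - C (k : ℝ) : ℝ[X]).comp (-X) = (-1) * (X - C (((-k : ℤ)) : ℝ)) := by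
        intro k _
        simp
        ring
      rw [Finset.prod_congr rfl h1, Finset.prod_mul_distrib, Finset.prod_const, hcard]
      congr 1
      refine Finset.prod_bij (fun k _ => -k) ?_ ?_ ?_ ?_
      · intro k hk
        simp only [Finset.mem_Icc] at hk ⊢
        omega
      · intro a _ b _ hab
        exact neg_injective hab
      · intro b hb
        refine ⟨-b, ?_, by simp⟩
        simp only [Finset.mem_Icc] at hb ⊢
        omega
      · intro k _
        rfl
  | succ n ih =>
    obtain ⟨i1, i2, i3, i4⟩ := ih (by omega)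
    have hd : 1 ≤ (PP N l n).natDegree := by
      rw [i1]
      omega
    obtain ⟨j1, j2⟩ := del_natDegree hl (PP N l n) hd
    have hPP : PP N l (n + 1) = del l (PP N l n) := rfl
    obtain ⟨r, hr⟩ : ∃ r, 2 * N + 1 - n = r + 1 := ⟨2 * N + 1 - n - 1, by omega⟩
    have hr' : 2 * N + 1 - (n + 1) = r := by omega
    rw [hPP, hr']
    have hL : (del l (PP N l n)).leadingCoeff
        = (2 * l) ^ (n + 1) * (2 * N + 1).factorial / r.factorial := by
      have hfs : ((r + 1).factorial : ℝ) = ((r : ℝ) + 1) * r.factorial := by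
        rw [Nat.factorial_succ]; push_cast; ring
      have hf : (r.factorial : ℝ) ≠ 0 := by exact_mod_cast Nat.factorial_ne_zero _
      have hr1 : ((r : ℝ) + 1) ≠ 0 := by positivity
      rw [j2, i2, i1, hr, hfs]
      push_cast
      field_simp
      try ring
    refine ⟨?_, hL, ?_, ?_⟩
    · rw [j1, i1, hr]
      omega
    · rw [hL]
      have hf : 0 < (r.factorial : ℝ) := by exact_mod_cast Nat.factorial_pos _
      have hf2 : 0 < ((2 * N + 1).factorial : ℝ) := by exact_mod_cast Nat.factorial_pos _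
      positivity
    · have h := del_comp_neg l (PP N l n) _ i4
      rw [h, hr]
      ring

end Pool.Agent.Helper95.CDD
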