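import Pool.Agent.Helper95.CDD.Defs

set_option autoImplicit false

open Polynomial

namespace Pool.Agent.Helper95.CDD

theorem auxIvt_card {a b : ℝ} {Φ : ℝ → ℝ}
    (ha : Real.cos (Φ a) ≠ 0) (hb : Real.cos (Φ b) ≠ 0) (S : Finset ℝ)
    (hS : ∀ x, a < x → x < b → Real.cos (Φ x) = 0 → x ∈ S) (T : Finset ℤ)
    (hT : ∀ j ∈ T, ∃ x ∈ Set.Icc a b, Φ x / Real.pi + 1 / 2 = (j : ℝ)) : T.card ≤ S.card := by
  choose! x hx hxj using hT
  have hcos : ∀ j ∈ T, Real.cos (Φ (x j)) = 0 := by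
    intro j hj
    rw [Real.cos_eq_zero_iff]
    refine ⟨j - 1, ?_⟩
    have h := hxj j hj
    have hpi := Real.pi_ne_zero
    have h2 : Φ (x j) = (j - 1 / 2) * Real.pi := by
      rw [← h]; field_simp; ring
    rw [h2]; push_cast; ring
  apply Finset.card_le_card_of_injOn x
  · intro j hj
    have h1 := hx j hj
    have h0 := hcos j hj
    apply hS _ _ _ h0
    · rcases h1.1.eq_or_lt with h | h
      · rw [← h] at h0; exact absurd h0 ha
      · exact h
    · rcases h1.2.eq_or_lt with h | h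
      · rw [h] at h0; exact absurd h0 hb
      · exact h
  · intro i hi j hj hij
    have h1 := hxj i hi
    have h2 := hxj j hj
    have hij' : x i = x j := hij
    rw [hij', h2] at h1
    exact_mod_cast h1.symm

theorem ivt_count {a b : ℝ} (hab : a ≤ b) {Φ : ℝ → ℝ} (hΦ : ContinuousOn Φ (Set.Icc a b))
    (ha : Real.cos (Φ a) ≠ 0) (hb : Real.cos (Φ b) ≠ 0) (S : Finset ℝ)
    (hS : ∀ x, a < x → x < b → Real.cos (Φ x) = 0 → x ∈ S) :
    |⌊Φ b / Real.pi + 1 / 2⌋ - ⌊Φ a / Real.pi + 1 / 2⌋| ≤ (S.card : ℤ) := by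
  have hg : ContinuousOn (fun x => Φ x / Real.pi + 1 / 2) (Set.Icc a b) :=
    (hΦ.div_const _).add continuousOn_const
  rcases le_total ⌊Φ a / Real.pi + 1 / 2⌋ ⌊Φ b / Real.pi + 1 / 2⌋ with h | h
  · have h1 := auxIvt_card ha hb S hS (Finset.Ioc ⌊Φ a / Real.pi + 1 / 2⌋ ⌊Φ b / Real.pi + 1 / 2⌋) (by
      intro j hj
      rw [Finset.mem_Ioc] at hj
      have h2 : Φ a / Real.pi + 1 / 2 < j := Int.floor_lt.mp hj.1
      have h3 : (j : ℝ) ≤ Φ b / Real.pi + 1 / 2 := Int.le_floor.mp hj.2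
      obtain ⟨x, hx, hxj⟩ := intermediate_value_Icc hab hg ⟨h2.le, h3⟩
      exact ⟨x, hx, hxj⟩)
    rw [Int.card_Ioc] at h1
    rw [abs_of_nonneg (by linarith)]
    omega
  · have h1 := auxIvt_card ha hb S hS (Finset.Ioc ⌊Φ b / Real.pi + 1 / 2⌋ ⌊Φ a / Real.pi + 1 / 2⌋) (by
      intro j hj
      rw [Finset.mem_Ioc] at hj
      have h2 : Φ b / Real.pi + 1 / 2 < j := Int.floor_lt.mp hj.1
      have h3 : (j : ℝ) ≤ Φ a / Real.pi + 1 / 2 := Int.le_floor.mp hj.2
      obtain ⟨x, hx, hxj⟩ := intermediate_value_Icc' hab hg ⟨h2.le, h3⟩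
      exact ⟨x, hx, hxj⟩)
    rw [Int.card_Ioc] at h1
    rw [abs_of_nonpos (by linarith)]
    omega

theorem cos_sign_floor (t : ℝ) (ht : Real.cos t ≠ 0) :
    0 < (-1 : ℝ) ^ (⌊t / Real.pi + 1 / 2⌋.natAbs) * Real.cos t := by
  obtain ⟨k, hk⟩ : ∃ k, k = ⌊t / Real.pi + 1 / 2⌋ := ⟨_, rfl⟩
  obtain ⟨f, hf⟩ : ∃ f, f = Int.fract (t / Real.pi + 1 / 2) := ⟨_, rfl⟩
  have hpi := Real.pi_pos
  have h1 : t / Real.pi + 1 / 2 = k + f := by
    rw [hk, hf]; exact (Int.floor_add_fract _).symm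
  have h2 : t = (f - 1 / 2) * Real.pi + k * Real.pi := by
    have : t / Real.pi * Real.pi = t := by field_simp
    have h3 : t / Real.pi = k + f - 1 / 2 := by linarith
    rw [h3] at this
    linarith
  have hf0 : 0 ≤ f := by rw [hf]; exact Int.fract_nonneg _
  have hf1 : f < 1 := by rw [hf]; exact Int.fract_lt_one _
  have hcos : Real.cos t = (-1 : ℝ) ^ k * Real.cos ((f - 1 / 2) * Real.pi) := by
    rw [h2, Real.cos_add_int_mul_pi]
  have hf0' : 0 < f := by
    rcases hf0.eq_or_lt with h | h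
    · exfalso
      apply ht
      rw [hcos, ← h]
      have : Real.cos ((0 - 1 / 2) * Real.pi) = 0 := by
        rw [show (0 - 1 / 2) * Real.pi = -(Real.pi / 2) by ring, Real.cos_neg, Real.cos_pi_div_two]
      rw [this, mul_zero]
    · exact h
  have hpos : 0 < Real.cos ((f - 1 / 2) * Real.pi) := by
    apply Real.cos_pos_of_mem_Ioo
    constructor <;> nlinarith
  rw [← hk, hcos, ← mul_assoc]
  have hsg : (-1 : ℝ) ^ k.natAbs * (-1 : ℝ) ^ k = 1 := by
    rcases Int.even_or_odd k with h | h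
    · rw [h.neg_one_zpow, (Int.natAbs_even.mpr h).neg_one_pow]; norm_num
    · rw [h.neg_one_zpow, (Int.natAbs_odd.mpr h).neg_one_pow]; norm_num
  rw [hsg, one_mul]
  exact hpos

theorem auxIvt_mult (x : ℝ) (s : Multiset ℝ) (hs : x ∉ s) :
    0 < (-1 : ℝ) ^ (s.filter (fun r => x < r)).card * (s.map (fun r => x - r)).prod := by
  induction s using Multiset.induction with
  | empty => simp
  | cons a s ih =>
    rw [Multiset.mem_cons, not_or] at hs
    have ih' := ih hs.2
    rw [Multiset.map_cons, Multiset.prod_cons]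
    by_cases h : x < a
    · rw [Multiset.filter_cons_of_pos _ h, Multiset.card_cons, pow_succ]
      have : (-1 : ℝ) ^ (s.filter (fun r => x < r)).card * -1 * ((x - a) * (s.map (fun r => x - r)).prod)
          = (a - x) * ((-1 : ℝ) ^ (s.filter (fun r => x < r)).card * (s.map (fun r => x - r)).prod) := by
        ring
      rw [this]
      exact mul_pos (by linarith) ih'
    · rw [Multiset.filter_cons_of_neg _ h]
      have h' : a < x := lt_of_le_of_ne (not_lt.mp h) (Ne.symm hs.1)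
      have : (-1 : ℝ) ^ (s.filter (fun r => x < r)).card * ((x - a) * (s.map (fun r => x - r)).prod)
          = (x - a) * ((-1 : ℝ) ^ (s.filter (fun r => x < r)).card * (s.map (fun r => x - r)).prod) := by
        ring
      rw [this]
      exact mul_pos (by linarith) ih'

theorem auxIvt_noroot (q : ℝ[X]) (hq : 0 < q.leadingCoeff) (h0 : ∀ y, q.eval y ≠ 0) (x : ℝ) :
    0 < q.eval x := by
  by_contra hcon
  have hx : q.eval x < 0 := lt_of_le_of_ne (not_lt.mp hcon) (h0 x)
  have hdeg : 0 < q.degree := by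
    by_contra hd
    have := Polynomial.eq_C_of_degree_le_zero (not_lt.mp hd)
    have h1 : q.leadingCoeff = q.coeff 0 := by
      rw [this, leadingCoeff_C, coeff_C_zero]
    have h2 : q.eval x = q.coeff 0 := by
      conv_lhs => rw [this]
      rw [eval_C]
    linarith
  have ht := Polynomial.tendsto_atTop_of_leadingCoeff_nonneg q hdeg hq.le
  obtain ⟨y, hy1, hy2⟩ := ((ht.eventually (Filter.eventually_gt_atTop 0)).and
    (Filter.eventually_ge_atTop x)).exists
  have hc : ContinuousOn (fun z => q.eval z) (Set.Icc x y) := q.continuous.continuousOn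
  obtain ⟨z, -, hz⟩ := intermediate_value_Icc hy2 hc ⟨hx.le, hy1.le⟩
  exact h0 z hz

theorem sign_roots (P : ℝ[X]) (hP : 0 < P.leadingCoeff) (x : ℝ) (hx : P.eval x ≠ 0) :
    0 < (-1 : ℝ) ^ (P.roots.filter (fun r => x < r)).card * P.eval x := by
  obtain ⟨q, hq, -, hq0⟩ := Polynomial.exists_prod_multiset_X_sub_C_mul P
  have hP0 : P ≠ 0 := by
    rintro rfl
    simp at hP
  have hq1 : q ≠ 0 := by
    rintro rfl
    rw [mul_zero] at hq
    exact hP0 hq.symm
  have hlc : q.leadingCoeff = P.leadingCoeff := by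
    rw [← hq, leadingCoeff_mul, (monic_multiset_prod_of_monic _ _ (fun a _ => monic_X_sub_C a)).leadingCoeff, one_mul]
  have hne : ∀ y, q.eval y ≠ 0 := by
    intro y hy
    have : y ∈ q.roots := (mem_roots hq1).mpr hy
    rw [hq0] at this
    simp at this
  have hqx := auxIvt_noroot q (by rw [hlc]; exact hP) hne x
  have hev : P.eval x = (P.roots.map (fun r => x - r)).prod * q.eval x := by
    conv_lhs => rw [← hq]
    rw [eval_mul, eval_multiset_prod, Multiset.map_map]
    simp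
  have hxr : x ∉ P.roots := by
    intro h
    exact hx ((mem_roots hP0).mp h)
  have h1 := auxIvt_mult x P.roots hxr
  rw [hev, ← mul_assoc]
  exact mul_pos h1 hqx

end Pool.Agent.Helper95.CDD
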