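import Pool.Agent.Helper95.CDD.Defs

set_option autoImplicit false

open Polynomial

namespace Pool.Agent.Helper95.CDD

theorem auxLine_single (u v : ℝ) (hu : u ≠ 0) :
    ((u : ℂ) + (v : ℂ) * Complex.I) = ((if 0 < u then (1:ℝ) else -1 : ℝ) : ℂ) *
      (‖(u : ℂ) + (v : ℂ) * Complex.I‖ : ℂ) *
        Complex.exp (Complex.I * (Real.arctan (v / u) : ℂ)) := by
  have hn : ‖(u : ℂ) + (v : ℂ) * Complex.I‖ = |u| * √(1 + (v / u) ^ 2) := by
    rw [Complex.norm_add_mul_I, ← Real.sqrt_sq_eq_abs, ← Real.sqrt_mul (sq_nonneg u)]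
    congr 1
    field_simp
  have hs : (if 0 < u then (1:ℝ) else -1) * |u| = u := by
    by_cases h : 0 < u
    · rw [if_pos h, abs_of_pos h, one_mul]
    · rw [if_neg h, abs_of_nonpos (not_lt.1 h)]
      ring
  have hpos : 0 < √(1 + (v / u) ^ 2) := by positivity
  rw [hn, mul_comm Complex.I, Complex.exp_mul_I, ← Complex.ofReal_cos, ← Complex.ofReal_sin,
    Real.cos_arctan, Real.sin_arctan]
  have hsC : ((if 0 < u then (1:ℝ) else -1 : ℝ) : ℂ) * ((|u| * √(1 + (v / u) ^ 2) : ℝ) : ℂ) =
      (u : ℂ) * (√(1 + (v / u) ^ 2) : ℂ) := by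
    rw [← Complex.ofReal_mul, ← mul_assoc, hs, Complex.ofReal_mul]
  rw [hsC]
  have h0 : ((√(1 + (v / u) ^ 2) : ℝ) : ℂ) ≠ 0 := by exact_mod_cast hpos.ne'
  have hu0 : (u : ℂ) ≠ 0 := by exact_mod_cast hu
  push_cast
  generalize ((√(1 + (v / u) ^ 2) : ℝ) : ℂ) = S at h0 ⊢
  field_simp

theorem arg_on_line (s : Multiset ℂ) (l : ℝ) (h : ∀ a ∈ s, a.re ≠ l) :
    ∃ Θ : ℝ → ℝ, Continuous Θ ∧ (∃ κ : ℝ, (κ = 1 ∨ κ = -1) ∧ ∀ y : ℝ,
      (s.map (fun a => (y : ℂ) * Complex.I + (l : ℂ) - a)).prod = (κ : ℂ) *
        (‖(s.map (fun a => (y : ℂ) * Complex.I + (l : ℂ) - a)).prod‖ : ℂ) *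
        Complex.exp (Complex.I * (Θ y : ℂ))) ∧
      Filter.Tendsto Θ Filter.atTop (nhds (Real.pi / 2 *
        ((s.card : ℝ) - 2 * ((s.filter (fun a : ℂ => l < a.re)).card : ℝ)))) ∧
      Filter.Tendsto Θ Filter.atBot (nhds (-(Real.pi / 2 *
        ((s.card : ℝ) - 2 * ((s.filter (fun a : ℂ => l < a.re)).card : ℝ))))) := by
  induction s using Multiset.induction_on with
  | empty =>
    refine ⟨fun _ => 0, continuous_const, ⟨1, Or.inl rfl, ?_⟩, ?_, ?_⟩
    · intro y
      simp
    · simp
    · simp
  | cons a s ih =>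
    obtain ⟨Θ, hΘc, ⟨κ, hκ, hprod⟩, htop, hbot⟩ :=
      ih (fun b hb => h b (Multiset.mem_cons_of_mem hb))
    have ha : a.re ≠ l := h a (Multiset.mem_cons_self a s)
    have hu : l - a.re ≠ 0 := sub_ne_zero.2 ha.symm
    refine ⟨fun y => Θ y + Real.arctan ((y - a.im) / (l - a.re)), ?_,
      ⟨κ * (if 0 < l - a.re then (1:ℝ) else -1), ?_, ?_⟩, ?_, ?_⟩
    · exact hΘc.add (Real.continuous_arctan.comp (by fun_prop))
    · rcases hκ with rfl | rfl <;> split_ifs <;> simp
    · intro y
      rw [Multiset.map_cons, Multiset.prod_cons]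
      have hfac : (y : ℂ) * Complex.I + (l : ℂ) - a =
          (((l - a.re : ℝ)) : ℂ) + ((y - a.im : ℝ) : ℂ) * Complex.I := by
        apply Complex.ext <;> simp
      have h1 := auxLine_single (l - a.re) (y - a.im) hu
      rw [← hfac] at h1
      have h2 := hprod y
      rw [norm_mul]
      set f := (y : ℂ) * Complex.I + (l : ℂ) - a with hf
      set p := (s.map (fun a => (y : ℂ) * Complex.I + (l : ℂ) - a)).prod with hp
      calc f * p = (((if 0 < l - a.re then (1:ℝ) else -1 : ℝ) : ℂ) * (‖f‖ : ℂ) *
            Complex.exp (Complex.I * (Real.arctan ((y - a.im) / (l - a.re)) : ℂ))) *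
            ((κ : ℂ) * (‖p‖ : ℂ) * Complex.exp (Complex.I * (Θ y : ℂ))) := by
              rw [← h1, ← h2]
        _ = ((κ : ℂ) * ((if 0 < l - a.re then (1:ℝ) else -1 : ℝ) : ℂ)) * ((‖f‖ : ℂ) * (‖p‖ : ℂ)) *
            (Complex.exp (Complex.I * (Θ y : ℂ)) *
              Complex.exp (Complex.I * (Real.arctan ((y - a.im) / (l - a.re)) : ℂ))) := by ring
        _ = _ := by
              rw [← Complex.exp_add, ← mul_add]
              push_cast
              rfl
    · by_cases hlt : l < a.re
      · have hneg : l - a.re < 0 := by linarith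
        have hlim : Filter.Tendsto (fun y : ℝ => Real.arctan ((y - a.im) / (l - a.re)))
            Filter.atTop (nhds (-(Real.pi / 2))) := by
          refine (Real.tendsto_arctan_atBot.mono_right nhdsWithin_le_nhds).comp ?_
          refine Filter.Tendsto.atTop_div_const_of_neg hneg ?_
          exact Filter.tendsto_atTop_add_const_right _ _ Filter.tendsto_id
        have := htop.add hlim
        refine this.congr' (Filter.EventuallyEq.rfl) |>.trans (le_of_eq ?_)
        congr 1
        rw [Multiset.filter_cons_of_pos (p := fun a : ℂ => l < a.re) s hlt, Multiset.card_cons, Multiset.card_cons]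
        push_cast
        ring
      · have hpos : 0 < l - a.re := by
          rcases lt_or_gt_of_ne ha with h3 | h3
          · linarith
          · exact absurd h3 hlt
        have hlim : Filter.Tendsto (fun y : ℝ => Real.arctan ((y - a.im) / (l - a.re)))
            Filter.atTop (nhds (Real.pi / 2)) := by
          refine (Real.tendsto_arctan_atTop.mono_right nhdsWithin_le_nhds).comp ?_
          refine Filter.Tendsto.atTop_div_const hpos ?_
          exact Filter.tendsto_atTop_add_const_right _ _ Filter.tendsto_id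
        have := htop.add hlim
        refine this.congr' (Filter.EventuallyEq.rfl) |>.trans (le_of_eq ?_)
        congr 1
        rw [Multiset.filter_cons_of_neg (p := fun a : ℂ => l < a.re) s hlt, Multiset.card_cons]
        push_cast
        ring
    · by_cases hlt : l < a.re
      · have hneg : l - a.re < 0 := by linarith
        have hlim : Filter.Tendsto (fun y : ℝ => Real.arctan ((y - a.im) / (l - a.re)))
            Filter.atBot (nhds (Real.pi / 2)) := by
          refine (Real.tendsto_arctan_atTop.mono_right nhdsWithin_le_nhds).comp ?_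
          simp_rw [div_eq_mul_inv]
          refine Filter.Tendsto.atBot_mul_const_of_neg (inv_lt_zero.2 hneg) ?_
          exact Filter.tendsto_atBot_add_const_right _ _ Filter.tendsto_id
        have := hbot.add hlim
        refine this.congr' (Filter.EventuallyEq.rfl) |>.trans (le_of_eq ?_)
        congr 1
        rw [Multiset.filter_cons_of_pos (p := fun a : ℂ => l < a.re) s hlt, Multiset.card_cons, Multiset.card_cons]
        push_cast
        ring
      · have hpos : 0 < l - a.re := by
          rcases lt_or_gt_of_ne ha with h3 | h3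
          · linarith
          · exact absurd h3 hlt
        have hlim : Filter.Tendsto (fun y : ℝ => Real.arctan ((y - a.im) / (l - a.re)))
            Filter.atBot (nhds (-(Real.pi / 2))) := by
          refine (Real.tendsto_arctan_atBot.mono_right nhdsWithin_le_nhds).comp ?_
          refine Filter.Tendsto.atBot_div_const hpos ?_
          exact Filter.tendsto_atBot_add_const_right _ _ Filter.tendsto_id
        have := hbot.add hlim
        refine this.congr' (Filter.EventuallyEq.rfl) |>.trans (le_of_eq ?_)
        congr 1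
        rw [Multiset.filter_cons_of_neg (p := fun a : ℂ => l < a.re) s hlt, Multiset.card_cons]
        push_cast
        ring

theorem card_filter_gt (P : ℝ[X]) (hP : P ≠ 0) (hgood : Good P) (l : ℝ) (hl : 0 ≤ l) :
    ((P.map (algebraMap ℝ ℂ)).roots.filter (fun z : ℂ => l < z.re)).card =
      (P.roots.filter (fun r => l < r)).card := by
  classical
  have hinj : Function.Injective (algebraMap ℝ ℂ) := (algebraMap ℝ ℂ).injective
  have key : (P.map (algebraMap ℝ ℂ)).roots.filter (fun z : ℂ => l < z.re) =
      (P.roots.filter (fun r => l < r)).map (algebraMap ℝ ℂ) := by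
    ext z
    rw [Multiset.count_filter]
    by_cases him : z.im = 0
    · obtain ⟨r, rfl⟩ : ∃ r : ℝ, z = algebraMap ℝ ℂ r := ⟨z.re, by
        apply Complex.ext <;> simp [him]⟩
      rw [Multiset.count_map_eq_count' _ _ hinj, Multiset.count_filter, count_roots, count_roots,
        ← eq_rootMultiplicity_map hinj]
      rfl
    · have h2 : Multiset.count z ((P.roots.filter (fun r => l < r)).map (algebraMap ℝ ℂ)) = 0 := by
        rw [Multiset.count_eq_zero]
        intro hz
        obtain ⟨r, _, rfl⟩ := Multiset.mem_map.1 hz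
        exact him (Complex.ofReal_im r)
      rw [h2]
      split_ifs with hlt
      · rw [Multiset.count_eq_zero]
        intro hz
        have hr := (mem_roots'.1 hz).2
        rw [IsRoot.def, eval_map_algebraMap] at hr
        rcases hgood z hr with h3 | h3
        · exact him h3
        · rw [h3] at hlt
          linarith
      · rfl
  rw [key, Multiset.card_map]

theorem card_filter_neg (Q : ℂ[X]) (d : ℕ) (h : Q.comp (-X) = (-1) ^ d * Q) :
    (Q.roots.filter (fun z : ℂ => z.re < 0)).card = (Q.roots.filter (fun z : ℂ => 0 < z.re)).card := by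
  have h1 : (Q.comp (-X)).roots = Q.roots := by
    rw [h]
    have : ((-1 : ℂ[X]) ^ d) = C ((-1) ^ d) := by simp
    rw [this]
    exact roots_C_mul _ (pow_ne_zero _ (by norm_num))
  rw [roots_comp_neg_X] at h1
  conv_lhs => rw [← h1]
  rw [Multiset.filter_map, Multiset.card_map]
  congr 1
  refine Multiset.filter_congr ?_
  intro z _
  simp

end Pool.Agent.Helper95.CDD
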