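import Pool.Agent.Helper95.CDD.Defs
import Pool.Agent.Helper95.CDD.J10
import Pool.Agent.Helper95.CDD.J11
import Pool.Agent.Helper95.CDD.J12a

set_option autoImplicit false

open Polynomial

namespace Pool.Agent.Helper95.CDD

theorem auxRhp_neg (P : ℝ[X]) (d : ℕ) (h : P.comp (-X) = (-1) ^ d * P) (w : ℂ) :
    aeval (-w) P = (-1) ^ d * aeval w P := by
  have h1 : aeval w (P.comp (-X)) = aeval (-w) P := by
    rw [aeval_comp]; simp
  rw [← h1, h]
  simp

theorem auxRhp_del (P : ℝ[X]) (d : ℕ) (h : P.comp (-X) = (-1) ^ d * P) (l y : ℝ) :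
    aeval ((y : ℂ) * Complex.I) (del l P) =
      aeval ((y : ℂ) * Complex.I + (l : ℂ)) P -
        (-1) ^ d * (starRingEnd ℂ) (aeval ((y : ℂ) * Complex.I + (l : ℂ)) P) := by
  have h1 : (y : ℂ) * Complex.I - (l : ℂ) =
      -((starRingEnd ℂ) ((y : ℂ) * Complex.I + (l : ℂ))) := by
    simp only [map_add, map_mul, Complex.conj_ofReal, Complex.conj_I]
    ring
  rw [← aeval_conj, ← auxRhp_neg P d h, ← h1]
  simp [del, aeval_comp]

theorem auxRhp_prod (P : ℝ[X]) (w : ℂ) :
    aeval w P = (P.leadingCoeff : ℂ) *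
      ((P.map (algebraMap ℝ ℂ)).roots.map (fun a => w - a)).prod := by
  have hcard : (P.map (algebraMap ℝ ℂ)).roots.card = (P.map (algebraMap ℝ ℂ)).natDegree :=
    IsAlgClosed.card_roots_eq_natDegree
  have h1 := C_leadingCoeff_mul_prod_multiset_X_sub_C hcard
  rw [← eval_map_algebraMap]
  conv_lhs => rw [← h1]
  rw [eval_mul, eval_C, eval_multiset_prod, Multiset.map_map]
  congr 1
  · rw [leadingCoeff_map]; rfl
  · simp

theorem auxRhp_floor (e : ℤ) (d : ℕ) (hpar : (e - d) % 2 = 0) (θ₁ θ₂ : ℝ)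
    (h1 : Real.pi / 2 * (e : ℝ) - Real.pi / 2 < θ₁)
    (h2 : θ₂ < -(Real.pi / 2 * (e : ℝ)) + Real.pi / 2) :
    e - 1 ≤ ⌊(if Odd d then θ₁ else θ₁ - Real.pi / 2) / Real.pi + 1 / 2⌋ -
      ⌊(if Odd d then θ₂ else θ₂ - Real.pi / 2) / Real.pi + 1 / 2⌋ := by
  have hpi := Real.pi_pos
  have a1 : (e : ℝ) / 2 - 1 / 2 < θ₁ / Real.pi := by
    rw [lt_div_iff₀ hpi]; linarith
  have a2 : θ₂ / Real.pi < -((e : ℝ) / 2) + 1 / 2 := by
    rw [div_lt_iff₀ hpi]; linarith
  by_cases hd : Odd d
  · rw [if_pos hd, if_pos hd]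
    obtain ⟨m, hm⟩ : ∃ m : ℤ, e = 2 * m + 1 := by
      obtain ⟨k, hk⟩ := hd
      exact ⟨(e - 1) / 2, by omega⟩
    have e1 : (e : ℝ) = 2 * m + 1 := by rw [hm]; push_cast; ring
    have b1 : m ≤ ⌊θ₁ / Real.pi + 1 / 2⌋ := by
      rw [Int.le_floor]
      rw [e1] at a1; linarith
    have b2 : ⌊θ₂ / Real.pi + 1 / 2⌋ < -m + 1 := by
      rw [Int.floor_lt]
      push_cast
      rw [e1] at a2; linarith
    omega
  · rw [if_neg hd, if_neg hd]
    obtain ⟨m, hm⟩ : ∃ m : ℤ, e = 2 * m := by
      have := Nat.not_odd_iff_even.1 hd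
      obtain ⟨k, hk⟩ := this
      exact ⟨e / 2, by omega⟩
    have e1 : (e : ℝ) = 2 * m := by rw [hm]; push_cast; ring
    have c1 : (θ₁ - Real.pi / 2) / Real.pi + 1 / 2 = θ₁ / Real.pi := by
      field_simp; ring
    have c2 : (θ₂ - Real.pi / 2) / Real.pi + 1 / 2 = θ₂ / Real.pi := by
      field_simp; ring
    rw [c1, c2]
    have b1 : m - 1 ≤ ⌊θ₁ / Real.pi⌋ := by
      rw [Int.le_floor]
      push_cast
      rw [e1] at a1; linarith
    have b2 : ⌊θ₂ / Real.pi⌋ < -m + 1 := by
      rw [Int.floor_lt]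
      push_cast
      rw [e1] at a2; linarith
    omega

theorem auxRhp_split (s : Multiset ℂ) : s.card = (s.filter (fun z : ℂ => z.re < 0)).card +
    (s.filter (fun z : ℂ => z.re = 0)).card + (s.filter (fun z : ℂ => 0 < z.re)).card := by
  induction s using Multiset.induction_on with
  | empty => simp
  | cons a s ih =>
    rcases lt_trichotomy a.re 0 with h | h | h
    · have e1 := Multiset.filter_cons_of_pos (p := fun z : ℂ => z.re < 0) s h
      have e2 := Multiset.filter_cons_of_neg (p := fun z : ℂ => z.re = 0) s h.ne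
      have e3 := Multiset.filter_cons_of_neg (p := fun z : ℂ => 0 < z.re) s (not_lt.2 h.le)
      rw [e1, e2, e3, Multiset.card_cons, Multiset.card_cons, ih]
      ring
    · have e1 := Multiset.filter_cons_of_neg (p := fun z : ℂ => z.re < 0) s (not_lt.2 h.ge)
      have e2 := Multiset.filter_cons_of_pos (p := fun z : ℂ => z.re = 0) s h
      have e3 := Multiset.filter_cons_of_neg (p := fun z : ℂ => 0 < z.re) s (not_lt.2 h.le)
      rw [e1, e2, e3, Multiset.card_cons, Multiset.card_cons, ih]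
      ring
    · have e1 := Multiset.filter_cons_of_neg (p := fun z : ℂ => z.re < 0) s (not_lt.2 h.le)
      have e2 := Multiset.filter_cons_of_neg (p := fun z : ℂ => z.re = 0) s h.ne'
      have e3 := Multiset.filter_cons_of_pos (p := fun z : ℂ => 0 < z.re) s h
      rw [e1, e2, e3, Multiset.card_cons, Multiset.card_cons, ih]
      ring

theorem rhp_count (P : ℝ[X]) {l : ℝ} (hl : 0 < l) (hd : 1 ≤ P.natDegree)
    (hlc : 0 < P.leadingCoeff) (hpar : P.comp (-X) = (-1) ^ P.natDegree * P) (hgood : Good P)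
    (hPl : P.eval l ≠ 0) :
    (((del l P).map (algebraMap ℝ ℂ)).roots.filter (fun z : ℂ => 0 < z.re)).card ≤
      (P.roots.filter (fun r => l < r)).card := by
  classical
  set d := P.natDegree with hdd
  set Pc : ℂ[X] := P.map (algebraMap ℝ ℂ) with hPc
  set s := Pc.roots with hs
  set Qc : ℂ[X] := (del l P).map (algebraMap ℝ ℂ) with hQc
  have hP0 : P ≠ 0 := leadingCoeff_ne_zero.1 hlc.ne'
  have hPc0 : Pc ≠ 0 := by
    rw [hPc, Ne, Polynomial.map_eq_zero]; exact hP0
  obtain ⟨hQd, hQl⟩ := del_natDegree hl P hd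
  have hQ0 : del l P ≠ 0 := by
    rw [← leadingCoeff_ne_zero, hQl]
    have : (0 : ℝ) < P.natDegree := by exact_mod_cast hd
    positivity
  have hQc0 : Qc ≠ 0 := by
    rw [hQc, Ne, Polynomial.map_eq_zero]; exact hQ0
  have hscard : s.card = d := by
    rw [hs, IsAlgClosed.card_roots_eq_natDegree, hPc, natDegree_map]
  -- no root on the line
  have hline : ∀ a ∈ s, a.re ≠ l := by
    intro a ha hre
    have hroot : aeval a P = 0 := by
      rw [← eval_map_algebraMap]
      exact (mem_roots hPc0).1 ha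
    rcases hgood a hroot with him | hre0
    · apply hPl
      have ha' : a = (l : ℂ) := Complex.ext (by simpa using hre) (by simpa using him)
      rw [ha'] at hroot
      have : ((P.eval l : ℝ) : ℂ) = 0 := by
        rw [← hroot]
        have := Polynomial.aeval_algebraMap_apply ℂ l P
        simp only [Complex.coe_algebraMap] at this
        rw [this]; simp
      exact_mod_cast this
    · rw [hre0] at hre; exact hl.ne hre
  obtain ⟨Θ, hΘc, ⟨κ, hκ, hΘ⟩, htop, hbot⟩ := arg_on_line s l hline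
  set ρ := (s.filter (fun a : ℂ => l < a.re)).card with hρ
  have hρ' : ρ = (P.roots.filter (fun r => l < r)).card := card_filter_gt P hP0 hgood l hl.le
  rw [← hρ']
  set e : ℤ := (d : ℤ) - 2 * ρ with he
  have hee : ((s.card : ℝ) - 2 * (ρ : ℝ)) = (e : ℝ) := by
    rw [hscard, he]; push_cast; ring
  rw [hee] at htop hbot
  -- the finite set of zeros
  set S : Finset ℝ := ((Qc.roots.toFinset).filter (fun z : ℂ => z.re = 0)).image Complex.im with hS
  have hScard : S.card ≤ (Qc.roots.filter (fun z : ℂ => z.re = 0)).card := by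
    refine Finset.card_image_le.trans ?_
    rw [← Multiset.toFinset_filter]
    exact Multiset.toFinset_card_le _
  set Θ' : ℝ → ℝ := fun t => if Odd d then Θ t else Θ t - Real.pi / 2 with hΘ'
  have hΘ'c : Continuous Θ' := by
    rw [hΘ']
    by_cases h : Odd d
    · simp only [if_pos h]; exact hΘc
    · simp only [if_neg h]; exact hΘc.sub continuous_const
  have hzero : ∀ y : ℝ, Real.cos (Θ' y) = 0 → y ∈ S := by
    intro y hy
    have hQy : aeval ((y : ℂ) * Complex.I) (del l P) = 0 := by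
      rw [auxRhp_del P d hpar l y]
      set A := aeval ((y : ℂ) * Complex.I + (l : ℂ)) P with hA
      have hA1 : A = (((P.leadingCoeff * κ * ‖(s.map (fun a => (y : ℂ) * Complex.I +
          (l : ℂ) - a)).prod‖ : ℝ)) : ℂ) * Complex.exp (Complex.I * (Θ y : ℂ)) := by
        rw [hA, auxRhp_prod, ← hPc, ← hs]
        refine (congrArg (fun t => (P.leadingCoeff : ℂ) * t) (hΘ y)).trans ?_
        push_cast
        ring
      have hexp : Complex.exp (Complex.I * (Θ y : ℂ)) =
          (Real.cos (Θ y) : ℂ) + (Real.sin (Θ y) : ℂ) * Complex.I := by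
        rw [mul_comm, Complex.exp_mul_I]; push_cast; rfl
      rw [hexp] at hA1
      set B : ℝ := P.leadingCoeff * κ * ‖(s.map (fun a => (y : ℂ) * Complex.I +
          (l : ℂ) - a)).prod‖ with hB
      by_cases h : Odd d
      · have hy' : Real.cos (Θ y) = 0 := by
          simpa [hΘ', h] using hy
        rw [h.neg_one_pow, hA1, hy']
        simp only [map_mul, map_add, Complex.conj_ofReal, Complex.conj_I]
        push_cast
        ring
      · have hev := Nat.not_odd_iff_even.1 h
        have hy' : Real.sin (Θ y) = 0 := by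
          have h5 : Real.cos (Θ y - Real.pi / 2) = 0 := by
            simpa [hΘ', h] using hy
          rwa [Real.cos_sub_pi_div_two] at h5
        rw [hev.neg_one_pow, hA1, hy']
        simp only [map_mul, map_add, Complex.conj_ofReal, Complex.conj_I]
        push_cast
        ring
    rw [hS, Finset.mem_image]
    refine ⟨(y : ℂ) * Complex.I, ?_, by simp⟩
    rw [Finset.mem_filter, Multiset.mem_toFinset, mem_roots hQc0]
    refine ⟨?_, by simp⟩
    rw [IsRoot.def, hQc, eval_map_algebraMap]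
    exact hQy
  -- choice of Y
  have hpi := Real.pi_pos
  have ev1 : ∀ᶠ Y in Filter.atTop, Real.pi / 2 * (e : ℝ) - Real.pi / 2 < Θ Y :=
    htop.eventually_const_lt (by linarith)
  have ev2 : ∀ᶠ Y in Filter.atTop, Θ (-Y) < -(Real.pi / 2 * (e : ℝ)) + Real.pi / 2 :=
    (hbot.comp Filter.tendsto_neg_atTop_atBot).eventually_lt_const (by linarith)
  have ev3 : ∀ᶠ Y in Filter.atTop, ∀ y ∈ S, |y| < Y :=
    (Filter.eventually_all_finset S).2 (fun y _ => Filter.eventually_gt_atTop |y|)
  obtain ⟨Y, hY1, hY2, hY3, hY0⟩ :=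
    (ev1.and (ev2.and (ev3.and (Filter.eventually_ge_atTop (0 : ℝ))))).exists
  have hc1 : Real.cos (Θ' Y) ≠ 0 := by
    intro h
    have := hY3 _ (hzero _ h)
    exact absurd (le_abs_self Y) (not_le.2 this)
  have hc2 : Real.cos (Θ' (-Y)) ≠ 0 := by
    intro h
    have := hY3 _ (hzero _ h)
    rw [abs_neg] at this
    exact absurd (le_abs_self Y) (not_le.2 this)
  have hivt := ivt_count (a := -Y) (b := Y) (by linarith) (Φ := Θ') hΘ'c.continuousOn hc2 hc1 S
    (fun x _ _ hx => hzero x hx)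
  have hfl := auxRhp_floor e d (by rw [he]; omega) (Θ Y) (Θ (-Y)) hY1 hY2
  have hk : e - 1 ≤ (S.card : ℤ) := by
    refine le_trans hfl (le_trans (le_abs_self _) hivt)
  -- counting
  have hQcard : Qc.roots.card = d - 1 := by
    rw [IsAlgClosed.card_roots_eq_natDegree, hQc, natDegree_map, hQd]
  have hsplit := auxRhp_split Qc.roots
  have hneg := card_filter_neg Qc (d + 1) (by
    have h := congrArg (Polynomial.map (algebraMap ℝ ℂ)) (del_comp_neg l P d hpar)
    simpa [Polynomial.map_comp] using h)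
  omega

end Pool.Agent.Helper95.CDD
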