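import Pool.Agent.Helper95.CDD.Defs
import Pool.Agent.Helper95.CDD.J10
import Pool.Agent.Helper95.CDD.J11
import Pool.Agent.Helper95.CDD.J12a
import Pool.Agent.Helper95.CDD.J12b

set_option autoImplicit false

open Polynomial

namespace Pool.Agent.Helper95.CDD

theorem auxCount_split (Q : ℝ[X]) {x x' : ℝ} (h : x < x') :
    (Q.roots.toFinset.filter (fun r => x < r ∧ r < x')).card +
      (Q.roots.filter (fun r => x' < r)).card ≤ (Q.roots.filter (fun r => x < r)).card := by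
  classical
  have h1 : Q.roots.filter (fun r => x < r) = Q.roots.filter (fun r => x < r ∧ r < x') +
      Q.roots.filter (fun r => x < r ∧ ¬ r < x') := by
    conv_lhs => rw [← Multiset.filter_add_not (fun r => r < x') (Q.roots.filter (fun r => x < r)),
      Multiset.filter_filter, Multiset.filter_filter]
    congr 1 <;> (apply Multiset.filter_congr; intros; tauto)
  rw [h1, Multiset.card_add]
  refine add_le_add ?_ ?_
  · rw [← Multiset.toFinset_filter]; exact Multiset.toFinset_card_le _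
  · refine Multiset.card_le_card (Multiset.monotone_filter_right _ ?_)
    intro r hr
    exact ⟨h.trans hr, not_lt.2 (le_of_lt hr)⟩

theorem auxCount_step {Q : ℝ[X]} (hQ : Q ≠ 0) {W : ℝ} {Φ' : ℝ → ℝ}
    (hΦc' : ContinuousOn Φ' (Set.Ioc 0 W))
    (hcos' : ∀ x, 0 < x → x < W → ∃ A : ℝ, 0 < A ∧ Q.eval x = A * Real.cos (Φ' x))
    {x x' : ℝ} (hx : 0 < x) (hxx : x < x') (hx' : x' < W) (h1 : Q.eval x ≠ 0)
    (h2 : Q.eval x' ≠ 0) :
    |⌊Φ' x' / Real.pi + 1 / 2⌋ - ⌊Φ' x / Real.pi + 1 / 2⌋| ≤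
      ((Q.roots.toFinset.filter (fun r => x < r ∧ r < x')).card : ℤ) := by
  have hc : ∀ y, 0 < y → y < W → Q.eval y ≠ 0 → Real.cos (Φ' y) ≠ 0 := by
    intro y hy hy' hq hc
    obtain ⟨A, -, hA⟩ := hcos' y hy hy'
    rw [hc, mul_zero] at hA
    exact hq hA
  refine ivt_count hxx.le (hΦc'.mono fun y hy => ⟨hx.trans_le hy.1, hy.2.trans hx'.le⟩)
    (hc x hx (hxx.trans hx') h1) (hc x' (hx.trans hxx) hx' h2) _ ?_
  intro y hy1 hy2 hy3
  obtain ⟨A, -, hA⟩ := hcos' y (hx.trans hy1) (hy2.trans hx')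
  rw [hy3, mul_zero] at hA
  rw [Finset.mem_filter, Multiset.mem_toFinset, mem_roots hQ]
  exact ⟨hA, hy1, hy2⟩

theorem auxCount_parity {Q : ℝ[X]} (hQ : 0 < Q.leadingCoeff) {A x t : ℝ} (hA : 0 < A)
    (h : Q.eval x = A * Real.cos t) (hx : Q.eval x ≠ 0) :
    ∃ m : ℤ, ((Q.roots.filter (fun r => x < r)).card : ℤ) = ⌊t / Real.pi + 1 / 2⌋ + 2 * m := by
  have hc : Real.cos t ≠ 0 := by
    intro hc; rw [hc, mul_zero] at h; exact hx h
  have h1 := cos_sign_floor t hc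
  have h2 := sign_roots Q hQ x hx
  set T := (Q.roots.filter (fun r => x < r)).card with hT
  set K := ⌊t / Real.pi + 1 / 2⌋ with hK
  have h3 : 0 < (-1 : ℝ) ^ (K.natAbs + T) := by
    have h4 := mul_pos h1 h2
    rw [h] at h4
    have h5 : (-1 : ℝ) ^ K.natAbs * Real.cos t * ((-1) ^ T * (A * Real.cos t)) =
        (-1 : ℝ) ^ (K.natAbs + T) * (A * Real.cos t ^ 2) := by
      rw [pow_add]; ring
    rw [h5] at h4
    exact pos_of_mul_pos_left h4 (by positivity)
  have h4 : Even (K.natAbs + T) := by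
    by_contra hodd
    rw [Nat.not_even_iff_odd] at hodd
    rw [hodd.neg_one_pow] at h3
    linarith
  obtain ⟨n, hn⟩ := h4
  rcases Int.natAbs_eq K with h5 | h5
  · exact ⟨n - K, by omega⟩
  · exact ⟨n, by omega⟩

theorem auxCount_roots_ev {Q : ℝ[X]} (hQ : Q ≠ 0) (c : ℝ) :
    ∀ᶠ y in nhdsWithin c {c}ᶜ, Q.eval y ≠ 0 := by
  have hfin : ((Q.roots.toFinset : Set ℝ) \ {c}).Finite := (Finset.finite_toSet _).subset
    Set.diff_subset
  have hopen : IsOpen ((Q.roots.toFinset : Set ℝ) \ {c})ᶜ := hfin.isClosed.isOpen_compl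
  have hmem : ((Q.roots.toFinset : Set ℝ) \ {c})ᶜ ∈ nhds c := hopen.mem_nhds (by simp)
  filter_upwards [nhdsWithin_le_nhds hmem, self_mem_nhdsWithin] with y hy hyc hq
  apply hy
  refine ⟨?_, hyc⟩
  rw [Finset.mem_coe, Multiset.mem_toFinset, mem_roots hQ]
  exact hq

theorem auxCount_bound {Q : ℝ[X]} (hQ : Q ≠ 0) (hlcQ : 0 < Q.leadingCoeff) {W : ℝ}
    {Φ' : ℝ → ℝ} (hΦc' : ContinuousOn Φ' (Set.Ioc 0 W)) (hend : Φ' W = Real.pi / 2)
    (hcos' : ∀ x, 0 < x → x < W → ∃ A : ℝ, 0 < A ∧ Q.eval x = A * Real.cos (Φ' x))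
    {x : ℝ} (hx : 0 < x) (hx' : x < W) (h1 : Q.eval x ≠ 0) :
    |⌊Φ' x / Real.pi + 1 / 2⌋| ≤ ((Q.roots.filter (fun r => x < r)).card : ℤ) := by
  have hW : 0 < W := hx.trans hx'
  have hpi := Real.pi_pos
  have hcw : ContinuousWithinAt Φ' (Set.Ioc 0 W) W := hΦc' W ⟨hW, le_rfl⟩
  have hle : nhdsWithin W (Set.Iio W) ≤ nhdsWithin W (Set.Ioc 0 W) :=
    nhdsWithin_le_of_mem (Filter.mem_of_superset (Ioo_mem_nhdsLT hW) Set.Ioo_subset_Ioc_self)
  have hev1 : ∀ᶠ y in nhdsWithin W (Set.Iio W), Φ' y ∈ Set.Ioo 0 Real.pi := by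
    refine (hcw.mono_left hle).eventually (isOpen_Ioo.mem_nhds ?_)
    rw [hend]; constructor <;> linarith
  have hev2 : ∀ᶠ y in nhdsWithin W (Set.Iio W), Q.eval y ≠ 0 :=
    (auxCount_roots_ev hQ W).filter_mono (nhdsWithin_mono _ fun y hy => ne_of_lt hy)
  have hev3 : ∀ᶠ y in nhdsWithin W (Set.Iio W), y ∈ Set.Ioo x W := Ioo_mem_nhdsLT hx'
  obtain ⟨y, ⟨hy1, hy2⟩, hy3, hy4, hy5⟩ := (hev1.and (hev2.and hev3)).exists
  have hy0 : 0 < y := hx.trans hy4
  have hs := auxCount_step hQ hΦc' hcos' hx hy4 hy5 h1 hy3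
  have hsp := auxCount_split Q hy4
  obtain ⟨A, hA, hAe⟩ := hcos' y hy0 hy5
  obtain ⟨m, hm⟩ := auxCount_parity hlcQ hA hAe hy3
  have hk : ⌊Φ' y / Real.pi + 1 / 2⌋ = 0 ∨ ⌊Φ' y / Real.pi + 1 / 2⌋ = 1 := by
    have e1 : 0 < Φ' y / Real.pi := div_pos hy1 hpi
    have e2 : Φ' y / Real.pi < 1 := by rw [div_lt_one hpi]; exact hy2
    have e3 : 0 ≤ ⌊Φ' y / Real.pi + 1 / 2⌋ := by
      apply Int.floor_nonneg.2; linarith
    have e4 : ⌊Φ' y / Real.pi + 1 / 2⌋ < 2 := by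
      apply Int.floor_lt.2; push_cast; linarith
    omega
  generalize ⌊Φ' y / Real.pi + 1 / 2⌋ = ky at *
  generalize ⌊Φ' x / Real.pi + 1 / 2⌋ = kx at *
  rw [abs_le] at hs ⊢
  omega

theorem auxCount_complex {Q : ℝ[X]} (hQ : Q ≠ 0) {x : ℝ} (hx : 0 ≤ x) :
    (Q.roots.filter (fun r => x < r)).card ≤
      ((Q.map (algebraMap ℝ ℂ)).roots.filter (fun z : ℂ => 0 < z.re ∧ z.im = 0)).card := by
  classical
  have hQc : Q.map (algebraMap ℝ ℂ) ≠ 0 := by
    rw [Polynomial.map_ne_zero_iff (algebraMap ℝ ℂ).injective]; exact hQ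
  have h1 : Q.roots.map (algebraMap ℝ ℂ) ≤ (Q.map (algebraMap ℝ ℂ)).roots :=
    Polynomial.map_roots_le hQc
  have h2 : (Q.roots.filter (fun r => x < r)).map (algebraMap ℝ ℂ) ≤
      (Q.map (algebraMap ℝ ℂ)).roots.filter (fun z : ℂ => 0 < z.re ∧ z.im = 0) := by
    rw [Multiset.le_filter]
    refine ⟨(Multiset.map_le_map (Multiset.filter_le _ _)).trans h1, ?_⟩
    intro z hz
    obtain ⟨r, hr, rfl⟩ := Multiset.mem_map.1 hz
    have := (Multiset.mem_filter.1 hr).2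
    simp only [Complex.coe_algebraMap, Complex.ofReal_re, Complex.ofReal_im, and_true]
    exact hx.trans_lt this
  have h3 := Multiset.card_le_card h2
  rwa [Multiset.card_map] at h3

theorem count_step (P : ℝ[X]) {l : ℝ} (hl : 0 < l) (hd : 1 ≤ P.natDegree)
    (hlc : 0 < P.leadingCoeff) (hpar : P.comp (-X) = (-1) ^ P.natDegree * P) (hgood : Good P)
    (hPl : P.eval l ≠ 0) {Z : ℝ} (hZ : l < Z) {Φ Φ' : ℝ → ℝ}
    (hΦc : ContinuousOn Φ (Set.Ioc 0 Z)) (hΦc' : ContinuousOn Φ' (Set.Ioc 0 (Z - l)))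
    (hend : Φ' (Z - l) = Real.pi / 2)
    (hcos : ∀ x, 0 < x → x < Z → ∃ A : ℝ, 0 < A ∧ P.eval x = A * Real.cos (Φ x))
    (hcos' : ∀ x, 0 < x → x < Z - l → ∃ A : ℝ, 0 < A ∧ (del l P).eval x = A * Real.cos (Φ' x))
    (hstep : ∀ x, 0 < x → x < Z - l → |Φ' x - Φ (x + l)| < Real.pi / 2)
    (hcount : ∀ x, 0 < x → x < Z → P.eval x ≠ 0 →
      ((P.roots.filter (fun r => x < r)).card : ℤ) = -⌊Φ x / Real.pi + 1 / 2⌋) :
    Good (del l P) ∧ ∀ x, 0 < x → x < Z - l → (del l P).eval x ≠ 0 →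
      (((del l P).roots.filter (fun r => x < r)).card : ℤ) = -⌊Φ' x / Real.pi + 1 / 2⌋ := by
  classical
  have hpi := Real.pi_pos
  have hW : 0 < Z - l := sub_pos.2 hZ
  obtain ⟨-, hlcQ'⟩ := del_natDegree hl P hd
  have hlcQ : 0 < (del l P).leadingCoeff := by
    rw [hlcQ']
    have : (0 : ℝ) < P.natDegree := by exact_mod_cast hd
    positivity
  have hQ : del l P ≠ 0 := by
    intro h; rw [h, leadingCoeff_zero] at hlcQ; exact lt_irrefl _ hlcQ
  have hneg := del_comp_neg l P _ hpar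
  have hRC := rhp_count P hl hd hlc hpar hgood hPl
  set Q := del l P with hQdef
  have hQc : Q.map (algebraMap ℝ ℂ) ≠ 0 := by
    rw [Polynomial.map_ne_zero_iff (algebraMap ℝ ℂ).injective]; exact hQ
  have hrho := hcount l hl hZ hPl
  set ρ := (P.roots.filter (fun r => l < r)).card with hρ
  -- choice of `x0`
  have hevA : ∀ᶠ y in nhdsWithin (0 : ℝ) (Set.Ioi 0), ∀ z, 0 < z → z ≤ y → Q.eval z ≠ 0 := by
    have h1 : ∀ᶠ y in nhdsWithin (0 : ℝ) (Set.Ioi 0), Q.eval y ≠ 0 :=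
      (auxCount_roots_ev hQ 0).filter_mono (nhdsWithin_mono _ fun y hy => ne_of_gt hy)
    obtain ⟨u, hu, hsub⟩ := (mem_nhdsGT_iff_exists_Ioc_subset).1 h1
    filter_upwards [Ioc_mem_nhdsGT hu] with y hy z hz hzy
    exact hsub ⟨hz, hzy.trans hy.2⟩
  have hevB : ∀ᶠ y in nhdsWithin (0 : ℝ) (Set.Ioi 0),
      ⌊Φ (y + l) / Real.pi + 1 / 2⌋ = ⌊Φ l / Real.pi + 1 / 2⌋ := by
    have hca : ContinuousAt Φ l := hΦc.continuousAt (Ioc_mem_nhds hl hZ)
    have hcb : ContinuousAt (fun y => Φ y / Real.pi + 1 / 2) l :=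
      (hca.div_const _).add continuousAt_const
    have hcl : Real.cos (Φ l) ≠ 0 := by
      obtain ⟨A, -, hA⟩ := hcos l hl hZ
      intro hc; rw [hc, mul_zero] at hA; exact hPl hA
    have hmem : Φ l / Real.pi + 1 / 2 ∈ Set.Ioo ((⌊Φ l / Real.pi + 1 / 2⌋ : ℤ) : ℝ)
        ((⌊Φ l / Real.pi + 1 / 2⌋ : ℤ) + 1 : ℝ) := by
      refine ⟨lt_of_le_of_ne (Int.floor_le _) ?_, Int.lt_floor_add_one _⟩
      intro h
      apply hcl
      rw [Real.cos_eq_zero_iff]
      refine ⟨⌊Φ l / Real.pi + 1 / 2⌋ - 1, ?_⟩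
      generalize ⌊Φ l / Real.pi + 1 / 2⌋ = n at h
      have e1 : Φ l / Real.pi = n - 1 / 2 := by linarith
      have e2 : Φ l = (n - 1 / 2) * Real.pi := by
        rw [← e1]; field_simp
      rw [e2]; push_cast; ring
    have hev : ∀ᶠ y in nhds l, Φ y / Real.pi + 1 / 2 ∈ Set.Ioo ((⌊Φ l / Real.pi + 1 / 2⌋ : ℤ) : ℝ)
        ((⌊Φ l / Real.pi + 1 / 2⌋ : ℤ) + 1 : ℝ) := hcb.eventually (isOpen_Ioo.mem_nhds hmem)
    have ht : Filter.Tendsto (fun y : ℝ => y + l) (nhdsWithin (0 : ℝ) (Set.Ioi 0)) (nhds l) := by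
      have : Filter.Tendsto (fun y : ℝ => y + l) (nhds 0) (nhds (0 + l)) :=
        (continuous_id.add continuous_const).tendsto 0
      rw [zero_add] at this
      exact this.mono_left nhdsWithin_le_nhds
    filter_upwards [ht.eventually hev] with y hy
    exact Int.floor_eq_iff.2 ⟨hy.1.le, hy.2⟩
  have hevC : ∀ᶠ y in nhdsWithin (0 : ℝ) (Set.Ioi 0), y ∈ Set.Ioo 0 (Z - l) := Ioo_mem_nhdsGT hW
  obtain ⟨x0, hA0, hB0, hx0, hx0'⟩ := (hevA.and (hevB.and hevC)).exists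
  have hQx0 : Q.eval x0 ≠ 0 := hA0 x0 hx0 le_rfl
  -- facts at `x0`
  have f1 := auxCount_bound hQ hlcQ hΦc' hend hcos' hx0 hx0' hQx0
  have f2 : |⌊Φ' x0 / Real.pi + 1 / 2⌋ - ⌊Φ (x0 + l) / Real.pi + 1 / 2⌋| ≤ 1 := by
    have h1 := hstep x0 hx0 hx0'
    have h2 : |Φ' x0 / Real.pi - Φ (x0 + l) / Real.pi| < 1 / 2 := by
      rw [← sub_div, abs_div, abs_of_pos hpi, div_lt_iff₀ hpi]
      linarith
    have a1 := Int.floor_le (Φ' x0 / Real.pi + 1 / 2)
    have a2 := Int.lt_floor_add_one (Φ' x0 / Real.pi + 1 / 2)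
    have b1 := Int.floor_le (Φ (x0 + l) / Real.pi + 1 / 2)
    have b2 := Int.lt_floor_add_one (Φ (x0 + l) / Real.pi + 1 / 2)
    rw [abs_lt] at h2
    generalize ⌊Φ' x0 / Real.pi + 1 / 2⌋ = p at *
    generalize ⌊Φ (x0 + l) / Real.pi + 1 / 2⌋ = q at *
    have c1 : ((p - q : ℤ) : ℝ) < 2 := by push_cast; linarith [h2.2]
    have c2 : (-2 : ℝ) < ((p - q : ℤ) : ℝ) := by push_cast; linarith [h2.1]
    have c3 : p - q < 2 := by exact_mod_cast c1
    have c4 : -2 < p - q := by exact_mod_cast c2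
    rw [abs_le]; omega
  have hTle : ∀ x : ℝ, 0 ≤ x → (Q.roots.filter (fun r => x < r)).card ≤
      ((Q.map (algebraMap ℝ ℂ)).roots.filter (fun z : ℂ => 0 < z.re)).card := by
    intro x hx
    refine (auxCount_complex hQ hx).trans (Multiset.card_le_card ?_)
    exact Multiset.monotone_filter_right _ fun z hz => hz.1
  have f3 : (Q.roots.filter (fun r => x0 < r)).card ≤ ρ := (hTle x0 hx0.le).trans hRC
  obtain ⟨A, hA, hAe⟩ := hcos' x0 hx0 hx0'
  obtain ⟨m, hm⟩ := auxCount_parity hlcQ hA hAe hQx0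
  have key : ((Q.roots.filter (fun r => x0 < r)).card : ℤ) = -⌊Φ' x0 / Real.pi + 1 / 2⌋ ∧
      (ρ : ℤ) ≤ (Q.roots.filter (fun r => x0 < r)).card + 1 := by
    rw [hB0] at f2
    generalize ⌊Φ' x0 / Real.pi + 1 / 2⌋ = p at *
    generalize ⌊Φ l / Real.pi + 1 / 2⌋ = q at *
    generalize (Q.roots.filter (fun r => x0 < r)).card = T at *
    rw [abs_le] at f1 f2
    omega
  obtain ⟨key1, key2⟩ := key
  refine ⟨?_, ?_⟩
  · -- `Good Q`
    have hmain : ∀ z : ℂ, aeval z Q = 0 → z.im ≠ 0 → 0 < z.re → False := by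
      intro z hz him hre
      have hzr : z ∈ (Q.map (algebraMap ℝ ℂ)).roots := by
        rw [mem_roots hQc, IsRoot.def, eval_map_algebraMap]; exact hz
      have hzr' : (starRingEnd ℂ) z ∈ (Q.map (algebraMap ℝ ℂ)).roots := by
        rw [mem_roots hQc, IsRoot.def, eval_map_algebraMap, Polynomial.aeval_conj, hz, map_zero]
      have h1 : (Q.map (algebraMap ℝ ℂ)).roots.filter (fun z : ℂ => 0 < z.re) =
          (Q.map (algebraMap ℝ ℂ)).roots.filter (fun z : ℂ => 0 < z.re ∧ z.im = 0) +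
          (Q.map (algebraMap ℝ ℂ)).roots.filter (fun z : ℂ => 0 < z.re ∧ ¬ z.im = 0) := by
        conv_lhs => rw [← Multiset.filter_add_not (fun z : ℂ => z.im = 0)
          ((Q.map (algebraMap ℝ ℂ)).roots.filter (fun z : ℂ => 0 < z.re)),
          Multiset.filter_filter, Multiset.filter_filter]
        congr 1 <;> (apply Multiset.filter_congr; intros; tauto)
      have h2 : 2 ≤ ((Q.map (algebraMap ℝ ℂ)).roots.filter
          (fun z : ℂ => 0 < z.re ∧ ¬ z.im = 0)).card := by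
        refine le_trans ?_ (Multiset.toFinset_card_le _)
        have hne : z ≠ (starRingEnd ℂ) z := by
          intro h
          have := congrArg Complex.im h
          rw [Complex.conj_im] at this
          apply him; linarith
        rw [← Finset.card_pair hne]
        refine Finset.card_le_card ?_
        intro w hw
        rw [Multiset.mem_toFinset, Multiset.mem_filter]
        rcases Finset.mem_insert.1 hw with rfl | hw
        · exact ⟨hzr, hre, him⟩
        · rw [Finset.mem_singleton] at hw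
          rw [hw]
          refine ⟨hzr', ?_, ?_⟩
          · rw [Complex.conj_re]; exact hre
          · rw [Complex.conj_im]; simpa using him
      have h3 := congrArg Multiset.card h1
      rw [Multiset.card_add] at h3
      have h4 := auxCount_complex hQ hx0.le
      omega
    intro z hz
    by_contra hcon
    push Not at hcon
    obtain ⟨him, hre⟩ := hcon
    rcases lt_or_gt_of_ne hre with h | h
    · refine hmain (-z) ?_ (by simpa using him) (by simpa using h)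
      have h1 : aeval (-z) Q = aeval z (Q.comp (-X)) := by
        rw [aeval_comp]; simp
      rw [h1, hneg, map_mul, hz, mul_zero]
    · exact hmain z hz him h
  · intro x hx hx' hQx
    rcases lt_trichotomy x x0 with h | h | h
    · have hs := auxCount_step hQ hΦc' hcos' hx h hx0' hQx hQx0
      have hS : (Q.roots.toFinset.filter (fun r => x < r ∧ r < x0)) = ∅ := by
        rw [Finset.filter_eq_empty_iff]
        rintro r hr ⟨hr1, hr2⟩
        rw [Multiset.mem_toFinset, mem_roots hQ] at hr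
        exact hA0 r (hx.trans hr1) hr2.le hr
      rw [hS, Finset.card_empty, Nat.cast_zero] at hs
      have hT : Q.roots.filter (fun r => x < r) = Q.roots.filter (fun r => x0 < r) := by
        apply Multiset.filter_congr
        intro r hr
        rw [mem_roots hQ] at hr
        constructor
        · intro hr1
          by_contra hr2
          exact hA0 r (hx.trans hr1) (not_lt.1 hr2) hr
        · intro hr1; exact h.trans hr1
      rw [hT, key1]
      have := abs_nonpos_iff.1 hs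
      omega
    · rw [h]; exact key1
    · have hs := auxCount_step hQ hΦc' hcos' hx0 h hx' hQx0 hQx
      have hsp := auxCount_split Q h
      have hb := auxCount_bound hQ hlcQ hΦc' hend hcos' hx hx' hQx
      generalize ⌊Φ' x0 / Real.pi + 1 / 2⌋ = p at *
      generalize ⌊Φ' x / Real.pi + 1 / 2⌋ = q at *
      rw [abs_le] at hs hb
      omega

end Pool.Agent.Helper95.CDD
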