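import Pool.Agent.Helper95.CDD.Defs

set_option autoImplicit false

open Polynomial

namespace Pool.Agent.Helper95.CDD

theorem XX_succ (m : ℕ) (l : ℝ) (n : ℕ) : XX m l (n + 1) = XX m l n - l := by
  unfold XX
  push_cast
  ring

theorem XX_half (m : ℕ) (l : ℝ) (n : ℕ) : XX (m + 1) l (n + 1) = XX m l n + 1 / 2 - l := by
  unfold XX
  push_cast
  ring

theorem auxA_XX (m : ℕ) (l : ℝ) (n : ℕ) (z : ℂ) :
    ((XX m l n : ℝ) : ℂ) - (z + (l : ℂ)) = ((XX m l (n + 1) : ℝ) : ℂ) - z := by
  rw [XX_succ]
  push_cast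
  ring

theorem V_eq (m : ℕ) (l : ℝ) (n : ℕ) (z : ℂ) (hz : ∀ k : ℕ, z ≠ ((XX m l n : ℝ) : ℂ) + k) :
    V m l n z = Complex.Gamma ((XX m l n : ℝ) - z) * Vt m l n z := by
  induction n generalizing z with
  | zero =>
    simp only [V, Vt]
    ring
  | succ n ih =>
    have h1 : ∀ k : ℕ, z + (l : ℂ) ≠ ((XX m l n : ℝ) : ℂ) + k := by
      intro k hk
      apply hz k
      rw [XX_succ]
      push_cast
      linear_combination hk
    have hG : Complex.Gamma (((XX m l (n + 1) : ℝ) : ℂ) - z) ≠ 0 := by
      apply Complex.Gamma_ne_zero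
      intro k hk
      apply hz k
      linear_combination -hk
    simp only [V, Vt]
    rw [ih _ h1, auxA_XX]
    field_simp

theorem Vt_succ_eq (m : ℕ) (l : ℝ) (n : ℕ) (z : ℂ) (h : Vt m l n (z + (l : ℂ)) ≠ 0) :
    Vt m l (n + 1) z = Vt m l n (z + (l : ℂ)) * (1 - psi m l n z) := by
  simp only [Vt, psi]
  rw [auxA_XX]
  field_simp

theorem Vt_succ_ne {m : ℕ} {l : ℝ} {n : ℕ} (h : LL m l n) (z : ℂ) (h0 : 0 < z.re)
    (h1 : z.re < XX m l n) : Vt m l (n + 1) z ≠ 0 := by
  obtain ⟨h2, h3⟩ := h z h0 h1
  rw [Vt_succ_eq m l n z h2]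
  refine mul_ne_zero h2 ?_
  intro h4
  have h5 : psi m l n z = 1 := by linear_combination -h4
  rw [h5] at h3
  simp at h3

theorem V_symm (m : ℕ) (l : ℝ) (n : ℕ) (z : ℂ) :
    V m l n (-(starRingEnd ℂ z)) = (-1) ^ n * starRingEnd ℂ (V m l n z) := by
  induction n generalizing z with
  | zero =>
    simp only [V]
    rw [map_mul, map_mul, ← Complex.exp_conj, ← Complex.Gamma_conj, ← Complex.Gamma_conj]
    simp only [map_mul, map_add, map_sub, Complex.conj_I, Complex.conj_ofReal]
    have e1 : Complex.I * (Real.pi : ℂ) * -(starRingEnd ℂ z) =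
        -Complex.I * (Real.pi : ℂ) * (starRingEnd ℂ z) := by ring
    have e2 : ((XX m l 0 : ℝ) : ℂ) + -(starRingEnd ℂ z) = ((XX m l 0 : ℝ) : ℂ) - starRingEnd ℂ z := by
      ring
    have e3 : ((XX m l 0 : ℝ) : ℂ) - -(starRingEnd ℂ z) = ((XX m l 0 : ℝ) : ℂ) + starRingEnd ℂ z := by
      ring
    rw [e1, e2, e3]
    ring
  | succ n ih =>
    simp only [V]
    have e1 : -(starRingEnd ℂ z) + (l : ℂ) = -(starRingEnd ℂ (z - (l : ℂ))) := by
      rw [map_sub, Complex.conj_ofReal]
      ring
    have e2 : -(starRingEnd ℂ z) - (l : ℂ) = -(starRingEnd ℂ (z + (l : ℂ))) := by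
      rw [map_add, Complex.conj_ofReal]
      ring
    rw [e1, e2, ih, ih, map_sub, pow_succ]
    ring

theorem norm_V_symm (m : ℕ) (l : ℝ) (n : ℕ) (z : ℂ) :
    ‖V m l n (-(starRingEnd ℂ z))‖ = ‖V m l n z‖ := by
  rw [V_symm, norm_mul, norm_pow, norm_neg, norm_one, one_pow, one_mul, RCLike.norm_conj]

theorem auxA_Gamma_diff (c : ℝ) (w : ℂ) (hw : w.im ≠ 0 ∨ 0 < c + w.re) :
    DifferentiableAt ℂ Complex.Gamma ((c : ℂ) + w) := by
  apply Complex.differentiableAt_Gamma
  intro k hk
  have h1 := congrArg Complex.re hk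
  have h2 := congrArg Complex.im hk
  simp at h1 h2
  rcases hw with h | h
  · exact h h2
  · have : (0 : ℝ) ≤ k := Nat.cast_nonneg k
    linarith

theorem V_differentiableAt (m : ℕ) {l : ℝ} (hl : 0 < l) (n : ℕ) (z : ℂ)
    (hz : z.im ≠ 0 ∨ |z.re| < XX m l n) : DifferentiableAt ℂ (V m l n) z := by
  induction n generalizing z with
  | zero =>
    have hV : V m l 0 = fun z => Complex.exp (Complex.I * (Real.pi : ℂ) * z) *
      Complex.Gamma ((XX m l 0 : ℝ) + z) * Complex.Gamma ((XX m l 0 : ℝ) - z) := by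
      funext z
      simp only [V]
    rw [hV]
    have d1 : DifferentiableAt ℂ (fun z : ℂ => Complex.exp (Complex.I * (Real.pi : ℂ) * z)) z := by
      fun_prop
    have d2 : DifferentiableAt ℂ (fun z : ℂ => Complex.Gamma ((XX m l 0 : ℝ) + z)) z := by
      have h : DifferentiableAt ℂ Complex.Gamma (((XX m l 0 : ℝ) : ℂ) + z) := by
        apply auxA_Gamma_diff
        rcases hz with h | h
        · exact Or.inl h
        · right
          have := (abs_lt.1 h).1
          linarith
      exact h.comp z (by fun_prop)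
    have d3 : DifferentiableAt ℂ (fun z : ℂ => Complex.Gamma ((XX m l 0 : ℝ) - z)) z := by
      have h : DifferentiableAt ℂ Complex.Gamma (((XX m l 0 : ℝ) : ℂ) - z) := by
        rw [sub_eq_add_neg]
        apply auxA_Gamma_diff
        rcases hz with h | h
        · exact Or.inl (by simpa using h)
        · right
          have := (abs_lt.1 h).2
          simp
          linarith
      exact h.comp z (by fun_prop)
    exact (d1.mul d2).mul d3
  | succ n ih =>
    have hV : V m l (n + 1) = fun z => V m l n (z + (l : ℂ)) - V m l n (z - (l : ℂ)) := by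
      funext z
      simp only [V]
    rw [hV]
    have hX := XX_succ m l n
    have h1 : DifferentiableAt ℂ (V m l n) (z + (l : ℂ)) := by
      apply ih
      rcases hz with h | h
      · exact Or.inl (by simpa using h)
      · right
        rw [abs_lt] at h ⊢
        simp only [Complex.add_re, Complex.ofReal_re]
        constructor <;> linarith [h.1, h.2]
    have h2 : DifferentiableAt ℂ (V m l n) (z - (l : ℂ)) := by
      apply ih
      rcases hz with h | h
      · exact Or.inl (by simpa using h)
      · right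
        rw [abs_lt] at h ⊢
        simp only [Complex.sub_re, Complex.ofReal_re]
        constructor <;> linarith [h.1, h.2]
    exact (h1.comp z (by fun_prop)).sub (h2.comp z (by fun_prop))

theorem Vt_differentiableAt (m : ℕ) {l : ℝ} (hl : 0 < l) (n : ℕ) (z : ℂ)
    (hz : z.im ≠ 0 ∨ (-(XX m l n) < z.re ∧ z.re < XX m l n + 2 * l)) :
    DifferentiableAt ℂ (Vt m l n) z := by
  induction n generalizing z with
  | zero =>
    have hV : Vt m l 0 = fun z => Complex.exp (Complex.I * (Real.pi : ℂ) * z) *
      Complex.Gamma ((XX m l 0 : ℝ) + z) := by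
      funext z
      simp only [Vt]
    rw [hV]
    have d1 : DifferentiableAt ℂ (fun z : ℂ => Complex.exp (Complex.I * (Real.pi : ℂ) * z)) z := by
      fun_prop
    have d2 : DifferentiableAt ℂ (fun z : ℂ => Complex.Gamma ((XX m l 0 : ℝ) + z)) z := by
      have h : DifferentiableAt ℂ Complex.Gamma (((XX m l 0 : ℝ) : ℂ) + z) := by
        apply auxA_Gamma_diff
        rcases hz with h | h
        · exact Or.inl h
        · right
          linarith [h.1]
      exact h.comp z (by fun_prop)
    exact d1.mul d2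
  | succ n ih =>
    have hV : Vt m l (n + 1) = fun z => Vt m l n (z + (l : ℂ)) -
      (Complex.Gamma ((XX m l (n + 1) : ℝ) - z))⁻¹ * V m l n (z - (l : ℂ)) := by
      funext z
      simp only [Vt]
    rw [hV]
    have hX := XX_succ m l n
    have h1 : DifferentiableAt ℂ (Vt m l n) (z + (l : ℂ)) := by
      apply ih
      rcases hz with h | h
      · exact Or.inl (by simpa using h)
      · right
        simp only [Complex.add_re, Complex.ofReal_re]
        constructor <;> linarith [h.1, h.2]
    have h2 : DifferentiableAt ℂ (V m l n) (z - (l : ℂ)) := by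
      apply V_differentiableAt m hl
      rcases hz with h | h
      · exact Or.inl (by simpa using h)
      · right
        rw [abs_lt]
        simp only [Complex.sub_re, Complex.ofReal_re]
        constructor <;> linarith [h.1, h.2]
    have h3 : DifferentiableAt ℂ
        (fun z : ℂ => (Complex.Gamma ((XX m l (n + 1) : ℝ) - z))⁻¹) z := by
      have h : DifferentiableAt ℂ (fun s : ℂ => (Complex.Gamma s)⁻¹)
          (((XX m l (n + 1) : ℝ) : ℂ) - z) := Complex.differentiable_one_div_Gamma _
      exact h.comp z (by fun_prop)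
    exact (h1.comp z (by fun_prop)).sub (h3.mul (h2.comp z (by fun_prop)))

end Pool.Agent.Helper95.CDD
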