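import Pool.Agent.Helper95.CDD.Defs
import Pool.Agent.Helper95.CDD.J1

set_option autoImplicit false

open Polynomial

namespace Pool.Agent.Helper95.CDD

theorem auxPhi_one_sub_re {m : ℕ} {l : ℝ} {n : ℕ} (hL : LL m l n) (x : ℝ) (h0 : 0 < x)
    (h1 : x < XX m l n) : 0 < (1 - psi m l n (x : ℂ)).re := by
  have h := (hL (x : ℂ) (by simpa using h0) (by simpa using h1)).2
  have h2 : (psi m l n (x : ℂ)).re ≤ ‖psi m l n (x : ℂ)‖ := Complex.re_le_norm _
  simp only [Complex.sub_re, Complex.one_re]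
  linarith

theorem auxPhi_psi_cont (m : ℕ) {l : ℝ} (hl : 0 < l) (n : ℕ) (hX : l < XX m l n)
    (hL : LL m l n) (x : ℝ) (h0 : 0 < x) (h1 : x < XX m l n) :
    ContinuousAt (fun y : ℝ => psi m l n (y : ℂ)) x := by
  have hz : ContinuousAt (psi m l n) (x : ℂ) := by
    unfold psi
    refine ContinuousAt.div (ContinuousAt.mul ?_ ?_) ?_ ?_
    · have h := Complex.differentiable_one_div_Gamma.continuous
      have : Continuous (fun z : ℂ => (Complex.Gamma ((XX m l n : ℝ) - (z + (l : ℂ))))⁻¹) :=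
        h.comp (by fun_prop)
      exact this.continuousAt
    · have h : ContinuousAt (V m l n) ((x : ℂ) - (l : ℂ)) := by
        refine (V_differentiableAt m hl n _ (Or.inr ?_)).continuousAt
        have : ((x : ℂ) - (l : ℂ)).re = x - l := by simp
        rw [this, abs_lt]
        constructor <;> linarith
      exact ContinuousAt.comp (f := fun z : ℂ => z - (l : ℂ)) h (by fun_prop)
    · have h : ContinuousAt (Vt m l n) ((x : ℂ) + (l : ℂ)) := by
        refine (Vt_differentiableAt m hl n _ (Or.inr ?_)).continuousAt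
        have : ((x : ℂ) + (l : ℂ)).re = x + l := by simp
        rw [this]
        constructor <;> linarith
      exact ContinuousAt.comp (f := fun z : ℂ => z + (l : ℂ)) h (by fun_prop)
    · exact (hL (x : ℂ) (by simpa using h0) (by simpa using h1)).1
  exact ContinuousAt.comp (f := fun y : ℝ => (y : ℂ)) hz Complex.continuous_ofReal.continuousAt

theorem Vt_phase (m : ℕ) {l : ℝ} (hl : 0 < l) (n : ℕ) (hX : 0 < XX m l n)
    (hL : ∀ j < n, LL m l j) (x : ℝ) (h0 : 0 < x) (h1 : x < XX m l n + l) :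
    Vt m l n (x : ℂ) ≠ 0 ∧ Vt m l n (x : ℂ) = (‖Vt m l n (x : ℂ)‖ : ℂ) *
      Complex.exp (Complex.I * ((Phi m l n x + Real.pi * m / 2 : ℝ) : ℂ)) := by
  induction n generalizing x with
  | zero =>
    have hG : Complex.Gamma ((XX m l 0 : ℝ) + (x : ℂ)) = ((Real.Gamma (XX m l 0 + x) : ℝ) : ℂ) := by
      rw [← Complex.ofReal_add, Complex.Gamma_ofReal]
    have hGpos : 0 < Real.Gamma (XX m l 0 + x) := Real.Gamma_pos_of_pos (by linarith)
    have hexp : Complex.I * (Real.pi : ℂ) * (x : ℂ) = Complex.I * ((Real.pi * x : ℝ) : ℂ) := by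
      push_cast; ring
    have hV : Vt m l 0 (x : ℂ) = Complex.exp (Complex.I * ((Real.pi * x : ℝ) : ℂ)) *
        ((Real.Gamma (XX m l 0 + x) : ℝ) : ℂ) := by
      rw [← hG, ← hexp]; rfl
    have hn : ‖Vt m l 0 (x : ℂ)‖ = Real.Gamma (XX m l 0 + x) := by
      rw [hV, norm_mul, mul_comm Complex.I, Complex.norm_exp_ofReal_mul_I, one_mul,
        Complex.norm_real, Real.norm_of_nonneg hGpos.le]
    have hPhi : Phi m l 0 x + Real.pi * m / 2 = Real.pi * x := by
      simp only [Phi]; ring
    constructor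
    · rw [← norm_pos_iff, hn]; exact hGpos
    · rw [hn, hPhi, hV]; ring
  | succ n ih =>
    have hXn : XX m l n = XX m l (n + 1) + l := by rw [XX_succ]; ring
    have hLn := hL n (Nat.lt_succ_self n)
    have hx' : x < XX m l n := by rw [hXn]; exact h1
    have hih := ih (by linarith) (fun j hj => hL j (Nat.lt_succ_of_lt hj)) (x + l) (by linarith)
      (by linarith)
    have hcast : ((x + l : ℝ) : ℂ) = (x : ℂ) + (l : ℂ) := by push_cast; rfl
    rw [hcast] at hih
    have hre := auxPhi_one_sub_re hLn x h0 hx'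
    have hne : 1 - psi m l n (x : ℂ) ≠ 0 := by
      intro h; rw [h] at hre; simp at hre
    have hV := Vt_succ_eq m l n (x : ℂ) hih.1
    refine ⟨by rw [hV]; exact mul_ne_zero hih.1 hne, ?_⟩
    have harg := Complex.norm_mul_exp_arg_mul_I (1 - psi m l n (x : ℂ))
    have hPhi : Phi m l (n + 1) x = Phi m l n (x + l) + Complex.arg (1 - psi m l n (x : ℂ)) := rfl
    rw [hV, norm_mul, hPhi]
    calc Vt m l n ((x : ℂ) + (l : ℂ)) * (1 - psi m l n (x : ℂ))
        = ((‖Vt m l n ((x : ℂ) + (l : ℂ))‖ : ℂ) *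
            Complex.exp (Complex.I * ((Phi m l n (x + l) + Real.pi * m / 2 : ℝ) : ℂ))) *
          ((‖1 - psi m l n (x : ℂ)‖ : ℂ) *
            Complex.exp ((Complex.arg (1 - psi m l n (x : ℂ)) : ℂ) * Complex.I)) := by
          rw [harg, ← hih.2]
      _ = ((‖Vt m l n ((x : ℂ) + (l : ℂ))‖ : ℂ) * (‖1 - psi m l n (x : ℂ)‖ : ℂ)) *
          (Complex.exp (Complex.I * ((Phi m l n (x + l) + Real.pi * m / 2 : ℝ) : ℂ)) *
            Complex.exp ((Complex.arg (1 - psi m l n (x : ℂ)) : ℂ) * Complex.I)) := by ring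
      _ = _ := by
          rw [← Complex.exp_add]
          push_cast
          congr 2
          ring

theorem Phi_continuousOn (m : ℕ) {l : ℝ} (hl : 0 < l) (n : ℕ) (hX : 0 < XX m l n)
    (hL : ∀ j < n, LL m l j) : ContinuousOn (Phi m l n) (Set.Ioo 0 (XX m l n + l)) := by
  induction n with
  | zero =>
    have : Continuous (Phi m l 0) := by
      show Continuous (fun x : ℝ => Real.pi * x - Real.pi * m / 2)
      fun_prop
    exact this.continuousOn
  | succ n ih =>
    have hXn : XX m l n = XX m l (n + 1) + l := by rw [XX_succ]; ring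
    have hLn := hL n (Nat.lt_succ_self n)
    have hih := ih (by linarith) (fun j hj => hL j (Nat.lt_succ_of_lt hj))
    rw [← hXn]
    show ContinuousOn (fun x : ℝ => Phi m l n (x + l) + Complex.arg (1 - psi m l n (x : ℂ))) _
    refine ContinuousOn.add ?_ ?_
    · refine ContinuousOn.comp (t := Set.Ioo 0 (XX m l n + l)) hih (by fun_prop) ?_
      intro x hx
      exact ⟨by linarith [hx.1], by linarith [hx.2]⟩
    · intro x hx
      refine ContinuousAt.continuousWithinAt ?_
      have hc := auxPhi_psi_cont m hl n (by linarith) hLn x hx.1 hx.2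
      have hre := auxPhi_one_sub_re hLn x hx.1 hx.2
      have h1 : ContinuousAt (fun y : ℝ => 1 - psi m l n (y : ℂ)) x := continuousAt_const.sub hc
      exact ContinuousAt.comp (f := fun y : ℝ => 1 - psi m l n (y : ℂ))
        (Complex.continuousAt_arg (Or.inl hre)) h1

theorem Phi_end (m : ℕ) (l : ℝ) (n : ℕ) : Phi m l n (XX m l n) = Real.pi / 2 := by
  induction n with
  | zero =>
    simp only [Phi, XX]
    push_cast
    ring
  | succ n ih =>
    have hXn : XX m l (n + 1) + l = XX m l n := by rw [XX_succ]; ring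
    show Phi m l n (XX m l (n + 1) + l) + Complex.arg (1 - psi m l n ((XX m l (n + 1) : ℝ) : ℂ)) = _
    have hpsi : psi m l n ((XX m l (n + 1) : ℝ) : ℂ) = 0 := by
      unfold psi
      have : ((XX m l n : ℝ) : ℂ) - (((XX m l (n + 1) : ℝ) : ℂ) + (l : ℂ)) = 0 := by
        rw [← hXn]; push_cast; ring
      rw [this, Complex.Gamma_zero, inv_zero, zero_mul, zero_div]
    rw [hXn, ih, hpsi]
    simp

theorem Phi_step (m : ℕ) {l : ℝ} (n : ℕ) (hL : LL m l n) (x : ℝ) (h0 : 0 < x)
    (h1 : x < XX m l n) : |Phi m l (n + 1) x - Phi m l n (x + l)| < Real.pi / 2 := by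
  have hre := auxPhi_one_sub_re hL x h0 h1
  have : Phi m l (n + 1) x - Phi m l n (x + l) = Complex.arg (1 - psi m l n (x : ℂ)) := by
    simp only [Phi]; ring
  rw [this, Complex.abs_arg_lt_pi_div_two_iff]
  exact Or.inl hre

end Pool.Agent.Helper95.CDD
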