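import Pool.Agent.Helper95.CDD.Defs
import Pool.Agent.Helper95.CDD.J1
import Pool.Agent.Helper95.CDD.J8

set_option autoImplicit false

open Polynomial

namespace Pool.Agent.Helper95.CDD

theorem auxP_Icc (N : ℕ) : Finset.Icc (-((N + 1 : ℕ) : ℤ)) ((N + 1 : ℕ) : ℤ) =
    insert (-((N + 1 : ℕ) : ℤ)) (insert ((N + 1 : ℕ) : ℤ) (Finset.Icc (-(N : ℤ)) (N : ℤ))) := by
  ext k
  simp only [Finset.mem_Icc, Finset.mem_insert]
  push_cast
  constructor
  · rintro ⟨h1, h2⟩
    by_cases h3 : k = -((N : ℤ) + 1)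
    · exact Or.inl h3
    · by_cases h4 : k = (N : ℤ) + 1
      · exact Or.inr (Or.inl h4)
      · exact Or.inr (Or.inr ⟨by omega, by omega⟩)
  · rintro (h | h | h)
    · omega
    · omega
    · omega

theorem auxP_nonint (x : ℝ) (hx : ∀ k : ℤ, x ≠ k) (N : ℕ) :
    (-1) ^ N * Real.sin (Real.pi * x) * Real.Gamma (N + 1 + x) * Real.Gamma (N + 1 - x) =
      Real.pi * ∏ k ∈ Finset.Icc (-(N : ℤ)) (N : ℤ), (x - (k : ℝ)) := by
  have hsin : Real.sin (Real.pi * x) ≠ 0 := by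
    intro h
    rw [Real.sin_eq_zero_iff] at h
    obtain ⟨k, hk⟩ := h
    have hpi := Real.pi_ne_zero
    apply hx k
    have : Real.pi * x = Real.pi * k := by rw [← hk]; ring
    exact mul_left_cancel₀ hpi this
  induction N with
  | zero =>
    have hx0 : x ≠ 0 := by simpa using hx 0
    have h1 : Real.Gamma (1 + x) = x * Real.Gamma x := by
      rw [add_comm]; exact Real.Gamma_add_one hx0
    have h2 := Real.Gamma_mul_Gamma_one_sub x
    simp only [Nat.cast_zero, pow_zero, one_mul, zero_add, neg_zero, Finset.Icc_self,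
      Finset.prod_singleton, Int.cast_zero, sub_zero]
    rw [h1]
    calc Real.sin (Real.pi * x) * (x * Real.Gamma x) * Real.Gamma (1 - x)
        = Real.sin (Real.pi * x) * x * (Real.Gamma x * Real.Gamma (1 - x)) := by ring
      _ = Real.pi * x := by rw [h2]; field_simp
  | succ N ih =>
    have h1 : Real.Gamma (((N + 1 : ℕ) : ℝ) + 1 + x) = (N + 1 + x) * Real.Gamma (N + 1 + x) := by
      have hne : (N : ℝ) + 1 + x ≠ 0 := by
        intro h
        apply hx (-((N : ℤ) + 1))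
        push_cast
        linarith
      have := Real.Gamma_add_one hne
      rw [← this]
      congr 1
      push_cast; ring
    have h2 : Real.Gamma (((N + 1 : ℕ) : ℝ) + 1 - x) = (N + 1 - x) * Real.Gamma (N + 1 - x) := by
      have hne : (N : ℝ) + 1 - x ≠ 0 := by
        intro h
        apply hx ((N : ℤ) + 1)
        push_cast
        linarith
      have := Real.Gamma_add_one hne
      rw [← this]
      congr 1
      push_cast; ring
    rw [auxP_Icc, Finset.prod_insert, Finset.prod_insert, h1, h2]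
    · calc (-1) ^ (N + 1) * Real.sin (Real.pi * x) * ((N + 1 + x) * Real.Gamma (N + 1 + x)) *
            ((N + 1 - x) * Real.Gamma (N + 1 - x))
          = -((N + 1 + x) * (N + 1 - x)) * ((-1) ^ N * Real.sin (Real.pi * x) *
            Real.Gamma (N + 1 + x) * Real.Gamma (N + 1 - x)) := by ring
        _ = -((N + 1 + x) * (N + 1 - x)) * (Real.pi *
            ∏ k ∈ Finset.Icc (-(N : ℤ)) (N : ℤ), (x - (k : ℝ))) := by rw [ih]
        _ = _ := by push_cast; ring
    · simp only [Finset.mem_Icc]; push_cast; omega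
    · simp only [Finset.mem_insert, Finset.mem_Icc]; push_cast; omega

theorem auxP_gamma (N : ℕ) (x : ℝ) (hx : |x| < N + 1) :
    (-1) ^ N * Real.sin (Real.pi * x) * Real.Gamma (N + 1 + x) * Real.Gamma (N + 1 - x) =
      Real.pi * ∏ k ∈ Finset.Icc (-(N : ℤ)) (N : ℤ), (x - (k : ℝ)) := by
  by_cases h : ∃ k : ℤ, x = k
  · obtain ⟨k, rfl⟩ := h
    have h1 : Real.sin (Real.pi * k) = 0 := by
      rw [mul_comm]; exact Real.sin_int_mul_pi k
    rw [h1]
    have hk : k ∈ Finset.Icc (-(N : ℤ)) (N : ℤ) := by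
      rw [abs_lt] at hx
      rw [Finset.mem_Icc]
      have h2 : (-((N : ℤ) + 1) : ℤ) < k := by
        have := hx.1
        exact_mod_cast this
      have h3 : k < (N : ℤ) + 1 := by
        have := hx.2
        exact_mod_cast this
      omega
    have h0 : ∏ j ∈ Finset.Icc (-(N : ℤ)) (N : ℤ), ((k : ℝ) - (j : ℝ)) = 0 :=
      Finset.prod_eq_zero hk (sub_self _)
    rw [h0]
    ring
  · push Not at h
    exact auxP_nonint x h N

theorem auxP_zero (N : ℕ) (l x : ℝ) :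
    (PP N l 0).eval x = ∏ k ∈ Finset.Icc (-(N : ℤ)) (N : ℤ), (x - (k : ℝ)) := by
  rw [PP, Polynomial.eval_prod]
  exact Finset.prod_congr rfl (fun k _ => by simp)

theorem auxP_succ (N : ℕ) (l : ℝ) (n : ℕ) (x : ℝ) :
    (PP N l (n + 1)).eval x = (PP N l n).eval (x + l) - (PP N l n).eval (x - l) := by
  rw [PP, del]
  simp [Polynomial.eval_comp]

theorem auxP_I (N : ℕ) : (Complex.I ^ (2 * N + 1))⁻¹ = (-1) ^ N * (-Complex.I) := by
  have h1 : Complex.I ^ (2 * N + 1) = (-1) ^ N * Complex.I := by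
    rw [pow_succ, pow_mul, Complex.I_sq]
  rw [h1, mul_inv, Complex.inv_I, ← inv_pow]
  norm_num

theorem auxP_X0 (N : ℕ) (l : ℝ) : XX (2 * N + 1) l 0 = N + 1 := by
  simp only [XX]
  push_cast
  ring

theorem auxP_V0 (N : ℕ) (l x : ℝ) (hx : |x| < N + 1) :
    (V (2 * N + 1) l 0 (x : ℂ) * (Complex.I ^ (2 * N + 1))⁻¹).re =
      Real.pi * ∏ k ∈ Finset.Icc (-(N : ℤ)) (N : ℤ), (x - (k : ℝ)) := by
  rw [← auxP_gamma N x hx, auxP_I]
  simp only [V]
  rw [auxP_X0]
  have h1 : ((((N : ℝ) + 1 : ℝ)) : ℂ) + (x : ℂ) = ((((N : ℝ) + 1 + x : ℝ)) : ℂ) := by push_cast; ring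
  have h2 : ((((N : ℝ) + 1 : ℝ)) : ℂ) - (x : ℂ) = ((((N : ℝ) + 1 - x : ℝ)) : ℂ) := by push_cast; ring
  have h3 : Complex.I * (Real.pi : ℂ) * (x : ℂ) = ((Real.pi * x : ℝ) : ℂ) * Complex.I := by
    push_cast; ring
  rw [h1, h2, h3, Complex.Gamma_ofReal, Complex.Gamma_ofReal, Complex.exp_mul_I,
    ← Complex.ofReal_cos, ← Complex.ofReal_sin]
  have h4 : ((Real.cos (Real.pi * x) : ℂ) + (Real.sin (Real.pi * x) : ℂ) * Complex.I) *
      (Real.Gamma (N + 1 + x) : ℂ) * (Real.Gamma (N + 1 - x) : ℂ) * ((-1) ^ N * (-Complex.I)) =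
      (((-1) ^ N * Real.sin (Real.pi * x) * Real.Gamma (N + 1 + x) * Real.Gamma (N + 1 - x) : ℝ) : ℂ)
      + ((-((-1) ^ N * Real.cos (Real.pi * x) * Real.Gamma (N + 1 + x) *
        Real.Gamma (N + 1 - x)) : ℝ) : ℂ) * Complex.I := by
    push_cast
    have hI : Complex.I * Complex.I = -1 := Complex.I_mul_I
    linear_combination (-(Complex.sin (Real.pi * x)) * (Real.Gamma (N + 1 + x) : ℂ) *
      (Real.Gamma (N + 1 - x) : ℂ) * (-1) ^ N) * hI
  rw [h4, Complex.add_re, Complex.ofReal_re, Complex.mul_re, Complex.I_re, Complex.I_im,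
    Complex.ofReal_re, Complex.ofReal_im]
  ring

theorem P_eq (N : ℕ) {l : ℝ} (hl : 0 < l) (n : ℕ) (x : ℝ) (hx : |x| < XX (2 * N + 1) l n) :
    (V (2 * N + 1) l n (x : ℂ) * (Complex.I ^ (2 * N + 1))⁻¹).re = Real.pi * (PP N l n).eval x := by
  induction n generalizing x with
  | zero =>
    rw [auxP_zero]
    rw [auxP_X0] at hx
    exact auxP_V0 N l x hx
  | succ n ih =>
    rw [XX_succ, abs_lt] at hx
    have h1 : |x + l| < XX (2 * N + 1) l n := by
      rw [abs_lt]; constructor <;> linarith [hx.1, hx.2]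
    have h2 : |x - l| < XX (2 * N + 1) l n := by
      rw [abs_lt]; constructor <;> linarith [hx.1, hx.2]
    have h3 := ih (x + l) h1
    have h4 := ih (x - l) h2
    rw [auxP_succ, mul_sub, ← h3, ← h4, ← Complex.sub_re, ← sub_mul]
    congr 2
    simp only [V]
    push_cast
    rfl

theorem auxP_Ipow (m : ℕ) : Complex.I ^ m = Complex.exp (Complex.I * ((Real.pi * m / 2 : ℝ) : ℂ)) := by
  have h1 : Complex.exp (((Real.pi / 2 : ℝ) : ℂ) * Complex.I) = Complex.I := by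
    have := Complex.exp_pi_div_two_mul_I
    push_cast
    exact this
  calc Complex.I ^ m = (Complex.exp (((Real.pi / 2 : ℝ) : ℂ) * Complex.I)) ^ m := by rw [h1]
    _ = Complex.exp ((m : ℂ) * (((Real.pi / 2 : ℝ) : ℂ) * Complex.I)) := by
      rw [← Complex.exp_nat_mul]
    _ = _ := by
      congr 1
      push_cast
      ring

theorem P_cos (N : ℕ) {l : ℝ} (hl : 0 < l) (n : ℕ) (hX : 0 < XX (2 * N + 1) l n)
    (hL : ∀ j < n, LL (2 * N + 1) l j) (x : ℝ) (h0 : 0 < x) (h1 : x < XX (2 * N + 1) l n) :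
    ∃ A : ℝ, 0 < A ∧ (PP N l n).eval x = A * Real.cos (Phi (2 * N + 1) l n x) := by
  obtain ⟨hne, hph⟩ := Vt_phase (2 * N + 1) hl n hX hL x h0 (by linarith)
  have hz : ∀ k : ℕ, (x : ℂ) ≠ ((XX (2 * N + 1) l n : ℝ) : ℂ) + k := by
    intro k hk
    have : x = XX (2 * N + 1) l n + k := by exact_mod_cast hk
    have hk0 : (0 : ℝ) ≤ k := Nat.cast_nonneg k
    linarith
  have hV := V_eq (2 * N + 1) l n (x : ℂ) hz
  have hP := P_eq N hl n x (by rw [abs_lt]; constructor <;> linarith)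
  have hG : Complex.Gamma ((XX (2 * N + 1) l n : ℝ) - (x : ℂ)) =
      (Real.Gamma (XX (2 * N + 1) l n - x) : ℂ) := by
    rw [← Complex.Gamma_ofReal]
    push_cast
    rfl
  have hGpos : 0 < Real.Gamma (XX (2 * N + 1) l n - x) := Real.Gamma_pos_of_pos (by linarith)
  have hn : 0 < ‖Vt (2 * N + 1) l n (x : ℂ)‖ := norm_pos_iff.2 hne
  refine ⟨Real.Gamma (XX (2 * N + 1) l n - x) * ‖Vt (2 * N + 1) l n (x : ℂ)‖ / Real.pi,
    by positivity, ?_⟩
  have hE : V (2 * N + 1) l n (x : ℂ) * (Complex.I ^ (2 * N + 1))⁻¹ =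
      ((Real.Gamma (XX (2 * N + 1) l n - x) * ‖Vt (2 * N + 1) l n (x : ℂ)‖ : ℝ) : ℂ) *
        Complex.exp (((Phi (2 * N + 1) l n x : ℝ) : ℂ) * Complex.I) := by
    have hI : Complex.I ^ (2 * N + 1) ≠ 0 := pow_ne_zero _ Complex.I_ne_zero
    rw [← div_eq_mul_inv, div_eq_iff hI, hV, hG]
    have h5 : Vt (2 * N + 1) l n (x : ℂ) = (‖Vt (2 * N + 1) l n (x : ℂ)‖ : ℂ) *
        (Complex.exp (((Phi (2 * N + 1) l n x : ℝ) : ℂ) * Complex.I) * Complex.I ^ (2 * N + 1)) := by
      rw [auxP_Ipow, ← Complex.exp_add]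
      conv_lhs => rw [hph]
      congr 2
      push_cast
      ring
    conv_lhs => rw [h5]
    push_cast
    ring
  rw [hE, Complex.re_ofReal_mul, Complex.exp_ofReal_mul_I_re] at hP
  have hpi := Real.pi_ne_zero
  field_simp
  linarith

end Pool.Agent.Helper95.CDD
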