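import Pool.Agent.Helper95.CDD.Defs
import Pool.Agent.Helper95.CDD.J8
import Pool.Agent.Helper95.CDD.J9
import Pool.Agent.Helper95.CDD.J10
import Pool.Agent.Helper95.CDD.J11

set_option autoImplicit false

open Polynomial

namespace Pool.Agent.Helper95.CDD

theorem auxTame_norm_eval (p : ℂ[X]) (w : ℂ) :
    ‖p.eval w‖ = ‖p.leadingCoeff‖ * (p.roots.map fun a => ‖w - a‖).prod := by
  rw [(IsAlgClosed.splits p).eval_eq_prod_roots w, norm_mul]
  congr 1
  have h := map_multiset_prod (normHom : ℂ →*₀ ℝ) (p.roots.map fun a => w - a)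
  rw [Multiset.map_map] at h
  exact h

theorem auxTame_prod_lt (s : Multiset ℂ) (f g : ℂ → ℝ) (h : ∀ a ∈ s, 0 ≤ f a ∧ f a < g a) :
    0 ≤ (s.map f).prod ∧ 0 < (s.map g).prod ∧ (s.map f).prod ≤ (s.map g).prod ∧
      (s ≠ 0 → (s.map f).prod < (s.map g).prod) := by
  induction s using Multiset.induction_on with
  | empty => simp
  | cons a s ih =>
    obtain ⟨h1, h2, h3, -⟩ := ih fun b hb => h b (Multiset.mem_cons_of_mem hb)
    obtain ⟨ha0, ha⟩ := h a (Multiset.mem_cons_self a s)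
    rw [Multiset.map_cons, Multiset.map_cons, Multiset.prod_cons, Multiset.prod_cons]
    have h4 : f a * (s.map f).prod < g a * (s.map g).prod := by
      calc f a * (s.map f).prod ≤ f a * (s.map g).prod := mul_le_mul_of_nonneg_left h3 ha0
        _ < g a * (s.map g).prod := mul_lt_mul_of_pos_right ha h2
    exact ⟨mul_nonneg ha0 h1, mul_pos (ha0.trans_lt ha) h2, h4.le, fun _ => h4⟩

theorem auxTame_mul_lt {p q P Q : ℝ} (hp : 0 ≤ p) (hq : 0 ≤ q) (hP : 0 < P) (hQ : 0 < Q)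
    (h1 : p ≤ P) (h2 : q ≤ Q) (h3 : p < P ∨ q < Q) : p * q < P * Q := by
  rcases h3 with h3 | h3
  · calc p * q ≤ p * Q := mul_le_mul_of_nonneg_left h2 hp
      _ < P * Q := mul_lt_mul_of_pos_right h3 hQ
  · calc p * q ≤ P * q := mul_le_mul_of_nonneg_right h1 hq
      _ < P * Q := mul_lt_mul_of_pos_left h3 hP

theorem auxTame_norm_lt {u v : ℂ} (h1 : u.im ^ 2 = v.im ^ 2) (h2 : u.re ^ 2 < v.re ^ 2) :
    ‖u‖ < ‖v‖ := by
  refine lt_of_pow_lt_pow_left₀ 2 (norm_nonneg _) ?_
  rw [← Complex.normSq_eq_norm_sq, ← Complex.normSq_eq_norm_sq, Complex.normSq_apply,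
    Complex.normSq_apply]
  nlinarith

theorem auxTame_norm_le {u v : ℂ} (h1 : u.im ^ 2 = v.im ^ 2) (h2 : u.re ^ 2 ≤ v.re ^ 2) :
    ‖u‖ ≤ ‖v‖ := by
  refine (sq_le_sq₀ (norm_nonneg _) (norm_nonneg _)).1 ?_
  rw [← Complex.normSq_eq_norm_sq, ← Complex.normSq_eq_norm_sq, Complex.normSq_apply,
    Complex.normSq_apply]
  nlinarith

theorem auxTame_factor {l : ℝ} (hl : 0 < l) {z a : ℂ} (hz : 0 < z.re)
    (ha : a.re = 0 ∨ (a.im = 0 ∧ |a.re| ≤ l)) :
    ‖z - (l : ℂ) + a‖ * ‖z - (l : ℂ) - a‖ < ‖z + (l : ℂ) - a‖ * ‖z + (l : ℂ) + a‖ := by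
  rcases ha with ha | ⟨ha, hal⟩
  · have h1 : ‖z - (l : ℂ) + a‖ < ‖z + (l : ℂ) + a‖ := by
      apply auxTame_norm_lt
      · simp
      · simp only [Complex.add_re, Complex.sub_re, Complex.ofReal_re, ha]
        nlinarith [mul_pos hl hz]
    have h2 : ‖z - (l : ℂ) - a‖ < ‖z + (l : ℂ) - a‖ := by
      apply auxTame_norm_lt
      · simp
      · simp only [Complex.add_re, Complex.sub_re, Complex.ofReal_re, ha]
        nlinarith [mul_pos hl hz]
    rw [mul_comm ‖z + (l : ℂ) - a‖]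
    exact auxTame_mul_lt (norm_nonneg _) (norm_nonneg _) ((norm_nonneg _).trans_lt h1)
      ((norm_nonneg _).trans_lt h2) h1.le h2.le (Or.inl h1)
  · obtain ⟨h3, h4⟩ := abs_le.1 hal
    have hP : 0 < ‖z + (l : ℂ) - a‖ := by
      refine lt_of_lt_of_le ?_ (Complex.abs_re_le_norm _)
      refine abs_pos.2 (ne_of_gt ?_)
      simp only [Complex.add_re, Complex.sub_re, Complex.ofReal_re]
      linarith
    have hQ : 0 < ‖z + (l : ℂ) + a‖ := by
      refine lt_of_lt_of_le ?_ (Complex.abs_re_le_norm _)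
      refine abs_pos.2 (ne_of_gt ?_)
      simp only [Complex.add_re, Complex.ofReal_re]
      linarith
    refine auxTame_mul_lt (norm_nonneg _) (norm_nonneg _) hP hQ ?_ ?_ ?_
    · apply auxTame_norm_le
      · simp [ha]
      · simp only [Complex.add_re, Complex.sub_re, Complex.ofReal_re]
        nlinarith [mul_nonneg hz.le (sub_nonneg.2 h4)]
    · apply auxTame_norm_le
      · simp [ha]
      · simp only [Complex.add_re, Complex.sub_re, Complex.ofReal_re]
        nlinarith [mul_nonneg hz.le (by linarith : 0 ≤ l + a.re)]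
    · rcases h4.lt_or_eq with h5 | h5
      · left
        apply auxTame_norm_lt
        · simp [ha]
        · simp only [Complex.add_re, Complex.sub_re, Complex.ofReal_re]
          nlinarith [mul_pos hz (sub_pos.2 h5)]
      · right
        apply auxTame_norm_lt
        · simp [ha]
        · simp only [Complex.add_re, Complex.sub_re, Complex.ofReal_re]
          nlinarith [mul_pos hz (by linarith : 0 < l + a.re)]

theorem auxTame_parity {P : ℝ[X]} {d : ℕ} (hpar : P.comp (-X) = (-1) ^ d * P) (w : ℂ) :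
    aeval (-w) P = (-1) ^ d * aeval w P := by
  have h1 := congrArg (aeval w) hpar
  rw [aeval_comp, map_mul, map_pow, map_neg, map_neg, map_one, aeval_X] at h1
  exact h1

theorem auxTame_norm_parity {P : ℝ[X]} {d : ℕ} (hpar : P.comp (-X) = (-1) ^ d * P) (w : ℂ) :
    ‖aeval (-w) P‖ = ‖aeval w P‖ := by
  rw [auxTame_parity hpar, norm_mul, norm_pow, norm_neg, norm_one, one_pow, one_mul]

theorem auxTame_main {l : ℝ} (hl : 0 < l) {P : ℝ[X]} (hd : 1 ≤ P.natDegree)
    (hpar : P.comp (-X) = (-1) ^ P.natDegree * P) (h : Tame l P) {z : ℂ} (hz : 0 < z.re) :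
    ‖aeval (z - (l : ℂ)) P‖ < ‖aeval (z + (l : ℂ)) P‖ := by
  let p : ℂ[X] := P.map (algebraMap ℝ ℂ)
  have hev : ∀ w : ℂ, aeval w P = p.eval w := fun w => (eval_map_algebraMap P w).symm
  have hP0 : P ≠ 0 := by
    rintro rfl
    simp at hd
  have hp0 : p ≠ 0 := (Polynomial.map_ne_zero_iff (algebraMap ℝ ℂ).injective).2 hP0
  have hdeg : p.natDegree = P.natDegree := natDegree_map_eq_of_injective
    (algebraMap ℝ ℂ).injective P
  have hcard : p.roots.card = P.natDegree := by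
    rw [← (IsAlgClosed.splits p).natDegree_eq_card_roots, hdeg]
  have hne : p.roots ≠ 0 := by
    intro h0
    rw [h0] at hcard
    simp at hcard
    omega
  have hroot : ∀ a ∈ p.roots, a.re = 0 ∨ (a.im = 0 ∧ |a.re| ≤ l) := by
    intro a ha
    apply h
    rw [hev]
    exact (mem_roots hp0).1 ha
  have hlc : 0 < ‖p.leadingCoeff‖ := norm_pos_iff.2 (leadingCoeff_ne_zero.2 hp0)
  have key := (auxTame_prod_lt p.roots (fun a => ‖z - (l : ℂ) + a‖ * ‖z - (l : ℂ) - a‖)
    (fun a => ‖z + (l : ℂ) - a‖ * ‖z + (l : ℂ) + a‖) (fun a ha =>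
      ⟨mul_nonneg (norm_nonneg _) (norm_nonneg _), auxTame_factor hl hz (hroot a ha)⟩)).2.2.2 hne
  have e1 : ‖aeval (z - (l : ℂ)) P‖ ^ 2 = ‖p.leadingCoeff‖ ^ 2 *
      (p.roots.map (fun a => ‖z - (l : ℂ) + a‖ * ‖z - (l : ℂ) - a‖)).prod := by
    have h1 : ‖aeval (z - (l : ℂ)) P‖ ^ 2 =
        ‖aeval (-(z - (l : ℂ))) P‖ * ‖aeval (z - (l : ℂ)) P‖ := by
      rw [auxTame_norm_parity hpar, sq]
    rw [h1, hev, hev, auxTame_norm_eval, auxTame_norm_eval, Multiset.prod_map_mul]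
    have h2 : (p.roots.map fun a => ‖-(z - (l : ℂ)) - a‖) =
        p.roots.map fun a => ‖z - (l : ℂ) + a‖ := by
      refine Multiset.map_congr rfl fun a _ => ?_
      rw [← norm_neg]
      congr 1
      ring
    rw [h2]
    ring
  have e2 : ‖aeval (z + (l : ℂ)) P‖ ^ 2 = ‖p.leadingCoeff‖ ^ 2 *
      (p.roots.map (fun a => ‖z + (l : ℂ) - a‖ * ‖z + (l : ℂ) + a‖)).prod := by
    have h1 : ‖aeval (z + (l : ℂ)) P‖ ^ 2 =
        ‖aeval (z + (l : ℂ)) P‖ * ‖aeval (-(z + (l : ℂ))) P‖ := by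
      rw [auxTame_norm_parity hpar, sq]
    rw [h1, hev, hev, auxTame_norm_eval, auxTame_norm_eval, Multiset.prod_map_mul]
    have h2 : (p.roots.map fun a => ‖-(z + (l : ℂ)) - a‖) =
        p.roots.map fun a => ‖z + (l : ℂ) + a‖ := by
      refine Multiset.map_congr rfl fun a _ => ?_
      rw [← norm_neg]
      congr 1
      ring
    rw [h2]
    ring
  refine lt_of_pow_lt_pow_left₀ 2 (norm_nonneg _) ?_
  rw [e1, e2]
  exact mul_lt_mul_of_pos_left key (pow_pos hlc 2)

theorem Tame.step {l : ℝ} (hl : 0 < l) {P : ℝ[X]} (hd : 1 ≤ P.natDegree)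
    (hpar : P.comp (-X) = (-1) ^ P.natDegree * P) (h : Tame l P) :
    ∀ z : ℂ, aeval z (del l P) = 0 → z.re = 0 := by
  intro z hz
  have hQ : ∀ w : ℂ, aeval w (del l P) = aeval (w + (l : ℂ)) P - aeval (w - (l : ℂ)) P := by
    intro w
    rw [del, map_sub, aeval_comp, aeval_comp]
    simp
  have hpos : ∀ w : ℂ, 0 < w.re → aeval w (del l P) ≠ 0 := by
    intro w hw h0
    rw [hQ, sub_eq_zero] at h0
    have h1 := auxTame_main hl hd hpar h hw
    rw [h0] at h1
    exact lt_irrefl _ h1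
  rcases lt_trichotomy z.re 0 with h1 | h1 | h1
  · exfalso
    refine hpos (-z) (by simpa using h1) ?_
    rw [hQ]
    have h2 : -z + (l : ℂ) = -(z - (l : ℂ)) := by ring
    have h3 : -z - (l : ℂ) = -(z + (l : ℂ)) := by ring
    rw [h2, h3, auxTame_parity hpar, auxTame_parity hpar, ← mul_sub]
    rw [hQ, sub_eq_zero] at hz
    rw [hz, sub_self, mul_zero]
  · exact h1
  · exact absurd hz (hpos z h1)

theorem AA_zero (N : ℕ) (l : ℝ) : AA N l 0 := by
  refine ⟨?_, ?_⟩
  · intro z hz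
    left
    rw [PP, map_prod, Finset.prod_eq_zero_iff] at hz
    obtain ⟨k, -, hk⟩ := hz
    rw [map_sub, aeval_X, aeval_C, sub_eq_zero] at hk
    rw [hk]
    simp
  · intro x h0 h1 _
    have hX : x < N + 1 := by
      have : XX (2 * N + 1) l 0 = (N : ℝ) + 1 := by
        unfold XX; push_cast; ring
      rwa [this] at h1
    have hroots : (PP N l 0).roots =
        (Finset.Icc (-(N : ℤ)) (N : ℤ)).val.map (fun k : ℤ => (k : ℝ)) := by
      have h2 : PP N l 0 = (((Finset.Icc (-(N : ℤ)) (N : ℤ)).val.map (fun k : ℤ => (k : ℝ))).map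
          (fun a => (X - C a : ℝ[X]))).prod := by
        rw [Multiset.map_map]
        rfl
      rw [h2, roots_multiset_prod_X_sub_C]
    rw [hroots, Multiset.filter_map, Multiset.card_map]
    have hfl : ⌊Phi (2 * N + 1) l 0 x / Real.pi + 1 / 2⌋ = ⌊x⌋ - N := by
      have h2 : Phi (2 * N + 1) l 0 x / Real.pi + 1 / 2 = x - N := by
        unfold Phi
        have := Real.pi_ne_zero
        field_simp
        push_cast
        ring
      rw [h2, Int.floor_sub_natCast]
    rw [hfl]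
    have h3 : (Finset.Icc (-(N : ℤ)) (N : ℤ)).filter (fun k : ℤ => x < (k : ℝ)) =
        Finset.Ioc ⌊x⌋ (N : ℤ) := by
      ext k
      have h4 : 0 ≤ ⌊x⌋ := Int.floor_nonneg.2 h0.le
      rw [Finset.mem_filter, Finset.mem_Icc, Finset.mem_Ioc, ← Int.floor_lt]
      constructor
      · rintro ⟨⟨_, h5⟩, h6⟩
        exact ⟨h6, h5⟩
      · rintro ⟨h5, h6⟩
        exact ⟨⟨by omega, h6⟩, h5⟩
    have h4 : (Multiset.filter ((fun r : ℝ => x < r) ∘ fun k : ℤ => (k : ℝ))
        (Finset.Icc (-(N : ℤ)) (N : ℤ)).val).card = (Finset.Ioc ⌊x⌋ (N : ℤ)).card := by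
      rw [← h3]
      rfl
    rw [h4, Int.card_Ioc]
    have h5 : ⌊x⌋ ≤ N := by
      have : ⌊x⌋ < (N : ℤ) + 1 := Int.floor_lt.2 (by push_cast; exact hX)
      omega
    rw [Int.toNat_of_nonneg (by omega)]
    ring

theorem AA_tame (N : ℕ) {l : ℝ} (hl : 0 < l) (n : ℕ) (hn : n ≤ 2 * N + 1)
    (hX : 0 < XX (2 * N + 1) l n) (hXl : XX (2 * N + 1) l n ≤ l)
    (hL : ∀ j < n, LL (2 * N + 1) l j) (h : AA N l n) : Tame l (PP N l n) := by
  obtain ⟨hgood, hcount⟩ := h
  obtain ⟨-, -, hlc, hpar⟩ := PP_facts N hl n hn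
  have hP0 : PP N l n ≠ 0 := by
    intro h0
    rw [h0] at hlc
    simp at hlc
  obtain ⟨Y, hY⟩ : ∃ Y, Y = XX (2 * N + 1) l n := ⟨_, rfl⟩
  rw [← hY] at hX hXl
  have hcont := Phi_continuousOn (2 * N + 1) hl n (by rw [← hY]; exact hX) hL
  have hend := Phi_end (2 * N + 1) l n
  rw [← hY] at hcont hend
  have hca : ContinuousAt (Phi (2 * N + 1) l n) Y :=
    hcont.continuousAt (Ioo_mem_nhds hX (by linarith))
  have hev : ∀ᶠ x in nhds Y, 0 < Phi (2 * N + 1) l n x ∧ Phi (2 * N + 1) l n x < Real.pi ∧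
      0 < x := by
    have hpi := Real.pi_pos
    have h1 : ∀ᶠ x in nhds Y, 0 < Phi (2 * N + 1) l n x :=
      hca.eventually (lt_mem_nhds (by rw [hend]; linarith))
    have h2 : ∀ᶠ x in nhds Y, Phi (2 * N + 1) l n x < Real.pi :=
      hca.eventually (gt_mem_nhds (by rw [hend]; linarith))
    exact h1.and (h2.and (lt_mem_nhds hX))
  obtain ⟨δ, hδ, hball⟩ := Metric.eventually_nhds_iff.1 hev
  -- no real root at or beyond `Y`
  have hno : ∀ r, (PP N l n).eval r = 0 → r < Y := by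
    intro r hr
    by_contra hcon
    push Not at hcon
    obtain ⟨x, hx, hxr⟩ := (Set.Ioo_infinite (show Y - δ < Y by linarith)).exists_notMem_finset
      (PP N l n).roots.toFinset
    have hx0 : (PP N l n).eval x ≠ 0 := by
      intro h0
      apply hxr
      rw [Multiset.mem_toFinset, mem_roots hP0]
      exact h0
    have hxb := hball (y := x) (by
      rw [Real.dist_eq, abs_lt]
      constructor
      · linarith [hx.1]
      · linarith [hx.2])
    have hc := hcount x hxb.2.2 (by rw [← hY]; exact hx.2) hx0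
    have hfl : 0 ≤ ⌊Phi (2 * N + 1) l n x / Real.pi + 1 / 2⌋ := by
      apply Int.floor_nonneg.2
      have h1 : 0 < Phi (2 * N + 1) l n x / Real.pi := div_pos hxb.1 Real.pi_pos
      linarith
    have hmem : r ∈ (PP N l n).roots.filter (fun r => x < r) := by
      rw [Multiset.mem_filter, mem_roots hP0]
      exact ⟨hr, lt_of_lt_of_le hx.2 hcon⟩
    have hpos : 0 < ((PP N l n).roots.filter (fun r => x < r)).card :=
      Multiset.card_pos_iff_exists_mem.2 ⟨r, hmem⟩
    omega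
  intro z hz
  rcases hgood z hz with him | hre
  · right
    refine ⟨him, ?_⟩
    have hzr : z = ((z.re : ℝ) : ℂ) := Complex.ext rfl (by simp [him])
    have h1 : (PP N l n).eval z.re = 0 := by
      rw [hzr] at hz
      have h2 := Polynomial.aeval_algebraMap_apply (A := ℝ) ℂ z.re (PP N l n)
      have h3 : (algebraMap ℝ ℂ) z.re = ((z.re : ℝ) : ℂ) := rfl
      rw [h3, hz] at h2
      have h4 : (aeval z.re) (PP N l n) = (PP N l n).eval z.re := by
        rw [← Polynomial.coe_aeval_eq_eval]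
      rw [h4] at h2
      have h5 : (((PP N l n).eval z.re : ℝ) : ℂ) = 0 := h2.symm
      exact_mod_cast h5
    have h2 : (PP N l n).eval (-z.re) = 0 := by
      have h3 := congrArg (Polynomial.eval z.re) hpar
      rw [eval_comp, eval_mul, h1, mul_zero, eval_neg, eval_X] at h3
      exact h3
    have h3 := hno _ h1
    have h4 := hno _ h2
    rw [abs_le]
    constructor <;> linarith
  · exact Or.inl hre

end Pool.Agent.Helper95.CDD
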