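import Pool.Agent.Helper95.CDD.Defs
import Pool.Agent.Helper95.CDD.J1

set_option autoImplicit false

open Polynomial

namespace Pool.Agent.Helper95.CDD

theorem auxB_exp_add (z : ℂ) : Complex.exp (Complex.I * (Real.pi : ℂ) * (z + 1 / 2)) =
    Complex.exp (Complex.I * (Real.pi : ℂ) * z) * Complex.I := by
  have e : Complex.I * (Real.pi : ℂ) * (z + 1 / 2) =
      Complex.I * (Real.pi : ℂ) * z + (Real.pi : ℂ) / 2 * Complex.I := by ring
  rw [e, Complex.exp_add, Complex.exp_pi_div_two_mul_I]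

theorem auxB_exp_sub (z : ℂ) : Complex.exp (Complex.I * (Real.pi : ℂ) * (z - 1 / 2)) =
    -(Complex.exp (Complex.I * (Real.pi : ℂ) * z) * Complex.I) := by
  have h := auxB_exp_add (z - 1 / 2)
  rw [sub_add_cancel] at h
  rw [h]
  have := Complex.I_mul_I
  linear_combination (Complex.exp (Complex.I * (Real.pi : ℂ) * (z - 1 / 2))) * this

theorem auxB_ne {z : ℂ} (hz : z.im ≠ 0) (m : ℕ) : ((m : ℂ) + 1) / 2 + z ≠ 0 := by
  intro h
  have h2 := congrArg Complex.im h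
  have e : (((m : ℂ) + 1) / 2).im = 0 := by
    have : ((m : ℂ) + 1) / 2 = (((m : ℝ) + 1) / 2 : ℝ) := by push_cast; ring
    rw [this, Complex.ofReal_im]
  rw [Complex.add_im, e] at h2
  simp at h2
  exact hz h2

theorem auxB_ne' {z : ℂ} (hz : z.im ≠ 0) (m : ℕ) : ((m : ℂ) + 1) / 2 - z ≠ 0 := by
  have := auxB_ne (z := -z) (by simpa using hz) m
  rwa [← sub_eq_add_neg] at this

theorem V_half_zero (m : ℕ) (l : ℝ) (z : ℂ) (hz : z.im ≠ 0) :
    V (m + 1) l 0 (z + 1 / 2) = Complex.I * ((z + ((m : ℂ) + 1) / 2) * V m l 0 z) ∧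
    V (m + 1) l 0 (z - 1 / 2) = Complex.I * ((z - ((m : ℂ) + 1) / 2) * V m l 0 z) := by
  have hX : ((XX m l 0 : ℝ) : ℂ) = ((m : ℂ) + 1) / 2 := by
    unfold XX; push_cast; ring
  have hX' : ((XX (m + 1) l 0 : ℝ) : ℂ) = ((m : ℂ) + 1) / 2 + 1 / 2 := by
    unfold XX; push_cast; ring
  constructor
  · show Complex.exp (Complex.I * (Real.pi : ℂ) * (z + 1 / 2)) *
      Complex.Gamma ((XX (m + 1) l 0 : ℝ) + (z + 1 / 2)) *
      Complex.Gamma ((XX (m + 1) l 0 : ℝ) - (z + 1 / 2)) = Complex.I * ((z + ((m : ℂ) + 1) / 2) *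
      (Complex.exp (Complex.I * (Real.pi : ℂ) * z) * Complex.Gamma ((XX m l 0 : ℝ) + z) *
      Complex.Gamma ((XX m l 0 : ℝ) - z)))
    rw [hX, hX', auxB_exp_add]
    have e1 : ((m : ℂ) + 1) / 2 + 1 / 2 + (z + 1 / 2) = (((m : ℂ) + 1) / 2 + z) + 1 := by ring
    have e2 : ((m : ℂ) + 1) / 2 + 1 / 2 - (z + 1 / 2) = ((m : ℂ) + 1) / 2 - z := by ring
    rw [e1, e2, Complex.Gamma_add_one _ (auxB_ne hz m)]
    ring
  · show Complex.exp (Complex.I * (Real.pi : ℂ) * (z - 1 / 2)) *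
      Complex.Gamma ((XX (m + 1) l 0 : ℝ) + (z - 1 / 2)) *
      Complex.Gamma ((XX (m + 1) l 0 : ℝ) - (z - 1 / 2)) = Complex.I * ((z - ((m : ℂ) + 1) / 2) *
      (Complex.exp (Complex.I * (Real.pi : ℂ) * z) * Complex.Gamma ((XX m l 0 : ℝ) + z) *
      Complex.Gamma ((XX m l 0 : ℝ) - z)))
    rw [hX, hX', auxB_exp_sub]
    have e1 : ((m : ℂ) + 1) / 2 + 1 / 2 + (z - 1 / 2) = ((m : ℂ) + 1) / 2 + z := by ring
    have e2 : ((m : ℂ) + 1) / 2 + 1 / 2 - (z - 1 / 2) = (((m : ℂ) + 1) / 2 - z) + 1 := by ring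
    rw [e1, e2, Complex.Gamma_add_one _ (auxB_ne' hz m)]
    ring

theorem auxB_V_succ (m : ℕ) (l : ℝ) (n : ℕ) (z : ℂ) :
    V m l (n + 1) z = V m l n (z + (l : ℂ)) - V m l n (z - (l : ℂ)) := rfl

theorem V_half_succ (m : ℕ) (l : ℝ) (n : ℕ) (z : ℂ) (hz : z.im ≠ 0) :
    V (m + 1) l (n + 1) (z + 1 / 2) = Complex.I * ((z + ((m : ℂ) + 1) / 2) * V m l (n + 1) z +
      ((n : ℂ) + 1) * (l : ℂ) * (V m l n (z + (l : ℂ)) + V m l n (z - (l : ℂ)))) ∧
    V (m + 1) l (n + 1) (z - 1 / 2) = Complex.I * ((z - ((m : ℂ) + 1) / 2) * V m l (n + 1) z +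
      ((n : ℂ) + 1) * (l : ℂ) * (V m l n (z + (l : ℂ)) + V m l n (z - (l : ℂ)))) := by
  induction n generalizing z with
  | zero =>
    have hp : (z + (l : ℂ)).im ≠ 0 := by simpa using hz
    have hm : (z - (l : ℂ)).im ≠ 0 := by simpa using hz
    obtain ⟨p1, p2⟩ := V_half_zero m l _ hp
    obtain ⟨q1, q2⟩ := V_half_zero m l _ hm
    constructor
    · rw [auxB_V_succ (m + 1), auxB_V_succ m, add_right_comm z (1 / 2) (l : ℂ),
        add_sub_right_comm z (1 / 2) (l : ℂ), p1, q1]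
      push_cast
      ring
    · rw [auxB_V_succ (m + 1), auxB_V_succ m, sub_add_eq_add_sub z (1 / 2) (l : ℂ),
        sub_right_comm z (1 / 2) (l : ℂ), p2, q2]
      push_cast
      ring
  | succ n ih =>
    have hp : (z + (l : ℂ)).im ≠ 0 := by simpa using hz
    have hm : (z - (l : ℂ)).im ≠ 0 := by simpa using hz
    obtain ⟨p1, p2⟩ := ih _ hp
    obtain ⟨q1, q2⟩ := ih _ hm
    rw [add_sub_cancel_right] at p1 p2
    rw [sub_add_cancel] at q1 q2
    have hA : V m l (n + 1) (z + (l : ℂ)) = V m l n (z + (l : ℂ) + (l : ℂ)) - V m l n z := by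
      rw [auxB_V_succ, add_sub_cancel_right]
    have hB : V m l (n + 1) (z - (l : ℂ)) = V m l n z - V m l n (z - (l : ℂ) - (l : ℂ)) := by
      rw [auxB_V_succ, sub_add_cancel]
    constructor
    · rw [auxB_V_succ (m + 1), auxB_V_succ m (n := n + 1), add_right_comm z (1 / 2) (l : ℂ),
        add_sub_right_comm z (1 / 2) (l : ℂ), p1, q1]
      rw [hA, hB]
      push_cast
      ring
    · rw [auxB_V_succ (m + 1), auxB_V_succ m (n := n + 1), sub_add_eq_add_sub z (1 / 2) (l : ℂ),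
        sub_right_comm z (1 / 2) (l : ℂ), p2, q2]
      rw [hA, hB]
      push_cast
      ring

theorem H_zero (m : ℕ) (l : ℝ) (z : ℂ) (hz : z.im ≠ 0) (h0 : 0 ≤ z.re) :
    ‖V (m + 1) l 0 (z - 1 / 2)‖ ≤ ‖V (m + 1) l 0 (z + 1 / 2)‖ := by
  obtain ⟨h1, h2⟩ := V_half_zero m l z hz
  rw [h1, h2, norm_mul, norm_mul, norm_mul, norm_mul]
  have e : ((m : ℂ) + 1) / 2 = (((m : ℝ) + 1) / 2 : ℝ) := by push_cast; ring
  have h3 : ‖z - ((m : ℂ) + 1) / 2‖ ≤ ‖z + ((m : ℂ) + 1) / 2‖ := by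
    rw [← abs_of_nonneg (norm_nonneg (z - ((m : ℂ) + 1) / 2)),
      ← abs_of_nonneg (norm_nonneg (z + ((m : ℂ) + 1) / 2)), ← sq_le_sq, e, Complex.sq_norm,
      Complex.sq_norm, Complex.normSq_apply, Complex.normSq_apply]
    simp only [Complex.sub_re, Complex.sub_im, Complex.add_re, Complex.add_im, Complex.ofReal_re,
      Complex.ofReal_im]
    have h4 : 0 ≤ ((m : ℝ) + 1) / 2 := by positivity
    nlinarith [mul_nonneg h0 h4]
  gcongr

theorem auxB_alg {α c : ℝ} (hα : 0 ≤ α) (hc : 0 ≤ c) {z a b : ℂ} (hz : 0 ≤ z.re)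
    (hab : ‖b‖ ≤ ‖a‖) : ‖(z - (α : ℂ)) * (a - b) + (c : ℂ) * (a + b)‖ ≤
      ‖(z + (α : ℂ)) * (a - b) + (c : ℂ) * (a + b)‖ := by
  have hab2 : b.re * b.re + b.im * b.im ≤ a.re * a.re + a.im * a.im := by
    rw [← Complex.normSq_apply, ← Complex.normSq_apply, ← Complex.sq_norm, ← Complex.sq_norm]
    gcongr
  rw [← abs_of_nonneg (norm_nonneg ((z - (α : ℂ)) * (a - b) + (c : ℂ) * (a + b))),
    ← abs_of_nonneg (norm_nonneg ((z + (α : ℂ)) * (a - b) + (c : ℂ) * (a + b))), ← sq_le_sq,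
    Complex.sq_norm, Complex.sq_norm, Complex.normSq_apply, Complex.normSq_apply]
  simp only [Complex.sub_re, Complex.sub_im, Complex.add_re, Complex.add_im, Complex.mul_re,
    Complex.mul_im, Complex.ofReal_re, Complex.ofReal_im]
  rw [← sub_nonneg]
  have key : 0 ≤ 4 * α * (z.re * ((a.re - b.re) ^ 2 + (a.im - b.im) ^ 2) +
      c * (a.re * a.re + a.im * a.im - (b.re * b.re + b.im * b.im))) := by
    have h1 : 0 ≤ a.re * a.re + a.im * a.im - (b.re * b.re + b.im * b.im) := by linarith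
    positivity
  refine key.trans (le_of_eq ?_)
  ring

theorem auxB_open (m : ℕ) {l : ℝ} (hl : 0 < l) (n : ℕ) (h : LL m l n) (z : ℂ)
    (hz : z.im ≠ 0) (h0 : 0 < z.re) (h1 : z.re < XX m l n) :
    ‖V (m + 1) l (n + 1) (z - 1 / 2)‖ ≤ ‖V (m + 1) l (n + 1) (z + 1 / 2)‖ := by
  obtain ⟨e1, e2⟩ := V_half_succ m l n z hz
  obtain ⟨h2, h3⟩ := h z h0 h1
  rw [e1, e2, norm_mul, norm_mul, auxB_V_succ m]
  have him : ((XX m l n : ℝ) - (z + (l : ℂ)) : ℂ).im ≠ 0 := by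
    simpa using hz
  have hG : Complex.Gamma ((XX m l n : ℝ) - (z + (l : ℂ))) ≠ 0 := by
    apply Complex.Gamma_ne_zero
    intro k hk
    rw [hk] at him
    simp at him
  have hV := V_eq m l n (z + (l : ℂ)) (by
    intro k hk
    have := congrArg Complex.im hk
    simp at this
    exact hz this)
  have hab : ‖V m l n (z - (l : ℂ))‖ ≤ ‖V m l n (z + (l : ℂ))‖ := by
    unfold psi at h3
    rw [norm_div, norm_mul, norm_inv, div_lt_one (norm_pos_iff.2 h2),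
      inv_mul_lt_iff₀ (norm_pos_iff.2 hG), ← norm_mul, ← hV] at h3
    exact h3.le
  have h4 := auxB_alg (α := ((m : ℝ) + 1) / 2) (c := ((n : ℝ) + 1) * l) (by positivity)
    (by positivity) h0.le hab
  have f1 : ((((m : ℝ) + 1) / 2 : ℝ) : ℂ) = ((m : ℂ) + 1) / 2 := by push_cast; ring
  have f2 : ((((n : ℝ) + 1) * l : ℝ) : ℂ) = ((n : ℂ) + 1) * (l : ℂ) := by push_cast; ring
  rw [f1, f2] at h4
  gcongr

theorem H_succ (m : ℕ) {l : ℝ} (hl : 0 < l) (n : ℕ) (hX : l < XX m l n) (h : LL m l n) (z : ℂ)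
    (hz : z.im ≠ 0) (h0 : 0 ≤ z.re) (h1 : z.re ≤ XX m l n) :
    ‖V (m + 1) l (n + 1) (z - 1 / 2)‖ ≤ ‖V (m + 1) l (n + 1) (z + 1 / 2)‖ := by
  have hcont : ∀ s : ℂ, s.im = 0 → Continuous fun t : ℝ =>
      ‖V (m + 1) l (n + 1) (((t : ℂ) + (z.im : ℂ) * Complex.I) + s)‖ := by
    intro s hs
    apply Continuous.norm
    rw [continuous_iff_continuousAt]
    intro t
    have h2 : ContinuousAt (V (m + 1) l (n + 1)) (((t : ℂ) + (z.im : ℂ) * Complex.I) + s) := by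
      apply (V_differentiableAt (m + 1) hl (n + 1) _ (Or.inl ?_)).continuousAt
      simpa [hs] using hz
    have h3 : Continuous fun t : ℝ => ((t : ℂ) + (z.im : ℂ) * Complex.I) + s := by fun_prop
    exact ContinuousAt.comp (f := fun t : ℝ => ((t : ℂ) + (z.im : ℂ) * Complex.I) + s) h2
      h3.continuousAt
  have hXpos : 0 < XX m l n := lt_trans hl hX
  have hcl : z.re ∈ closure (Set.Ioo 0 (XX m l n)) := by
    rw [closure_Ioo hXpos.ne]
    exact ⟨h0, h1⟩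
  have h2 := ContinuousWithinAt.closure_le hcl
    (hcont (-(1 / 2)) (by simp)).continuousWithinAt
    (hcont (1 / 2) (by simp)).continuousWithinAt (by
      intro t ht
      have h3 := auxB_open m hl n h ((t : ℂ) + (z.im : ℂ) * Complex.I) (by simpa using hz)
        (by simpa using ht.1) (by simpa using ht.2)
      rw [← sub_eq_add_neg]
      exact h3)
  rw [Complex.re_add_im, ← sub_eq_add_neg] at h2
  exact h2

end Pool.Agent.Helper95.CDD
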