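import Pool.Agent.Helper95.CDD.Defs

set_option autoImplicit false

open Polynomial

namespace Pool.Agent.Helper95.CDD

theorem pm_monic (m : ℕ) : (pm m).Monic ∧ (pm m).natDegree = m := by
  refine ⟨monic_prod_of_monic _ _ (fun j _ => monic_X_add_C _), ?_⟩
  rw [pm, natDegree_prod_of_monic _ _ (fun j _ => monic_X_add_C _)]
  simp only [natDegree_X_add_C, Finset.sum_const, Finset.card_range, smul_eq_mul, mul_one]

theorem poly_bound (Q : ℂ[X]) : ∃ K : ℝ, ∃ k : ℕ, 0 < K ∧ ∀ z : ℂ, ‖Q.eval z‖ ≤ K * (1 + ‖z‖) ^ k := by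
  induction Q using Polynomial.induction_on' with
  | add p q hp hq =>
    obtain ⟨K1, k1, h1, hb1⟩ := hp
    obtain ⟨K2, k2, h2, hb2⟩ := hq
    refine ⟨K1 + K2, max k1 k2, by positivity, fun z => ?_⟩
    have hz : 1 ≤ 1 + ‖z‖ := by linarith [norm_nonneg z]
    have e1 : (1 + ‖z‖) ^ k1 ≤ (1 + ‖z‖) ^ (max k1 k2) := pow_le_pow_right₀ hz (le_max_left _ _)
    have e2 : (1 + ‖z‖) ^ k2 ≤ (1 + ‖z‖) ^ (max k1 k2) := pow_le_pow_right₀ hz (le_max_right _ _)
    rw [eval_add]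
    calc ‖p.eval z + q.eval z‖ ≤ ‖p.eval z‖ + ‖q.eval z‖ := norm_add_le _ _
      _ ≤ K1 * (1 + ‖z‖) ^ k1 + K2 * (1 + ‖z‖) ^ k2 := add_le_add (hb1 z) (hb2 z)
      _ ≤ K1 * (1 + ‖z‖) ^ (max k1 k2) + K2 * (1 + ‖z‖) ^ (max k1 k2) :=
        add_le_add (mul_le_mul_of_nonneg_left e1 h1.le) (mul_le_mul_of_nonneg_left e2 h2.le)
      _ = _ := by ring
  | monomial n a =>
    refine ⟨‖a‖ + 1, n, by positivity, fun z => ?_⟩
    rw [eval_monomial, norm_mul, norm_pow]
    have e1 : ‖z‖ ^ n ≤ (1 + ‖z‖) ^ n := pow_le_pow_left₀ (norm_nonneg z) (by linarith) n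
    calc ‖a‖ * ‖z‖ ^ n ≤ (‖a‖ + 1) * ‖z‖ ^ n :=
          mul_le_mul_of_nonneg_right (by linarith) (by positivity)
      _ ≤ _ := mul_le_mul_of_nonneg_left e1 (by positivity)

theorem auxCa_gamma (w : ℂ) (hw : w.im ≠ 0) (n : ℕ) :
    Complex.Gamma (w + n) = (∏ j ∈ Finset.range n, (w + j)) * Complex.Gamma w := by
  induction n with
  | zero => simp
  | succ n ih =>
    have hne : w + (n : ℂ) ≠ 0 := by
      intro h
      apply hw
      have := congrArg Complex.im h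
      simpa using this
    rw [Finset.prod_range_succ, Nat.cast_succ, ← add_assoc, Complex.Gamma_add_one _ hne, ih]
    ring

theorem auxCa_expI : Complex.exp ((Real.pi : ℂ) / 2 * Complex.I) = Complex.I := by
  rw [Complex.exp_mul_I, Complex.cos_pi_div_two, Complex.sin_pi_div_two]
  ring

theorem auxCa_sin (m : ℕ) (z w : ℂ) (hw : w = z - ((m : ℂ) - 1) / 2) :
    Complex.exp (Complex.I * (Real.pi : ℂ) * z) *
      (1 + (-1) ^ m * Complex.exp (-(2 * (Real.pi : ℂ) * Complex.I * z))) =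
      2 * Complex.I ^ m * Complex.sin ((Real.pi : ℂ) * w) := by
  obtain ⟨A, hA⟩ : ∃ A, A = Complex.exp (Complex.I * (Real.pi : ℂ) * z) := ⟨_, rfl⟩
  obtain ⟨B, hB⟩ : ∃ B, B = Complex.exp (-(Complex.I * (Real.pi : ℂ) * z)) := ⟨_, rfl⟩
  have hAB : A * B = 1 := by rw [hA, hB, ← Complex.exp_add]; simp
  have hBB : Complex.exp (-(2 * (Real.pi : ℂ) * Complex.I * z)) = B * B := by
    rw [hB, ← Complex.exp_add]; congr 1; ring
  have hIm : Complex.I ^ m = Complex.exp ((m : ℂ) * ((Real.pi : ℂ) / 2 * Complex.I)) := by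
    rw [Complex.exp_nat_mul, auxCa_expI]
  have h1 : Complex.exp ((Real.pi : ℂ) * w * Complex.I) * Complex.I ^ m = A * Complex.I := by
    have : A * Complex.I = A * Complex.exp ((Real.pi : ℂ) / 2 * Complex.I) := by rw [auxCa_expI]
    rw [this, hIm, ← Complex.exp_add, hA, ← Complex.exp_add, hw]
    congr 1
    ring
  have h2 : Complex.exp (-((Real.pi : ℂ) * w) * Complex.I) * Complex.I = B * Complex.I ^ m := by
    rw [hIm, hB, ← Complex.exp_add]
    have : Complex.exp (-((Real.pi : ℂ) * w) * Complex.I) * Complex.I =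
        Complex.exp (-((Real.pi : ℂ) * w) * Complex.I) *
          Complex.exp ((Real.pi : ℂ) / 2 * Complex.I) := by rw [auxCa_expI]
    rw [this, ← Complex.exp_add, hw]
    congr 1
    ring
  have h3 : (Complex.I ^ m) * (Complex.I ^ m) = (-1) ^ m := by
    rw [← mul_pow, Complex.I_mul_I]
  rw [← hA, hBB, Complex.sin]
  have h4 : 2 * Complex.I ^ m * ((Complex.exp (-((Real.pi : ℂ) * w) * Complex.I) -
      Complex.exp ((Real.pi : ℂ) * w * Complex.I)) * Complex.I / 2) =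
      Complex.I ^ m * (Complex.exp (-((Real.pi : ℂ) * w) * Complex.I) * Complex.I) -
      Complex.I * (Complex.exp ((Real.pi : ℂ) * w * Complex.I) * Complex.I ^ m) := by ring
  rw [h4, h1, h2]
  have h5 : Complex.I * (A * Complex.I) = -A := by
    linear_combination A * Complex.I_mul_I
  have h6 : Complex.I ^ m * (B * Complex.I ^ m) = B * (-1) ^ m := by rw [← h3]; ring
  rw [h5, h6]
  linear_combination ((-1) ^ m * B) * hAB

theorem V_zero_formula (m : ℕ) (l : ℝ) (z : ℂ) (hz : z.im ≠ 0) :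
    V m l 0 z * (1 + (-1) ^ m * Complex.exp (-(2 * (Real.pi : ℂ) * Complex.I * z))) =
      2 * (Real.pi : ℂ) * Complex.I ^ m * (pm m).eval z := by
  obtain ⟨w, hw⟩ : ∃ w : ℂ, w = z - ((m : ℂ) - 1) / 2 := ⟨_, rfl⟩
  have him : w.im ≠ 0 := by
    rw [hw]
    have : (((m : ℂ) - 1) / 2).im = 0 := by
      have h : ((m : ℂ) - 1) / 2 = (((m : ℝ) - 1) / 2 : ℝ) := by push_cast; ring
      rw [h, Complex.ofReal_im]
    rw [Complex.sub_im, this, sub_zero]
    exact hz
  have hX : ((XX m l 0 : ℝ) : ℂ) = ((m : ℂ) + 1) / 2 := by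
    unfold XX; push_cast; ring
  have e1 : ((XX m l 0 : ℝ) : ℂ) + z = w + m := by rw [hX, hw]; ring
  have e2 : ((XX m l 0 : ℝ) : ℂ) - z = 1 - w := by rw [hX, hw]; ring
  have hV : V m l 0 z = Complex.exp (Complex.I * (Real.pi : ℂ) * z) *
      Complex.Gamma (w + m) * Complex.Gamma (1 - w) := by
    rw [V, e1, e2]
  have hP : (pm m).eval z = ∏ j ∈ Finset.range m, (w + j) := by
    rw [pm, eval_prod]
    apply Finset.prod_congr rfl
    intro j _
    rw [eval_add, eval_X, eval_C, hw]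
    ring
  have hsin : Complex.sin ((Real.pi : ℂ) * w) ≠ 0 := by
    intro h
    obtain ⟨k, hk⟩ := Complex.sin_eq_zero_iff.1 h
    apply him
    have hpi : (Real.pi : ℂ) ≠ 0 := by exact_mod_cast Real.pi_ne_zero
    have : w = (k : ℂ) := by
      apply mul_left_cancel₀ hpi
      rw [hk]; ring
    rw [this]
    exact Complex.intCast_im k
  have hg := Complex.Gamma_mul_Gamma_one_sub w
  have hs := auxCa_sin m z w hw
  rw [hV, auxCa_gamma w him m, ← hP]
  calc Complex.exp (Complex.I * (Real.pi : ℂ) * z) * ((pm m).eval z * Complex.Gamma w) *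
        Complex.Gamma (1 - w) *
        (1 + (-1) ^ m * Complex.exp (-(2 * (Real.pi : ℂ) * Complex.I * z)))
      = (pm m).eval z * (Complex.Gamma w * Complex.Gamma (1 - w)) *
        (Complex.exp (Complex.I * (Real.pi : ℂ) * z) *
          (1 + (-1) ^ m * Complex.exp (-(2 * (Real.pi : ℂ) * Complex.I * z)))) := by ring
    _ = _ := by
        rw [hg, hs]
        field_simp

theorem auxCa_est {f c q Q : ℂ} (h : f * (1 + c * q) = Q) (hc : ‖c‖ = 1) (hq : ‖q‖ ≤ 1 / 2) :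
    ‖f - Q‖ ≤ 2 * ‖Q‖ * ‖q‖ := by
  have h1 : 1 / 2 ≤ ‖1 + c * q‖ := by
    have h2 := norm_sub_norm_le (1 : ℂ) (-(c * q))
    rw [sub_neg_eq_add, norm_neg, norm_mul, hc, one_mul, norm_one] at h2
    linarith
  have h2 : ‖f‖ * ‖1 + c * q‖ = ‖Q‖ := by rw [← norm_mul, h]
  have h3 : ‖f‖ ≤ 2 * ‖Q‖ := by
    have := norm_nonneg f
    nlinarith
  have h4 : f - Q = -(c * q * f) := by rw [← h]; ring
  rw [h4, norm_neg, norm_mul, norm_mul, hc, one_mul, mul_comm]
  exact mul_le_mul_of_nonneg_right h3 (norm_nonneg q)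

theorem auxCa_small {t : ℝ} (ht : 1 ≤ t) : Real.exp (-(2 * Real.pi * t)) ≤ 1 / 2 ∧
    Real.exp (-(2 * Real.pi * t)) ≤ Real.exp (-t) := by
  have hpi := Real.pi_gt_three
  have h1 : 1 + 2 * Real.pi * t ≤ Real.exp (2 * Real.pi * t) := by
    linarith [Real.add_one_le_exp (2 * Real.pi * t)]
  have h0 : 1 ≤ 2 * Real.pi * t := by nlinarith
  constructor
  · rw [Real.exp_neg, one_div]
    apply inv_anti₀ (by norm_num)
    linarith
  · apply Real.exp_le_exp.2
    nlinarith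

theorem auxCa_norm_c (m : ℕ) : ‖((-1 : ℂ)) ^ m‖ = 1 := by
  rw [norm_pow, norm_neg, norm_one, one_pow]

theorem asy_low (m : ℕ) (l : ℝ) :
    Asy (-1) (V m l 0) (C (2 * (Real.pi : ℂ) * Complex.I ^ m) * pm m) := by
  obtain ⟨K, k, hK, hb⟩ := poly_bound (C (2 * (Real.pi : ℂ) * Complex.I ^ m) * pm m)
  refine ⟨2 * K, k, by positivity, fun z hz => ?_⟩
  have hzi : z.im ≤ -1 := by linarith
  have hf := V_zero_formula m l z (by linarith)
  have hq : ‖Complex.exp (-(2 * (Real.pi : ℂ) * Complex.I * z))‖ =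
      Real.exp (-(2 * Real.pi * (-z.im))) := by
    rw [Complex.norm_exp]
    congr 1
    simp
  obtain ⟨hs1, hs2⟩ := auxCa_small (t := -z.im) (by linarith)
  rw [← hq] at hs1 hs2
  have hQ : (C (2 * (Real.pi : ℂ) * Complex.I ^ m) * pm m).eval z =
      2 * (Real.pi : ℂ) * Complex.I ^ m * (pm m).eval z := by rw [eval_mul, eval_C]
  rw [← hQ] at hf
  have he := auxCa_est hf (auxCa_norm_c m) hs1
  refine he.trans ?_
  have h5 : Real.exp (-(-1 * z.im)) = Real.exp (-(-z.im)) := by ring_nf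
  rw [h5]
  calc 2 * ‖(C (2 * (Real.pi : ℂ) * Complex.I ^ m) * pm m).eval z‖ *
        ‖Complex.exp (-(2 * (Real.pi : ℂ) * Complex.I * z))‖
      ≤ 2 * (K * (1 + ‖z‖) ^ k) * Real.exp (-(-z.im)) := by
        apply mul_le_mul _ hs2 (norm_nonneg _) (by positivity)
        exact mul_le_mul_of_nonneg_left (hb z) (by norm_num)
    _ = _ := by ring

theorem asy_up (m : ℕ) (l : ℝ) :
    Asy 1 (fun z => Complex.exp (-(2 * (Real.pi : ℂ) * Complex.I * z)) * V m l 0 z)
      (C (2 * (Real.pi : ℂ) * Complex.I ^ m * (-1) ^ m) * pm m) := by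
  obtain ⟨K, k, hK, hb⟩ := poly_bound (C (2 * (Real.pi : ℂ) * Complex.I ^ m * (-1) ^ m) * pm m)
  refine ⟨2 * K, k, by positivity, fun z hz => ?_⟩
  have hzi : 1 ≤ z.im := by linarith
  have hf := V_zero_formula m l z (by linarith)
  have hq : ‖Complex.exp (2 * (Real.pi : ℂ) * Complex.I * z)‖ =
      Real.exp (-(2 * Real.pi * z.im)) := by
    rw [Complex.norm_exp]
    congr 1
    simp
  obtain ⟨hs1, hs2⟩ := auxCa_small hzi
  rw [← hq] at hs1 hs2
  have hqq : Complex.exp (-(2 * (Real.pi : ℂ) * Complex.I * z)) *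
      Complex.exp (2 * (Real.pi : ℂ) * Complex.I * z) = 1 := by
    rw [← Complex.exp_add]; simp
  have hcc : ((-1 : ℂ)) ^ m * (-1) ^ m = 1 := by
    rw [← mul_pow]; simp
  have hQ : (C (2 * (Real.pi : ℂ) * Complex.I ^ m * (-1) ^ m) * pm m).eval z =
      2 * (Real.pi : ℂ) * Complex.I ^ m * (-1) ^ m * (pm m).eval z := by rw [eval_mul, eval_C]
  have hf2 : (Complex.exp (-(2 * (Real.pi : ℂ) * Complex.I * z)) * V m l 0 z) *
      (1 + (-1) ^ m * Complex.exp (2 * (Real.pi : ℂ) * Complex.I * z)) =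
      (C (2 * (Real.pi : ℂ) * Complex.I ^ m * (-1) ^ m) * pm m).eval z := by
    rw [hQ]
    linear_combination (-1) ^ m * hf + (V m l 0 z * (-1) ^ m) * hqq -
      (V m l 0 z * Complex.exp (-(2 * (Real.pi : ℂ) * Complex.I * z))) * hcc
  have he := auxCa_est hf2 (auxCa_norm_c m) hs1
  refine he.trans ?_
  rw [one_mul]
  calc 2 * ‖(C (2 * (Real.pi : ℂ) * Complex.I ^ m * (-1) ^ m) * pm m).eval z‖ *
        ‖Complex.exp (2 * (Real.pi : ℂ) * Complex.I * z)‖
      ≤ 2 * (K * (1 + ‖z‖) ^ k) * Real.exp (-z.im) := by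
        apply mul_le_mul _ hs2 (norm_nonneg _) (by positivity)
        exact mul_le_mul_of_nonneg_left (hb z) (by norm_num)
    _ = _ := by ring

end Pool.Agent.Helper95.CDD
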