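import Pool.Agent.Helper95.CDD.Defs
import Pool.Agent.Helper95.CDD.J3a

set_option autoImplicit false

open Polynomial

namespace Pool.Agent.Helper95.CDD

theorem auxCb_tend (A K : ℝ) (k : ℕ) :
    Filter.Tendsto (fun y : ℝ => K * (A + y) ^ k * Real.exp (-y)) Filter.atTop (nhds 0) := by
  have h1 : Filter.Tendsto (fun y : ℝ => A + y) Filter.atTop Filter.atTop :=
    Filter.tendsto_atTop_add_const_left _ A Filter.tendsto_id
  have h2 := (Real.tendsto_pow_mul_exp_neg_atTop_nhds_zero k).comp h1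
  have h3 := h2.const_mul (K * Real.exp A)
  rw [mul_zero] at h3
  refine h3.congr (fun y => ?_)
  simp only [Function.comp]
  have : Real.exp (-(A + y)) = Real.exp (-A) * Real.exp (-y) := by
    rw [← Real.exp_add]; congr 1; ring
  rw [this]
  have h4 : Real.exp A * Real.exp (-A) = 1 := by rw [← Real.exp_add]; simp
  calc K * Real.exp A * ((A + y) ^ k * (Real.exp (-A) * Real.exp (-y)))
      = K * (A + y) ^ k * Real.exp (-y) * (Real.exp A * Real.exp (-A)) := by ring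
    _ = _ := by rw [h4, mul_one]

theorem auxCb_lower (Q : ℂ[X]) (hQ : Q ≠ 0) :
    ∃ c B0 : ℝ, 0 < c ∧ ∀ z : ℂ, B0 ≤ ‖z‖ → c ≤ ‖Q.eval z‖ := by
  by_cases hd : 0 < Q.degree
  · have h1 : Filter.Tendsto (fun z : ℂ => ‖z‖) (Filter.comap (fun z : ℂ => ‖z‖) Filter.atTop)
        Filter.atTop := Filter.tendsto_comap
    have h2 := Polynomial.tendsto_norm_atTop Q hd h1
    have h3 := h2.eventually (Filter.eventually_ge_atTop (1 : ℝ))
    rw [Filter.eventually_comap, Filter.eventually_atTop] at h3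
    obtain ⟨B0, hB0⟩ := h3
    exact ⟨1, B0, one_pos, fun z hz => hB0 ‖z‖ hz z rfl⟩
  · have h0 : Q = C (Q.coeff 0) := Polynomial.eq_C_of_degree_le_zero (not_lt.1 hd)
    have h1 : Q.coeff 0 ≠ 0 := by
      intro h
      rw [h, map_zero] at h0
      exact hQ h0
    refine ⟨‖Q.coeff 0‖, 0, norm_pos_iff.2 h1, fun z _ => ?_⟩
    rw [h0]
    simp

theorem auxCb_err {s : ℝ} {f : ℂ → ℂ} {Q : ℂ[X]} {K : ℝ} {k : ℕ} (hK : 0 < K)
    (h : ∀ z : ℂ, 1 ≤ s * z.im →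
      ‖f z - Q.eval z‖ ≤ K * (1 + ‖z‖) ^ k * Real.exp (-(s * z.im))) (l : ℝ) (z : ℂ)
    (hz : 1 ≤ s * z.im) :
    ‖f (z + (l : ℂ)) - Q.eval (z + (l : ℂ))‖ ≤
      K * ((1 + |l|) ^ k * (1 + ‖z‖) ^ k) * Real.exp (-(s * z.im)) := by
  have him : (z + (l : ℂ)).im = z.im := by simp
  have h1 := h (z + (l : ℂ)) (by rw [him]; exact hz)
  rw [him] at h1
  refine h1.trans ?_
  refine mul_le_mul_of_nonneg_right ?_ (Real.exp_pos _).le
  refine mul_le_mul_of_nonneg_left ?_ hK.le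
  rw [← mul_pow]
  refine pow_le_pow_left₀ (by positivity) ?_ k
  have h2 : ‖z + (l : ℂ)‖ ≤ ‖z‖ + |l| := by
    refine (norm_add_le _ _).trans ?_
    rw [Complex.norm_real, Real.norm_eq_abs]
  nlinarith [mul_nonneg (norm_nonneg z) (abs_nonneg l)]

theorem Asy.shift {s : ℝ} (hs : s = 1 ∨ s = -1) {f : ℂ → ℂ} {Q : ℂ[X]} (h : Asy s f Q)
    (a b : ℂ) (l : ℝ) :
    Asy s (fun z => a * f (z + (l : ℂ)) - b * f (z - (l : ℂ)))
      (C a * Q.comp (X + C (l : ℂ)) - C b * Q.comp (X - C (l : ℂ))) := by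
  obtain ⟨K, k, hK, hf⟩ := h
  refine ⟨(‖a‖ + ‖b‖ + 1) * (K * (1 + |l|) ^ k), k, by positivity, fun z hz => ?_⟩
  have h1 := auxCb_err hK hf l z hz
  have h2 := auxCb_err hK hf (-l) z hz
  rw [abs_neg] at h2
  have h3 : z + ((-l : ℝ) : ℂ) = z - (l : ℂ) := by push_cast; ring
  rw [h3] at h2
  have h4 : (C a * Q.comp (X + C (l : ℂ)) - C b * Q.comp (X - C (l : ℂ))).eval z
      = a * Q.eval (z + (l : ℂ)) - b * Q.eval (z - (l : ℂ)) := by
    simp [Polynomial.eval_comp]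
  rw [h4]
  have h5 : a * f (z + (l : ℂ)) - b * f (z - (l : ℂ)) - (a * Q.eval (z + (l : ℂ)) - b * Q.eval (z - (l : ℂ)))
      = a * (f (z + (l : ℂ)) - Q.eval (z + (l : ℂ))) - b * (f (z - (l : ℂ)) - Q.eval (z - (l : ℂ))) := by
    ring
  rw [h5]
  refine (norm_sub_le _ _).trans ?_
  rw [norm_mul, norm_mul]
  have h6 := mul_le_mul_of_nonneg_left h1 (norm_nonneg a)
  have h7 := mul_le_mul_of_nonneg_left h2 (norm_nonneg b)
  have h8 : 0 ≤ K * ((1 + |l|) ^ k * (1 + ‖z‖) ^ k) * Real.exp (-(s * z.im)) := by positivity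
  calc ‖a‖ * ‖f (z + (l : ℂ)) - Q.eval (z + (l : ℂ))‖ + ‖b‖ * ‖f (z - (l : ℂ)) - Q.eval (z - (l : ℂ))‖
      ≤ ‖a‖ * (K * ((1 + |l|) ^ k * (1 + ‖z‖) ^ k) * Real.exp (-(s * z.im)))
        + ‖b‖ * (K * ((1 + |l|) ^ k * (1 + ‖z‖) ^ k) * Real.exp (-(s * z.im))) := add_le_add h6 h7
    _ ≤ (‖a‖ + ‖b‖ + 1) * (K * ((1 + |l|) ^ k * (1 + ‖z‖) ^ k) * Real.exp (-(s * z.im))) := by
        nlinarith [h8]
    _ = _ := by ring

theorem Asy.bounds {s : ℝ} (hs : s = 1 ∨ s = -1) {f : ℂ → ℂ} {Q : ℂ[X]} (h : Asy s f Q)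
    (hQ : Q ≠ 0) (R : ℝ) : ∃ K B : ℝ, 0 < K ∧ 0 < B ∧ ∀ z : ℂ, |z.re| ≤ R → B ≤ s * z.im →
      Real.exp (-(K * |z.im|)) ≤ ‖f z‖ ∧ ‖f z‖ ≤ Real.exp (K * |z.im|) := by
  obtain ⟨K, k, hK, hf⟩ := h
  obtain ⟨K', k', hK', hQb⟩ := poly_bound Q
  obtain ⟨c, B0, hc, hlow⟩ := auxCb_lower Q hQ
  have e1 := (auxCb_tend (1 + |R|) K k).eventually (eventually_le_nhds (show (0 : ℝ) < c / 2 by positivity))
  have e2 := (auxCb_tend (1 + |R|) K' k').eventually
    (eventually_le_nhds (show (0 : ℝ) < 1 / 2 by norm_num))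
  have e3 := (Real.tendsto_exp_neg_atTop_nhds_zero).eventually
    (eventually_le_nhds (show (0 : ℝ) < c / 2 by positivity))
  have e4 := Real.tendsto_exp_atTop.eventually (Filter.eventually_ge_atTop c)
  obtain ⟨B1, hB1⟩ := Filter.eventually_atTop.1 (((e1.and e2).and e3).and e4)
  refine ⟨1, max (max B1 B0) 1, one_pos, lt_of_lt_of_le one_pos (le_max_right _ _), fun z hz hB => ?_⟩
  have hy : |z.im| = s * z.im := by
    have h1 : (0 : ℝ) < s * z.im := lt_of_lt_of_le (lt_of_lt_of_le one_pos (le_max_right _ _)) hB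
    rcases hs with rfl | rfl
    · rw [one_mul] at h1 ⊢
      exact abs_of_pos h1
    · have : z.im < 0 := by linarith
      rw [abs_of_neg this]; ring
  obtain ⟨y, hyd⟩ : ∃ y : ℝ, y = s * z.im := ⟨_, rfl⟩
  have hy1 : 1 ≤ s * z.im := (le_max_right _ _).trans hB
  obtain ⟨⟨⟨b1, b2⟩, b3⟩, b4⟩ := hB1 y (by rw [hyd]; exact ((le_max_left _ _).trans (le_max_left _ _)).trans hB)
  have hnz : ‖z‖ ≤ |R| + y := by
    refine (Complex.norm_le_abs_re_add_abs_im z).trans ?_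
    rw [hy, ← hyd]
    have := hz.trans (le_abs_self R)
    linarith
  have hzB0 : B0 ≤ ‖z‖ := by
    refine (((le_max_right _ _).trans (le_max_left _ _)).trans hB).trans ?_
    rw [← hy]
    exact Complex.abs_im_le_norm z
  have herr := hf z hy1
  have herr2 : ‖f z - Q.eval z‖ ≤ c / 2 := by
    refine herr.trans (le_trans ?_ b1)
    rw [← hyd]
    refine mul_le_mul_of_nonneg_right ?_ (Real.exp_pos _).le
    refine mul_le_mul_of_nonneg_left ?_ hK.le
    refine pow_le_pow_left₀ (by positivity) ?_ k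
    linarith
  have hlo := hlow z hzB0
  have hup : ‖Q.eval z‖ ≤ 1 / 2 * Real.exp y := by
    refine (hQb z).trans ?_
    have h1 : K' * (1 + ‖z‖) ^ k' ≤ K' * (1 + |R| + y) ^ k' := by
      refine mul_le_mul_of_nonneg_left ?_ hK'.le
      refine pow_le_pow_left₀ (by positivity) ?_ k'
      linarith
    refine h1.trans ?_
    have h2 : Real.exp (-y) * Real.exp y = 1 := by rw [← Real.exp_add]; simp
    calc K' * (1 + |R| + y) ^ k' = K' * (1 + |R| + y) ^ k' * (Real.exp (-y) * Real.exp y) := by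
          rw [h2, mul_one]
      _ = (K' * (1 + |R| + y) ^ k' * Real.exp (-y)) * Real.exp y := by ring
      _ ≤ 1 / 2 * Real.exp y := mul_le_mul_of_nonneg_right b2 (Real.exp_pos _).le
  rw [one_mul, hy, ← hyd]
  constructor
  · have h1 : ‖Q.eval z‖ ≤ ‖f z‖ + ‖f z - Q.eval z‖ := by
      have : Q.eval z = f z - (f z - Q.eval z) := by ring
      calc ‖Q.eval z‖ = ‖f z - (f z - Q.eval z)‖ := by rw [← this]
        _ ≤ _ := norm_sub_le _ _
    have h3 : Real.exp (-y) ≤ c / 2 := b3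
    linarith
  · have h1 : ‖f z‖ ≤ ‖Q.eval z‖ + ‖f z - Q.eval z‖ := by
      have : f z = Q.eval z + (f z - Q.eval z) := by ring
      calc ‖f z‖ = ‖Q.eval z + (f z - Q.eval z)‖ := by rw [← this]
        _ ≤ _ := norm_add_le _ _
    have h3 : c ≤ Real.exp y := b4
    linarith

end Pool.Agent.Helper95.CDD
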