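import Pool.Agent.Helper95.CDD.Defs
import Pool.Agent.Helper95.CDD.J3a
import Pool.Agent.Helper95.CDD.J3b

set_option autoImplicit false

open Polynomial

namespace Pool.Agent.Helper95.CDD

theorem auxCc_top {f : ℂ[X]} {d : ℕ} (hd : f.natDegree ≤ d) (r : ℂ) :
    (f.comp (X + C r)).coeff d = f.coeff d := by
  rw [← taylor_apply, taylor_coeff]
  have h : (hasseDeriv d f).natDegree < 1 := by
    have h1 := natDegree_hasseDeriv_le f d
    omega
  rw [eval_eq_sum_range' h, Finset.sum_range_one, pow_zero, mul_one, hasseDeriv_coeff]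
  simp

theorem auxCc_sub {f : ℂ[X]} {d : ℕ} (hd : f.natDegree ≤ d + 1) (r : ℂ) :
    (f.comp (X + C r)).coeff d = f.coeff d + ((d : ℂ) + 1) * r * f.coeff (d + 1) := by
  rw [← taylor_apply, taylor_coeff]
  have h : (hasseDeriv d f).natDegree < 2 := by
    have h1 := natDegree_hasseDeriv_le f d
    omega
  rw [eval_eq_sum_range' h, Finset.sum_range_succ, Finset.sum_range_one, pow_zero, mul_one,
    hasseDeriv_coeff, hasseDeriv_coeff, zero_add, Nat.choose_self, add_comm 1 d,
    Nat.choose_succ_self_right]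
  push_cast
  ring

theorem auxCc_nat (f : ℂ[X]) (r : ℂ) : (f.comp (X + C r)).natDegree = f.natDegree := by
  rw [← taylor_apply, natDegree_taylor]

theorem auxCc_neg (l : ℂ) : (X - C l : ℂ[X]) = X + C (-l) := by
  rw [C_neg, sub_eq_add_neg]

noncomputable def auxCc_Ql (m : ℕ) (l : ℝ) : ℕ → ℂ[X]
  | 0 => C (2 * (Real.pi : ℂ) * Complex.I ^ m) * pm m
  | n + 1 => (auxCc_Ql m l n).comp (X + C (l : ℂ)) - (auxCc_Ql m l n).comp (X - C (l : ℂ))

noncomputable def auxCc_Qu (m : ℕ) (l : ℝ) (w : ℂ) : ℕ → ℂ[X]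
  | 0 => C (2 * (Real.pi : ℂ) * Complex.I ^ m * (-1) ^ m) * pm m
  | n + 1 => C w * (auxCc_Qu m l w n).comp (X + C (l : ℂ)) -
      C w⁻¹ * (auxCc_Qu m l w n).comp (X - C (l : ℂ))

theorem auxCc_asyl (m : ℕ) (l : ℝ) (n : ℕ) : Asy (-1) (V m l n) (auxCc_Ql m l n) := by
  induction n with
  | zero => exact asy_low m l
  | succ n ih =>
    have h := Asy.shift (Or.inr rfl) ih 1 1 l
    have e1 : (fun z => 1 * V m l n (z + (l : ℂ)) - 1 * V m l n (z - (l : ℂ))) =
        V m l (n + 1) := by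
      funext z
      rw [one_mul, one_mul]
      rfl
    have e2 : (C 1 * (auxCc_Ql m l n).comp (X + C (l : ℂ)) -
        C 1 * (auxCc_Ql m l n).comp (X - C (l : ℂ)) : ℂ[X]) = auxCc_Ql m l (n + 1) := by
      rw [C_1, one_mul, one_mul]
      rfl
    rw [e1, e2] at h
    exact h

theorem auxCc_asyu (m : ℕ) (l : ℝ) (n : ℕ) :
    Asy 1 (fun z => Complex.exp (-(2 * (Real.pi : ℂ) * Complex.I * z)) * V m l n z)
      (auxCc_Qu m l (Complex.exp (2 * (Real.pi : ℂ) * Complex.I * l)) n) := by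
  induction n with
  | zero => exact asy_up m l
  | succ n ih =>
    have h := Asy.shift (Or.inl rfl) ih (Complex.exp (2 * (Real.pi : ℂ) * Complex.I * l))
      (Complex.exp (2 * (Real.pi : ℂ) * Complex.I * l))⁻¹ l
    have e1 : (fun z : ℂ => Complex.exp (2 * (Real.pi : ℂ) * Complex.I * l) *
        (Complex.exp (-(2 * (Real.pi : ℂ) * Complex.I * (z + (l : ℂ)))) * V m l n (z + (l : ℂ))) -
        (Complex.exp (2 * (Real.pi : ℂ) * Complex.I * l))⁻¹ *
        (Complex.exp (-(2 * (Real.pi : ℂ) * Complex.I * (z - (l : ℂ)))) * V m l n (z - (l : ℂ)))) =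
        (fun z => Complex.exp (-(2 * (Real.pi : ℂ) * Complex.I * z)) * V m l (n + 1) z) := by
      funext z
      rw [← Complex.exp_neg, ← mul_assoc, ← mul_assoc, ← Complex.exp_add, ← Complex.exp_add]
      have h1 : 2 * (Real.pi : ℂ) * Complex.I * l + -(2 * (Real.pi : ℂ) * Complex.I * (z + (l : ℂ)))
          = -(2 * (Real.pi : ℂ) * Complex.I * z) := by ring
      have h2 : -(2 * (Real.pi : ℂ) * Complex.I * l) +
          -(2 * (Real.pi : ℂ) * Complex.I * (z - (l : ℂ)))
          = -(2 * (Real.pi : ℂ) * Complex.I * z) := by ring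
      rw [h1, h2, ← mul_sub]
      rfl
    rw [e1] at h
    exact h

theorem auxCc_Ql_ne {m : ℕ} {l : ℝ} (hl : 0 < l) (n : ℕ) (hn : n ≤ m) :
    (auxCc_Ql m l n).natDegree ≤ m - n ∧ (auxCc_Ql m l n).coeff (m - n) ≠ 0 := by
  induction n with
  | zero =>
    obtain ⟨h1, h2⟩ := pm_monic m
    have hne : (2 * (Real.pi : ℂ) * Complex.I ^ m) ≠ 0 := by
      have : (Real.pi : ℂ) ≠ 0 := by exact_mod_cast Real.pi_ne_zero
      have h3 : Complex.I ^ m ≠ 0 := pow_ne_zero _ Complex.I_ne_zero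
      simp [this, h3]
    constructor
    · refine (natDegree_C_mul_le _ _).trans ?_
      rw [h2]; simp
    · show (C _ * pm m).coeff (m - 0) ≠ 0
      rw [coeff_C_mul, Nat.sub_zero]
      have h4 : (pm m).coeff m = 1 := by
        have := h1.coeff_natDegree
        rw [h2] at this
        exact this
      rw [h4, mul_one]
      exact hne
  | succ n ih =>
    obtain ⟨h1, h2⟩ := ih (by omega)
    obtain ⟨d, hd⟩ : ∃ d, m - n = d + 1 := ⟨m - n - 1, by omega⟩
    have hd' : m - (n + 1) = d := by omega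
    rw [hd] at h1 h2
    rw [hd']
    have hc1 : (auxCc_Ql m l (n + 1)).coeff d =
        2 * ((d : ℂ) + 1) * l * (auxCc_Ql m l n).coeff (d + 1) := by
      show ((auxCc_Ql m l n).comp (X + C (l : ℂ)) -
        (auxCc_Ql m l n).comp (X - C (l : ℂ))).coeff d = _
      rw [coeff_sub, auxCc_neg, auxCc_sub h1, auxCc_sub h1]
      ring
    constructor
    · rw [natDegree_le_iff_coeff_eq_zero]
      intro N hN
      show ((auxCc_Ql m l n).comp (X + C (l : ℂ)) -
        (auxCc_Ql m l n).comp (X - C (l : ℂ))).coeff N = 0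
      rw [coeff_sub, auxCc_neg]
      rcases eq_or_lt_of_le (show d + 1 ≤ N by omega) with h3 | h3
      · rw [← h3, auxCc_top h1, auxCc_top h1, sub_self]
      · rw [coeff_eq_zero_of_natDegree_lt (by rw [auxCc_nat]; omega),
          coeff_eq_zero_of_natDegree_lt (by rw [auxCc_nat]; omega), sub_self]
    · rw [hc1]
      have h3 : ((d : ℂ) + 1) ≠ 0 := by exact_mod_cast Nat.succ_ne_zero d
      have h4 : (l : ℂ) ≠ 0 := by exact_mod_cast hl.ne'
      simp [h2, h3, h4]

theorem auxCc_Qu_ne {m : ℕ} {l : ℝ} {w : ℂ} (hw : w - w⁻¹ ≠ 0) (n : ℕ) :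
    (auxCc_Qu m l w n).natDegree ≤ m ∧ (auxCc_Qu m l w n).coeff m ≠ 0 := by
  induction n with
  | zero =>
    obtain ⟨h1, h2⟩ := pm_monic m
    have hne : (2 * (Real.pi : ℂ) * Complex.I ^ m * (-1) ^ m) ≠ 0 := by
      have : (Real.pi : ℂ) ≠ 0 := by exact_mod_cast Real.pi_ne_zero
      have h3 : Complex.I ^ m ≠ 0 := pow_ne_zero _ Complex.I_ne_zero
      have h4 : (-1 : ℂ) ^ m ≠ 0 := pow_ne_zero _ (by norm_num)
      simp [this, h3, h4]
    constructor
    · refine (natDegree_C_mul_le _ _).trans ?_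
      rw [h2]
    · show (C _ * pm m).coeff m ≠ 0
      rw [coeff_C_mul]
      have h4 : (pm m).coeff m = 1 := by
        have := h1.coeff_natDegree
        rw [h2] at this
        exact this
      rw [h4, mul_one]
      exact hne
  | succ n ih =>
    obtain ⟨h1, h2⟩ := ih
    have hc1 : (auxCc_Qu m l w (n + 1)).coeff m =
        (w - w⁻¹) * (auxCc_Qu m l w n).coeff m := by
      show (C w * (auxCc_Qu m l w n).comp (X + C (l : ℂ)) -
        C w⁻¹ * (auxCc_Qu m l w n).comp (X - C (l : ℂ))).coeff m = _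
      rw [coeff_sub, coeff_C_mul, coeff_C_mul, auxCc_neg, auxCc_top h1, auxCc_top h1]
      ring
    constructor
    · rw [natDegree_le_iff_coeff_eq_zero]
      intro N hN
      show (C w * (auxCc_Qu m l w n).comp (X + C (l : ℂ)) -
        C w⁻¹ * (auxCc_Qu m l w n).comp (X - C (l : ℂ))).coeff N = 0
      rw [coeff_sub, coeff_C_mul, coeff_C_mul, auxCc_neg,
        coeff_eq_zero_of_natDegree_lt (by rw [auxCc_nat]; omega),
        coeff_eq_zero_of_natDegree_lt (by rw [auxCc_nat]; omega), mul_zero, mul_zero, sub_self]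
    · rw [hc1]
      exact mul_ne_zero hw h2

theorem auxCc_omega {l : ℝ} (hs : ∀ k : ℤ, 2 * l ≠ k) :
    Complex.exp (2 * (Real.pi : ℂ) * Complex.I * l) -
      (Complex.exp (2 * (Real.pi : ℂ) * Complex.I * l))⁻¹ ≠ 0 := by
  intro h
  rw [sub_eq_zero, ← Complex.exp_neg, Complex.exp_eq_exp_iff_exists_int] at h
  obtain ⟨k, hk⟩ := h
  have hpi : (Real.pi : ℂ) ≠ 0 := by exact_mod_cast Real.pi_ne_zero
  have h1 : (2 * (Real.pi : ℂ) * Complex.I) * (2 * l) = (2 * (Real.pi : ℂ) * Complex.I) * k := by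
    linear_combination hk
  have h2 : (2 * (Real.pi : ℂ) * Complex.I) ≠ 0 := by
    simp [hpi, Complex.I_ne_zero]
  have h3 := mul_left_cancel₀ h2 h1
  exact hs k (by exact_mod_cast h3)

theorem V_growth (m : ℕ) {l : ℝ} (hl : 0 < l) (hs : ∀ k : ℤ, 2 * l ≠ k) (n : ℕ) (hn : n ≤ m)
    (R : ℝ) : ∃ C B : ℝ, 0 < C ∧ 0 < B ∧ ∀ z : ℂ, |z.re| ≤ R → B ≤ |z.im| →
      Real.exp (-(C * |z.im|)) ≤ ‖V m l n z‖ ∧ ‖V m l n z‖ ≤ Real.exp (C * |z.im|) := by
  obtain ⟨K1, B1, hK1, hB1, h1⟩ := Asy.bounds (Or.inr rfl) (auxCc_asyl m l n) (by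
    intro h0
    have := (auxCc_Ql_ne hl n hn).2
    rw [h0] at this
    simp at this) R
  obtain ⟨K2, B2, hK2, hB2, h2⟩ := Asy.bounds (Or.inl rfl) (auxCc_asyu m l n) (by
    intro h0
    have := (auxCc_Qu_ne (m := m) (l := l) (auxCc_omega hs) n).2
    rw [h0] at this
    simp at this) R
  have hpi := Real.pi_pos
  refine ⟨K1 + K2 + 2 * Real.pi, max B1 B2, by positivity, by positivity, ?_⟩
  intro z hre him
  have hy0 : 0 ≤ |z.im| := abs_nonneg _
  rcases le_total 0 z.im with hpos | hneg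
  · have habs : |z.im| = z.im := abs_of_nonneg hpos
    have h3 := h2 z hre (by
      rw [one_mul, ← habs]
      exact (le_max_right _ _).trans him)
    have hnorm : ‖Complex.exp (-(2 * (Real.pi : ℂ) * Complex.I * z)) * V m l n z‖ =
        Real.exp (2 * Real.pi * |z.im|) * ‖V m l n z‖ := by
      rw [norm_mul, Complex.norm_exp, habs]
      congr 2
      simp
    rw [hnorm] at h3
    obtain ⟨h4, h5⟩ := h3
    have e1 : ‖V m l n z‖ = Real.exp (-(2 * Real.pi * |z.im|)) *
        (Real.exp (2 * Real.pi * |z.im|) * ‖V m l n z‖) := by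
      rw [← mul_assoc, ← Real.exp_add]
      simp
    constructor
    · rw [e1]
      calc Real.exp (-((K1 + K2 + 2 * Real.pi) * |z.im|))
          ≤ Real.exp (-(2 * Real.pi * |z.im|)) * Real.exp (-(K2 * |z.im|)) := by
            rw [← Real.exp_add]
            apply Real.exp_le_exp.2
            nlinarith
        _ ≤ _ := mul_le_mul_of_nonneg_left h4 (Real.exp_pos _).le
    · rw [e1]
      calc Real.exp (-(2 * Real.pi * |z.im|)) *
          (Real.exp (2 * Real.pi * |z.im|) * ‖V m l n z‖)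
          ≤ Real.exp (-(2 * Real.pi * |z.im|)) * Real.exp (K2 * |z.im|) :=
            mul_le_mul_of_nonneg_left h5 (Real.exp_pos _).le
        _ ≤ _ := by
            rw [← Real.exp_add]
            apply Real.exp_le_exp.2
            nlinarith [mul_nonneg hpi.le hy0]
  · have habs : |z.im| = -z.im := abs_of_nonpos hneg
    obtain ⟨h4, h5⟩ := h1 z hre (by
      have : (-1 : ℝ) * z.im = |z.im| := by rw [habs]; ring
      rw [this]
      exact (le_max_left _ _).trans him)
    constructor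
    · refine le_trans ?_ h4
      apply Real.exp_le_exp.2
      nlinarith [mul_nonneg hpi.le hy0, mul_nonneg hK2.le hy0]
    · refine le_trans h5 ?_
      apply Real.exp_le_exp.2
      nlinarith [mul_nonneg hpi.le hy0, mul_nonneg hK2.le hy0]

end Pool.Agent.Helper95.CDD
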