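import Pool.Agent.Helper95.CDD.Defs

set_option autoImplicit false

open Polynomial

namespace Pool.Agent.Helper95.CDD

theorem auxPL_bdry {f : ℂ → ℂ} {z0 : ℂ} (hf : ContinuousAt f z0)
    (h : ∀ z : ℂ, z.re = z0.re → z.im ≠ z0.im → ‖f z‖ ≤ 1) : ‖f z0‖ ≤ 1 := by
  have hc : Filter.Tendsto (fun t : ℝ => z0 + (t : ℂ) * Complex.I) (nhdsWithin 0 {0}ᶜ) (nhds z0) := by
    have h1 : Continuous (fun t : ℝ => z0 + (t : ℂ) * Complex.I) := by fun_prop
    have h2 := h1.tendsto 0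
    simp only [Complex.ofReal_zero, zero_mul, add_zero] at h2
    exact h2.mono_left nhdsWithin_le_nhds
  have h3 : Filter.Tendsto (fun t : ℝ => ‖f (z0 + (t : ℂ) * Complex.I)‖) (nhdsWithin 0 {0}ᶜ)
      (nhds ‖f z0‖) := (hf.tendsto.comp hc).norm
  refine le_of_tendsto h3 ?_
  filter_upwards [self_mem_nhdsWithin] with t ht
  apply h
  · simp
  · have ht0 : t ≠ 0 := ht
    simpa using ht0

theorem PL_strip {b : ℝ} (hb : 0 < b) {f : ℂ → ℂ}
    (hf : ∀ z : ℂ, 0 ≤ z.re → z.re ≤ b → DifferentiableAt ℂ f z) {C B : ℝ}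
    (hg : ∀ z : ℂ, 0 ≤ z.re → z.re ≤ b → B ≤ |z.im| → ‖f z‖ ≤ Real.exp (C * |z.im|))
    (h0 : ∀ z : ℂ, z.re = 0 → z.im ≠ 0 → ‖f z‖ ≤ 1)
    (h1 : ∀ z : ℂ, z.re = b → z.im ≠ 0 → ‖f z‖ ≤ 1) (z : ℂ) (hz0 : 0 ≤ z.re) (hzb : z.re ≤ b) :
    ‖f z‖ ≤ 1 := by
  have h0' : ∀ z : ℂ, z.re = 0 → ‖f z‖ ≤ 1 := by
    intro z hz
    by_cases hi : z.im = 0
    · apply auxPL_bdry (hf z hz.ge (by linarith)).continuousAt
      intro w hw hwi
      exact h0 w (hw.trans hz) (by rw [← hi]; exact hwi)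
    · exact h0 z hz hi
  have h1' : ∀ z : ℂ, z.re = b → ‖f z‖ ≤ 1 := by
    intro z hz
    by_cases hi : z.im = 0
    · apply auxPL_bdry (hf z (by linarith) hz.le).continuousAt
      intro w hw hwi
      exact h1 w (hw.trans hz) (by rw [← hi]; exact hwi)
    · exact h1 z hz hi
  have hcl : closure (Complex.re ⁻¹' Set.Ioo 0 b) ⊆ Complex.re ⁻¹' Set.Icc 0 b := by
    apply closure_minimal (Set.preimage_mono Set.Ioo_subset_Icc_self)
    exact isClosed_Icc.preimage Complex.continuous_re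
  have hdc : DiffContOnCl ℂ f (Complex.re ⁻¹' Set.Ioo 0 b) := by
    constructor
    · intro w hw
      exact (hf w hw.1.le hw.2.le).differentiableWithinAt
    · intro w hw
      have hw' := hcl hw
      exact (hf w hw'.1 hw'.2).continuousAt.continuousWithinAt
  have hpi := Real.pi_pos
  refine PhragmenLindelof.vertical_strip (a := 0) (b := b) hdc ?_ h0' h1' hz0 hzb
  refine ⟨Real.pi / (2 * b), ?_, |C| / (Real.pi / (2 * b)), ?_⟩
  · rw [sub_zero]
    apply div_lt_div_of_pos_left hpi hb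
    linarith
  · apply Asymptotics.IsBigO.of_bound 1
    have hev : ∀ᶠ w : ℂ in Filter.comap (_root_.abs ∘ Complex.im) Filter.atTop, B ≤ |w.im| := by
      have := (Filter.eventually_ge_atTop B).comap (_root_.abs ∘ Complex.im)
      exact this
    have hev1 := hev.filter_mono (inf_le_left : Filter.comap (_root_.abs ∘ Complex.im) Filter.atTop ⊓
      Filter.principal (Complex.re ⁻¹' Set.Ioo 0 b) ≤ _)
    have hev2 : ∀ᶠ w : ℂ in (Filter.comap (_root_.abs ∘ Complex.im) Filter.atTop ⊓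
      Filter.principal (Complex.re ⁻¹' Set.Ioo 0 b)), w ∈ Complex.re ⁻¹' Set.Ioo 0 b :=
      (Filter.mem_inf_of_right (Filter.mem_principal_self _))
    filter_upwards [hev1, hev2] with w hw1 hw2
    have hgw := hg w hw2.1.le hw2.2.le hw1
    rw [one_mul, Real.norm_of_nonneg (Real.exp_pos _).le]
    refine hgw.trans (Real.exp_le_exp.2 ?_)
    set c := Real.pi / (2 * b) with hc
    have hcp : 0 < c := by positivity
    have h5 : c * |w.im| ≤ Real.exp (c * |w.im|) := by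
      have := Real.add_one_le_exp (c * |w.im|)
      linarith
    calc C * |w.im| ≤ |C| * |w.im| := mul_le_mul_of_nonneg_right (le_abs_self C) (abs_nonneg _)
      _ = |C| / c * (c * |w.im|) := by field_simp
      _ ≤ |C| / c * Real.exp (c * |w.im|) := mul_le_mul_of_nonneg_left h5 (by positivity)

theorem PL_strict {b : ℝ} (hb : 0 < b) {f : ℂ → ℂ}
    (hf : ∀ z : ℂ, 0 ≤ z.re → z.re ≤ b → DifferentiableAt ℂ f z) {C B : ℝ}
    (hg : ∀ z : ℂ, 0 ≤ z.re → z.re ≤ b → B ≤ |z.im| → ‖f z‖ ≤ Real.exp (C * |z.im|))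
    (h0 : ∀ z : ℂ, z.re = 0 → z.im ≠ 0 → ‖f z‖ ≤ 1)
    (h1 : ∀ z : ℂ, z.re = b → z.im ≠ 0 → ‖f z‖ ≤ 1) (w : ℂ) (hw0 : 0 < w.re) (hwb : w.re < b)
    (hfw : f w = 0) (z : ℂ) (hz0 : 0 < z.re) (hzb : z.re < b) :
    ‖f z‖ < 1 := by
  have hle : ∀ z : ℂ, 0 ≤ z.re → z.re ≤ b → ‖f z‖ ≤ 1 := fun z hz0 hzb =>
    PL_strip hb hf hg h0 h1 z hz0 hzb
  refine lt_of_le_of_ne (hle z hz0.le hzb.le) fun heq => ?_
  have hconv : Convex ℝ (Complex.re ⁻¹' Set.Ioo 0 b) := by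
    exact (convex_Ioo 0 b).linear_preimage Complex.reLm
  have hpre : IsPreconnected (Complex.re ⁻¹' Set.Ioo 0 b) := hconv.isPreconnected
  have hop : IsOpen (Complex.re ⁻¹' Set.Ioo 0 b) := isOpen_Ioo.preimage Complex.continuous_re
  have hmax : IsMaxOn (norm ∘ f) (Complex.re ⁻¹' Set.Ioo 0 b) z := by
    intro y hy
    show ‖f y‖ ≤ ‖f z‖
    rw [heq]
    exact hle y hy.1.le hy.2.le
  have hdiff : DifferentiableOn ℂ f (Complex.re ⁻¹' Set.Ioo 0 b) := fun y hy =>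
    (hf y hy.1.le hy.2.le).differentiableWithinAt
  have h2 := Complex.norm_eqOn_of_isPreconnected_of_isMaxOn hpre hop hdiff
    (show z ∈ Complex.re ⁻¹' Set.Ioo 0 b from ⟨hz0, hzb⟩) hmax
    (show w ∈ Complex.re ⁻¹' Set.Ioo 0 b from ⟨hw0, hwb⟩)
  simp only [Function.comp_apply, Function.const_apply, hfw, norm_zero, heq] at h2
  norm_num at h2

end Pool.Agent.Helper95.CDD
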