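import Pool.Agent.Helper95.CDD.Defs
import Pool.Agent.Helper95.CDD.J1
import Pool.Agent.Helper95.CDD.J3c
import Pool.Agent.Helper95.CDD.J4

set_option autoImplicit false

open Polynomial

namespace Pool.Agent.Helper95.CDD

theorem auxMid_key (m : ℕ) (l : ℝ) (n : ℕ) (u w : ℂ) (hw : w.im ≠ 0)
    (hVt : Vt m l n w ≠ 0) :
    V m l n w ≠ 0 ∧ ‖(Complex.Gamma ((XX m l n : ℝ) - w))⁻¹ * V m l n u / Vt m l n w‖ =
      ‖V m l n u‖ / ‖V m l n w‖ := by
  have h1 : ∀ k : ℕ, w ≠ ((XX m l n : ℝ) : ℂ) + k := by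
    intro k h
    apply hw
    rw [h]
    simp
  have h2 : Complex.Gamma ((XX m l n : ℝ) - w) ≠ 0 := by
    apply Complex.Gamma_ne_zero
    intro k h
    apply hw
    have := congrArg Complex.im h
    simp at this
    exact this
  have h3 := V_eq m l n w h1
  refine ⟨by rw [h3]; exact mul_ne_zero h2 hVt, ?_⟩
  rw [h3, norm_div, norm_mul, norm_mul, norm_inv]
  have h4 : ‖Complex.Gamma ((XX m l n : ℝ) - w)‖ ≠ 0 := norm_ne_zero_iff.2 h2
  have h5 : ‖Vt m l n w‖ ≠ 0 := norm_ne_zero_iff.2 hVt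
  field_simp

theorem auxMid_refl (m : ℕ) (l : ℝ) (n : ℕ) (a y : ℝ) :
    ‖V m l n ⟨-a, y⟩‖ = ‖V m l n ⟨a, y⟩‖ := by
  have h := norm_V_symm m l n ⟨a, y⟩
  have e : -(starRingEnd ℂ (⟨a, y⟩ : ℂ)) = ⟨-a, y⟩ := by
    apply Complex.ext <;> simp
  rw [e] at h
  exact h

/-- first Phragmen-Lindelof step, the strip `0 ≤ Re z ≤ 1/2` -/
theorem mid_step (m : ℕ) {l : ℝ} (hl : 1 / 2 < l) (hs : ∀ k : ℤ, 2 * l ≠ k) (n : ℕ)
    (hX : l < XX m l n) (hzf : ∀ w : ℂ, 0 < w.re → w.re < XX m l n + l → Vt m l n w ≠ 0)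
    (hH : ∀ w : ℂ, w.im ≠ 0 → 0 ≤ w.re → w.re ≤ XX m l n + l - 1 / 2 →
      ‖V m l n (w - 1 / 2)‖ ≤ ‖V m l n (w + 1 / 2)‖)
    (x ε y : ℝ) (hx : 0 < x) (hx1 : x + 1 / 2 ≤ XX m l n) (hx2 : 1 / 2 - x < XX m l n)
    (hε : 0 ≤ ε) (hε1 : ε ≤ 1 / 2) (hy : y ≠ 0) :
    ‖V m l n ⟨x - ε, y⟩‖ ≤ ‖V m l n ⟨x + ε, y⟩‖ := by
  have hl0 : 0 < l := by linarith
  have hnm : n ≤ m := by
    unfold XX at hX
    have hn0 : (0 : ℝ) ≤ n := Nat.cast_nonneg n
    have h1 : ((n : ℝ) + 1) * (1 / 2) < ((n : ℝ) + 1) * l := by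
      apply mul_lt_mul_of_pos_left hl
      positivity
    have h2 : (n : ℝ) < m := by linarith
    have h3 : n < m := by exact_mod_cast h2
    exact h3.le
  obtain ⟨C, B, hC, hB, hCB⟩ := V_growth m hl0 hs n hnm (1 / 2 + x)
  obtain ⟨f, hf⟩ : ∃ f : ℂ → ℂ, f = fun ζ => (Complex.Gamma ((XX m l n : ℝ) - (ζ + x)))⁻¹ *
    V m l n (ζ - x) / Vt m l n (ζ + x) := ⟨_, rfl⟩
  have hVt : ∀ ζ : ℂ, 0 ≤ ζ.re → ζ.re ≤ 1 / 2 → Vt m l n (ζ + x) ≠ 0 := by
    intro ζ h0 h1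
    apply hzf
    · rw [Complex.add_re, Complex.ofReal_re]
      linarith
    · rw [Complex.add_re, Complex.ofReal_re]
      linarith
  have him : ∀ ζ : ℂ, (ζ + x).im = ζ.im := by intro ζ; simp
  have hkey : ∀ ζ : ℂ, 0 ≤ ζ.re → ζ.re ≤ 1 / 2 → ζ.im ≠ 0 → V m l n (ζ + x) ≠ 0 ∧
      ‖f ζ‖ = ‖V m l n (ζ - x)‖ / ‖V m l n (ζ + x)‖ := by
    intro ζ h0 h1 h2
    rw [hf]
    exact auxMid_key m l n (ζ - x) (ζ + x) (by rw [him]; exact h2) (hVt ζ h0 h1)
  have hdiff : ∀ z : ℂ, 0 ≤ z.re → z.re ≤ 1 / 2 → DifferentiableAt ℂ f z := by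
    intro z h0 h1
    rw [hf]
    apply DifferentiableAt.div
    · apply DifferentiableAt.mul
      · have h2 : DifferentiableAt ℂ (fun s => (Complex.Gamma s)⁻¹) ((XX m l n : ℝ) - (z + x)) :=
          Complex.differentiable_one_div_Gamma _
        have h3 : DifferentiableAt ℂ (fun ζ : ℂ => ((XX m l n : ℝ) : ℂ) - (ζ + x)) z := by fun_prop
        have h4 := DifferentiableAt.comp (g := fun s => (Complex.Gamma s)⁻¹) z h2 h3
        exact h4
      · have h2 : DifferentiableAt ℂ (V m l n) (z - x) := by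
          apply V_differentiableAt m hl0
          right
          rw [Complex.sub_re, Complex.ofReal_re, abs_lt]
          constructor <;> linarith
        have h3 : DifferentiableAt ℂ (fun ζ : ℂ => ζ - x) z := by fun_prop
        exact DifferentiableAt.comp z h2 h3
    · have h2 : DifferentiableAt ℂ (Vt m l n) (z + x) := by
        apply Vt_differentiableAt m hl0
        right
        rw [Complex.add_re, Complex.ofReal_re]
        constructor <;> linarith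
      have h3 : DifferentiableAt ℂ (fun ζ : ℂ => ζ + x) z := by fun_prop
      exact DifferentiableAt.comp z h2 h3
    · exact hVt z h0 h1
  have hgrow : ∀ z : ℂ, 0 ≤ z.re → z.re ≤ 1 / 2 → B ≤ |z.im| →
      ‖f z‖ ≤ Real.exp ((2 * C) * |z.im|) := by
    intro z h0 h1 h2
    have hz : z.im ≠ 0 := by
      intro h
      rw [h, abs_zero] at h2
      linarith
    obtain ⟨h3, h4⟩ := hkey z h0 h1 hz
    have h5 := hCB (z - x) (by
      rw [Complex.sub_re, Complex.ofReal_re, abs_le]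
      constructor <;> linarith) (by
      have : (z - x).im = z.im := by simp
      rw [this]; exact h2)
    have h6 := hCB (z + x) (by
      rw [Complex.add_re, Complex.ofReal_re, abs_le]
      constructor <;> linarith) (by
      rw [him]; exact h2)
    have e1 : (z - x).im = z.im := by simp
    rw [e1] at h5
    rw [him] at h6
    rw [h4, div_le_iff₀ (norm_pos_iff.2 h3)]
    calc ‖V m l n (z - x)‖ ≤ Real.exp (C * |z.im|) := h5.2
      _ = Real.exp (2 * C * |z.im|) * Real.exp (-(C * |z.im|)) := by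
          rw [← Real.exp_add]
          congr 1
          ring
      _ ≤ Real.exp (2 * C * |z.im|) * ‖V m l n (z + x)‖ :=
          mul_le_mul_of_nonneg_left h6.1 (Real.exp_pos _).le
  have hb0 : ∀ z : ℂ, z.re = 0 → z.im ≠ 0 → ‖f z‖ ≤ 1 := by
    intro z h0 h1
    obtain ⟨h3, h4⟩ := hkey z (by rw [h0]) (by rw [h0]; norm_num) h1
    rw [h4, div_le_one (norm_pos_iff.2 h3)]
    have e1 : z - x = ⟨-x, z.im⟩ := by
      apply Complex.ext <;> simp [h0]
    have e2 : z + x = ⟨x, z.im⟩ := by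
      apply Complex.ext <;> simp [h0]
    rw [e1, e2, auxMid_refl]
  have hb1 : ∀ z : ℂ, z.re = 1 / 2 → z.im ≠ 0 → ‖f z‖ ≤ 1 := by
    intro z h0 h1
    obtain ⟨h3, h4⟩ := hkey z (by rw [h0]; norm_num) (by rw [h0]) h1
    rw [h4, div_le_one (norm_pos_iff.2 h3)]
    have h5 := hH ⟨x, z.im⟩ h1 hx.le (by
      change x ≤ XX m l n + l - 1 / 2
      linarith)
    have e1 : z - x = ⟨-(x - 1 / 2), z.im⟩ := by
      apply Complex.ext
      · rw [Complex.sub_re, Complex.ofReal_re, h0]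
        ring
      · simp
    have e2 : z + x = (⟨x, z.im⟩ : ℂ) + 1 / 2 := by
      apply Complex.ext
      · rw [Complex.add_re, Complex.ofReal_re, h0, Complex.add_re]
        norm_num
        ring
      · simp
    have e3 : (⟨x, z.im⟩ : ℂ) - 1 / 2 = ⟨x - 1 / 2, z.im⟩ := by
      apply Complex.ext
      · rw [Complex.sub_re]
        norm_num
      · simp
    rw [e1, auxMid_refl, e2, ← e3]
    exact h5
  have hfin := PL_strip (b := 1 / 2) (by norm_num) hdiff hgrow hb0 hb1 ⟨ε, y⟩ hε hε1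
  obtain ⟨h3, h4⟩ := hkey ⟨ε, y⟩ hε hε1 hy
  rw [h4, div_le_one (norm_pos_iff.2 h3)] at hfin
  have e1 : (⟨ε, y⟩ : ℂ) - x = ⟨-(x - ε), y⟩ := by
    apply Complex.ext
    · rw [Complex.sub_re, Complex.ofReal_re]
      ring
    · simp
  have e2 : (⟨ε, y⟩ : ℂ) + x = ⟨x + ε, y⟩ := by
    apply Complex.ext
    · rw [Complex.add_re, Complex.ofReal_re]
      ring
    · simp
  rw [e1, auxMid_refl, e2] at hfin
  exact hfin

end Pool.Agent.Helper95.CDD
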