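import Pool.Agent.Helper95.CDD.Defs
import Pool.Agent.Helper95.CDD.J1
import Pool.Agent.Helper95.CDD.J5

set_option autoImplicit false

open Polynomial

namespace Pool.Agent.Helper95.CDD

theorem auxEdge_ne (m : ℕ) {l : ℝ} (hl : 1 / 2 < l) (n : ℕ)
    (hX : l < XX m l n)
    (hH : ∀ w : ℂ, w.im ≠ 0 → 0 ≤ w.re → w.re ≤ XX m l n + l - 1 / 2 →
      ‖V m l n (w - 1 / 2)‖ ≤ ‖V m l n (w + 1 / 2)‖) (y : ℝ) (hy : y ≠ 0) :
    ‖(⟨-l, -y⟩ : ℂ)‖ * ‖Vt m l n ⟨XX m l n + l - 1, y⟩‖ ≤ ‖Vt m l n ⟨XX m l n + l, y⟩‖ := by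
  set X := XX m l n with hXdef
  have h1 := hH ⟨X + l - 1 / 2, y⟩ hy (by show 0 ≤ X + l - 1 / 2; linarith) (le_refl _)
  have e1 : (⟨X + l - 1 / 2, y⟩ : ℂ) - 1 / 2 = ⟨X + l - 1, y⟩ := by
    apply Complex.ext
    · simp; ring
    · simp
  have e2 : (⟨X + l - 1 / 2, y⟩ : ℂ) + 1 / 2 = ⟨X + l, y⟩ := by
    apply Complex.ext
    · simp
    · simp
  rw [e1, e2] at h1
  have hne : ∀ (a : ℝ) (k : ℕ), (⟨a, y⟩ : ℂ) ≠ ((X : ℝ) : ℂ) + k := by
    intro a k h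
    apply hy
    have := congrArg Complex.im h
    simpa using this
  rw [V_eq m l n _ (hne _), V_eq m l n _ (hne _)] at h1
  have e3 : ((X : ℝ) : ℂ) - ⟨X + l, y⟩ = ⟨-l, -y⟩ := by
    apply Complex.ext
    · simp
    · simp
  have e4 : ((X : ℝ) : ℂ) - ⟨X + l - 1, y⟩ = ⟨-l, -y⟩ + 1 := by
    apply Complex.ext
    · simp; ring
    · simp
  have hs0 : (⟨-l, -y⟩ : ℂ) ≠ 0 := by
    intro h
    apply hy
    have := congrArg Complex.im h
    simpa using this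
  rw [← hXdef, e3, e4, Complex.Gamma_add_one _ hs0, norm_mul, norm_mul, norm_mul] at h1
  have hG : Complex.Gamma ⟨-l, -y⟩ ≠ 0 := by
    apply Complex.Gamma_ne_zero
    intro k h
    apply hy
    have := congrArg Complex.im h
    simpa using this
  have hGp : 0 < ‖Complex.Gamma ⟨-l, -y⟩‖ := norm_pos_iff.2 hG
  have h2 : ‖Complex.Gamma ⟨-l, -y⟩‖ * (‖(⟨-l, -y⟩ : ℂ)‖ * ‖Vt m l n ⟨X + l - 1, y⟩‖) ≤
      ‖Complex.Gamma ⟨-l, -y⟩‖ * ‖Vt m l n ⟨X + l, y⟩‖ := by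
    calc _ = ‖(⟨-l, -y⟩ : ℂ)‖ * ‖Complex.Gamma ⟨-l, -y⟩‖ * ‖Vt m l n ⟨X + l - 1, y⟩‖ := by ring
      _ ≤ _ := h1
  exact le_of_mul_le_mul_left h2 hGp

theorem auxEdge_curve (a : ℝ) : Continuous (fun y : ℝ => (⟨a, y⟩ : ℂ)) := by
  have h : (fun y : ℝ => (⟨a, y⟩ : ℂ)) = fun y : ℝ => (a : ℂ) + y * Complex.I := by
    funext y
    apply Complex.ext
    · simp
    · simp
  rw [h]
  fun_prop

theorem edge (m : ℕ) {l : ℝ} (hl : 1 / 2 < l) (hs : ∀ k : ℤ, 2 * l ≠ k) (n : ℕ)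
    (hX : l < XX m l n) (hzf : ∀ w : ℂ, 0 < w.re → w.re < XX m l n + l → Vt m l n w ≠ 0)
    (hH : ∀ w : ℂ, w.im ≠ 0 → 0 ≤ w.re → w.re ≤ XX m l n + l - 1 / 2 →
      ‖V m l n (w - 1 / 2)‖ ≤ ‖V m l n (w + 1 / 2)‖) (y : ℝ) (hy : y ≠ 0) :
    ‖V m l n ⟨XX m l n - l, y⟩‖ ≤ ‖V m l n ⟨XX m l n + l, y⟩‖ := by
  set X := XX m l n with hXdef
  set j : ℕ := ⌊2 * l⌋₊ with hj
  have hj1 : 1 ≤ j := by
    rw [hj]
    apply Nat.le_floor
    push_cast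
    linarith
  have hj1' : (1 : ℝ) ≤ j := by exact_mod_cast hj1
  have hj2 : (j : ℝ) ≤ 2 * l := Nat.floor_le (by linarith)
  have hj3 : 2 * l < (j : ℝ) + 1 := Nat.lt_floor_add_one _
  have hchain : ∀ i : ℕ, i ≤ j → ‖V m l n ⟨X + l - i, y⟩‖ ≤ ‖V m l n ⟨X + l, y⟩‖ := by
    intro i
    induction i with
    | zero => intro _; simp
    | succ i ih =>
      intro hi
      have h0 := ih (by omega)
      have hi' : (i : ℝ) + 1 ≤ j := by exact_mod_cast hi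
      have hi0 : (0 : ℝ) ≤ i := Nat.cast_nonneg i
      have h1 := hH ⟨X + l - i - 1 / 2, y⟩ hy (by show 0 ≤ X + l - i - 1 / 2; linarith)
        (by show X + l - i - 1 / 2 ≤ X + l - 1 / 2; linarith)
      have e1 : (⟨X + l - i - 1 / 2, y⟩ : ℂ) - 1 / 2 = ⟨X + l - ((i + 1 : ℕ) : ℝ), y⟩ := by
        apply Complex.ext
        · simp; ring
        · simp
      have e2 : (⟨X + l - i - 1 / 2, y⟩ : ℂ) + 1 / 2 = ⟨X + l - i, y⟩ := by
        apply Complex.ext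
        · simp
        · simp
      rw [e1, e2] at h1
      exact h1.trans h0
  have hmid := mid_step m hl hs n hX hzf hH (X - j / 2) ((2 * l - j) / 2) y (by linarith)
    (by rw [← hXdef]; linarith) (by rw [← hXdef]; linarith) (by linarith) (by linarith) hy
  have e3 : X - (j : ℝ) / 2 - (2 * l - j) / 2 = X - l := by ring
  have e4 : X - (j : ℝ) / 2 + (2 * l - j) / 2 = X + l - j := by ring
  rw [e3, e4] at hmid
  exact hmid.trans (hchain j (le_refl _))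


theorem edge_ne (m : ℕ) {l : ℝ} (hl : 1 / 2 < l) (hs : ∀ k : ℤ, 2 * l ≠ k) (n : ℕ)
    (hX : l < XX m l n) (hzf : ∀ w : ℂ, 0 < w.re → w.re < XX m l n + l → Vt m l n w ≠ 0)
    (hH : ∀ w : ℂ, w.im ≠ 0 → 0 ≤ w.re → w.re ≤ XX m l n + l - 1 / 2 →
      ‖V m l n (w - 1 / 2)‖ ≤ ‖V m l n (w + 1 / 2)‖) (w : ℂ) (hw : w.re = XX m l n + l) :
    Vt m l n w ≠ 0 := by
  set X := XX m l n with hXdef
  have key : ∀ y : ℝ, ‖(⟨-l, -y⟩ : ℂ)‖ * ‖Vt m l n ⟨X + l - 1, y⟩‖ ≤ ‖Vt m l n ⟨X + l, y⟩‖ := by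
    intro y
    by_cases hy : y = 0
    · subst hy
      have c1 : ContinuousAt (fun y : ℝ => ‖(⟨-l, -y⟩ : ℂ)‖) 0 :=
        (((auxEdge_curve (-l)).comp continuous_neg).norm).continuousAt
      have c2 : ContinuousAt (fun y : ℝ => ‖Vt m l n ⟨X + l - 1, y⟩‖) 0 := by
        have h1 : ContinuousAt (Vt m l n) ⟨X + l - 1, 0⟩ :=
          (Vt_differentiableAt m (by linarith) n _ (Or.inr ⟨by
            show -X < X + l - 1
            linarith, by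
            show X + l - 1 < X + 2 * l
            linarith⟩)).continuousAt
        exact (ContinuousAt.comp (f := fun y : ℝ => (⟨X + l - 1, y⟩ : ℂ)) h1
          (auxEdge_curve _).continuousAt).norm
      have c3 : ContinuousAt (fun y : ℝ => ‖Vt m l n ⟨X + l, y⟩‖) 0 := by
        have h1 : ContinuousAt (Vt m l n) ⟨X + l, 0⟩ :=
          (Vt_differentiableAt m (by linarith) n _ (Or.inr ⟨by
            show -X < X + l
            linarith, by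
            show X + l < X + 2 * l
            linarith⟩)).continuousAt
        exact (ContinuousAt.comp (f := fun y : ℝ => (⟨X + l, y⟩ : ℂ)) h1
          (auxEdge_curve _).continuousAt).norm
      have t1 : Filter.Tendsto (fun y : ℝ => ‖(⟨-l, -y⟩ : ℂ)‖ * ‖Vt m l n ⟨X + l - 1, y⟩‖)
          (nhdsWithin 0 {0}ᶜ) (nhds (‖(⟨-l, -0⟩ : ℂ)‖ * ‖Vt m l n ⟨X + l - 1, 0⟩‖)) :=
        (c1.mul c2).tendsto.mono_left nhdsWithin_le_nhds
      have t2 : Filter.Tendsto (fun y : ℝ => ‖Vt m l n ⟨X + l, y⟩‖)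
          (nhdsWithin 0 {0}ᶜ) (nhds (‖Vt m l n ⟨X + l, 0⟩‖)) :=
        c3.tendsto.mono_left nhdsWithin_le_nhds
      refine le_of_tendsto_of_tendsto t1 t2 ?_
      filter_upwards [self_mem_nhdsWithin] with y hy
      exact auxEdge_ne m hl n hX hH y hy
    · exact auxEdge_ne m hl n hX hH y hy
  have hwe : w = ⟨X + l, w.im⟩ := Complex.ext hw rfl
  rw [hwe]
  intro h0
  have h1 := key w.im
  rw [h0, norm_zero] at h1
  have h2 : Vt m l n ⟨X + l - 1, w.im⟩ ≠ 0 := by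
    apply hzf
    · show 0 < X + l - 1
      linarith
    · show X + l - 1 < X + l
      linarith
  have h3 : (⟨-l, -w.im⟩ : ℂ) ≠ 0 := by
    intro h
    have := congrArg Complex.re h
    simp at this
    linarith
  have h4 : 0 < ‖(⟨-l, -w.im⟩ : ℂ)‖ * ‖Vt m l n ⟨X + l - 1, w.im⟩‖ :=
    mul_pos (norm_pos_iff.2 h3) (norm_pos_iff.2 h2)
  linarith

end Pool.Agent.Helper95.CDD
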