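import Pool.Agent.Helper95.CDD.Defs
import Pool.Agent.Helper95.CDD.J1
import Pool.Agent.Helper95.CDD.J3c
import Pool.Agent.Helper95.CDD.J4
import Pool.Agent.Helper95.CDD.J6

set_option autoImplicit false

open Polynomial

namespace Pool.Agent.Helper95.CDD

theorem auxLL_norm (m : ℕ) (l : ℝ) (n : ℕ) (z : ℂ) (hz : z.im ≠ 0) :
    ‖psi m l n z‖ = ‖V m l n (z - (l : ℂ))‖ / ‖V m l n (z + (l : ℂ))‖ := by
  have h1 : V m l n (z + (l : ℂ)) =
      Complex.Gamma ((XX m l n : ℝ) - (z + (l : ℂ))) * Vt m l n (z + (l : ℂ)) := by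
    apply V_eq
    intro k hk
    have := congrArg Complex.im hk
    simp at this
    exact hz this
  have h2 : psi m l n z = V m l n (z - (l : ℂ)) / V m l n (z + (l : ℂ)) := by
    rw [h1, psi, div_eq_mul_inv, div_eq_mul_inv, mul_inv]
    ring
  rw [h2, norm_div]

theorem LL_of_edge (m : ℕ) {l : ℝ} (hl : 1 / 2 < l) (hs : ∀ k : ℤ, 2 * l ≠ k) (n : ℕ)
    (hX : l < XX m l n) (hzf : ∀ w : ℂ, 0 < w.re → w.re < XX m l n + l → Vt m l n w ≠ 0)
    (hH : ∀ w : ℂ, w.im ≠ 0 → 0 ≤ w.re → w.re ≤ XX m l n + l - 1 / 2 →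
      ‖V m l n (w - 1 / 2)‖ ≤ ‖V m l n (w + 1 / 2)‖) : LL m l n := by
  have hl0 : 0 < l := by linarith
  have hX0 : 0 < XX m l n := by linarith
  have hVt : ∀ z : ℂ, 0 ≤ z.re → z.re ≤ XX m l n → Vt m l n (z + (l : ℂ)) ≠ 0 := by
    intro z h0 h1
    rcases lt_or_eq_of_le h1 with h | h
    · apply hzf
      · simp; linarith
      · simp; linarith
    · apply edge_ne m hl hs n hX hzf hH
      simp [h]
  have hnm : n ≤ m := by
    have h1 : l < ((m : ℝ) + 1) / 2 - n * l := hX
    have h2 : (n : ℝ) * (1 / 2) ≤ n * l := by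
      apply mul_le_mul_of_nonneg_left hl.le (Nat.cast_nonneg n)
    have h3 : (n : ℝ) < m := by linarith
    exact_mod_cast h3.le
  obtain ⟨C, B, hC, hB, hg⟩ := V_growth m hl0 hs n hnm (XX m l n + l + 1)
  intro z hz0 hz1
  refine ⟨hVt z hz0.le hz1.le, ?_⟩
  apply PL_strict (b := XX m l n) hX0 (f := psi m l n) (C := 2 * C) (B := B) (w := ((XX m l n - l : ℝ) : ℂ))
  · intro z h0 h1
    have d1 : DifferentiableAt ℂ (fun z : ℂ => (Complex.Gamma ((XX m l n : ℝ) - (z + (l : ℂ))))⁻¹) z := by
      have hd := Complex.differentiable_one_div_Gamma.differentiableAt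
        (x := ((XX m l n : ℝ) : ℂ) - (z + (l : ℂ)))
      have he : DifferentiableAt ℂ (fun z : ℂ => ((XX m l n : ℝ) : ℂ) - (z + (l : ℂ))) z := by
        fun_prop
      exact DifferentiableAt.comp (g := fun s : ℂ => (Complex.Gamma s)⁻¹)
        (f := fun z : ℂ => ((XX m l n : ℝ) : ℂ) - (z + (l : ℂ))) z hd he
    have d2 : DifferentiableAt ℂ (fun z : ℂ => V m l n (z - (l : ℂ))) z := by
      have hd := V_differentiableAt m hl0 n (z - (l : ℂ)) (by
        right
        rw [abs_lt]
        constructor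
        · simp; linarith
        · simp; linarith)
      have he : DifferentiableAt ℂ (fun z : ℂ => z - (l : ℂ)) z := by
        fun_prop
      exact hd.comp z he
    have d3 : DifferentiableAt ℂ (fun z : ℂ => Vt m l n (z + (l : ℂ))) z := by
      have hd := Vt_differentiableAt m hl0 n (z + (l : ℂ)) (by
        right
        constructor
        · simp; linarith
        · simp; linarith)
      have he : DifferentiableAt ℂ (fun z : ℂ => z + (l : ℂ)) z := by
        fun_prop
      exact hd.comp z he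
    exact (d1.mul d2).div d3 (hVt z h0 h1)
  · intro z h0 h1 hy
    have hy0 : z.im ≠ 0 := by
      intro h
      rw [h, abs_zero] at hy
      linarith
    rw [auxLL_norm m l n z hy0]
    have a1 := (hg (z - (l : ℂ)) (by
      rw [abs_le]
      constructor
      · simp; linarith
      · simp; linarith) (by simpa using hy)).2
    have a2 := (hg (z + (l : ℂ)) (by
      rw [abs_le]
      constructor
      · simp; linarith
      · simp; linarith) (by simpa using hy)).1
    have e1 : (z - (l : ℂ)).im = z.im := by simp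
    have e2 : (z + (l : ℂ)).im = z.im := by simp
    rw [e1] at a1
    rw [e2] at a2
    have hp : 0 < ‖V m l n (z + (l : ℂ))‖ := lt_of_lt_of_le (Real.exp_pos _) a2
    rw [div_le_iff₀ hp]
    calc ‖V m l n (z - (l : ℂ))‖ ≤ Real.exp (C * |z.im|) := a1
      _ = Real.exp (2 * C * |z.im|) * Real.exp (-(C * |z.im|)) := by
        rw [← Real.exp_add]; congr 1; ring
      _ ≤ Real.exp (2 * C * |z.im|) * ‖V m l n (z + (l : ℂ))‖ := by
        apply mul_le_mul_of_nonneg_left a2 (Real.exp_pos _).le
  · intro z h0 hy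
    rw [auxLL_norm m l n z hy]
    have e : z - (l : ℂ) = -(starRingEnd ℂ (z + (l : ℂ))) := by
      apply Complex.ext
      · simp [h0]
      · simp
    rw [e, norm_V_symm]
    exact div_self_le_one _
  · intro z h1 hy
    rw [auxLL_norm m l n z hy]
    have h := edge m hl hs n hX hzf hH z.im hy
    have e1 : z - (l : ℂ) = ⟨XX m l n - l, z.im⟩ := by
      apply Complex.ext
      · simp [h1]
      · simp
    have e2 : z + (l : ℂ) = ⟨XX m l n + l, z.im⟩ := by
      apply Complex.ext
      · simp [h1]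
      · simp
    rw [← e1, ← e2] at h
    exact div_le_one_of_le₀ h (norm_nonneg _)
  · simp; linarith
  · simp; linarith
  · rw [psi]
    have : ((XX m l n : ℝ) : ℂ) - (((XX m l n - l : ℝ) : ℂ) + (l : ℂ)) = 0 := by
      push_cast; ring
    rw [this, Complex.Gamma_zero]
    simp
  · exact hz0
  · exact hz1

end Pool.Agent.Helper95.CDD
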