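import Pool.Agent.Helper95.CDD.Defs
import Pool.Agent.Helper95.CDD.J2
import Pool.Agent.Helper95.CDD.J7
import Pool.Agent.Helper95.CDD.J8
import Pool.Agent.Helper95.CDD.J9
import Pool.Agent.Helper95.CDD.J10
import Pool.Agent.Helper95.CDD.J13
import Pool.Agent.Helper95.CDD.J14

set_option autoImplicit false

open Polynomial

namespace Pool.Agent.Helper95.CDD

theorem LL_all {l : ℝ} (hl : 1 / 2 < l) (hs : ∀ k : ℤ, 2 * l ≠ k) (n : ℕ) :
    ∀ m : ℕ, l < XX m l n → LL m l n := by
  have hl0 : 0 < l := by linarith
  induction n with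
  | zero =>
    intro m hX
    obtain _ | m := m
    · exfalso
      unfold XX at hX
      norm_num at hX
      linarith
    · refine LL_of_edge _ hl hs 0 hX ?_ ?_
      · intro w hw _
        have : (0 : ℝ) < XX (m + 1) l 0 := by linarith
        simp only [Vt]
        refine mul_ne_zero (Complex.exp_ne_zero _) (Complex.Gamma_ne_zero_of_re_pos ?_)
        simp only [Complex.add_re, Complex.ofReal_re]
        linarith
      · intro w hw hw0 _
        exact H_zero m l w hw hw0
  | succ n ih =>
    intro m hX
    have h1 : XX m l (n + 1) = XX m l n - l := XX_succ m l n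
    obtain _ | m := m
    · exfalso
      unfold XX at hX
      push_cast at hX
      nlinarith [show (0 : ℝ) ≤ n from n.cast_nonneg]
    · have h2 : XX (m + 1) l (n + 1) = XX m l n + 1 / 2 - l := XX_half m l n
      have hL1 : LL (m + 1) l n := ih (m + 1) (by linarith)
      have hX2 : l < XX m l n := by linarith
      have hL2 : LL m l n := ih m hX2
      refine LL_of_edge _ hl hs (n + 1) hX ?_ ?_
      · intro w hw0 hw1
        exact Vt_succ_ne hL1 w hw0 (by linarith)
      · intro w hw hw0 hw1
        exact H_succ m hl0 n hX2 hL2 w hw hw0 (by linarith)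

theorem Tame.good {l : ℝ} {P : ℝ[X]} (h : Tame l P) : Good P := by
  intro z hz
  rcases h z hz with h | h
  · exact Or.inr h
  · exact Or.inl h.1

theorem generic_main (N : ℕ) {l : ℝ} (hl : 1 / 2 < l) (hs : ∀ k : ℤ, 2 * l ≠ k)
    (hP : ∀ n ≤ 2 * N + 1, (PP N l n).eval l ≠ 0) (n : ℕ) (hn : n ≤ 2 * N + 1) :
    Good (PP N l n) := by
  have hl0 : 0 < l := by linarith
  have key : ∀ n, n ≤ 2 * N + 1 →
      (0 < XX (2 * N + 1) l n ∧ (∀ j < n, LL (2 * N + 1) l j) ∧ AA N l n) ∨ Tame l (PP N l n) := by
    intro n
    induction n with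
    | zero =>
      intro _
      left
      refine ⟨?_, ?_, AA_zero N l⟩
      · unfold XX
        push_cast
        nlinarith [show (0 : ℝ) ≤ N from N.cast_nonneg]
      · intro j hj
        omega
    | succ n ih =>
      intro hn
      have hfacts := PP_facts N hl0 n (by omega)
      have hdeg : 1 ≤ (PP N l n).natDegree := by
        rw [hfacts.1]; omega
      have hpar : (PP N l n).comp (-X) = (-1) ^ (PP N l n).natDegree * PP N l n := by
        rw [hfacts.1]; exact hfacts.2.2.2
      have htame : Tame l (PP N l n) → Tame l (PP N l (n + 1)) := by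
        intro h z hz
        exact Or.inl (Tame.step hl0 hdeg hpar h z hz)
      rcases ih (by omega) with ⟨hX, hL, hA⟩ | hT
      · rcases le_or_gt (XX (2 * N + 1) l n) l with hXl | hXl
        · exact Or.inr (htame (AA_tame N hl0 n (by omega) hX hXl hL hA))
        · left
          have hLn : LL (2 * N + 1) l n := LL_all hl hs n _ hXl
          have hX' : XX (2 * N + 1) l (n + 1) = XX (2 * N + 1) l n - l := XX_succ _ _ _
          have hXn1 : 0 < XX (2 * N + 1) l (n + 1) := by rw [hX']; linarith
          have hL' : ∀ j < n + 1, LL (2 * N + 1) l j := by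
            intro j hj
            rcases Nat.lt_succ_iff_lt_or_eq.mp hj with h | h
            · exact hL j h
            · rw [h]; exact hLn
          refine ⟨hXn1, hL', ?_⟩
          unfold AA
          rw [hX']
          refine count_step (PP N l n) hl0 hdeg hfacts.2.2.1 hpar hA.1 (hP n (by omega)) hXl
            (Φ := Phi (2 * N + 1) l n) (Φ' := Phi (2 * N + 1) l (n + 1)) ?_ ?_ ?_ ?_ ?_ ?_ hA.2
          · refine (Phi_continuousOn _ hl0 n hX hL).mono ?_
            intro x hx
            exact ⟨hx.1, by linarith [hx.2]⟩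
          · refine (Phi_continuousOn _ hl0 (n + 1) hXn1 hL').mono ?_
            intro x hx
            exact ⟨hx.1, by rw [hX']; linarith [hx.2]⟩
          · rw [← hX']; exact Phi_end _ _ _
          · intro x hx0 hx1
            exact P_cos N hl0 n hX hL x hx0 hx1
          · intro x hx0 hx1
            exact P_cos N hl0 (n + 1) hXn1 hL' x hx0 (by rw [hX']; exact hx1)
          · intro x hx0 hx1
            exact Phi_step _ n hLn x hx0 (by linarith)
      · exact Or.inr (htame hT)
  rcases key n hn with h | h
  · exact h.2.2.1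
  · exact h.good

end Pool.Agent.Helper95.CDD
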