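import Pool.Agent.Helper95.CDD.Defs
import Pool.Agent.Helper95.CDD.J10
import Pool.Agent.Helper95.CDD.J14
import Pool.Agent.Helper95.CDD.Gen

set_option autoImplicit false

open Polynomial

namespace Pool.Agent.Helper95.CDD

theorem auxGen_del_eval (t x : ℝ) (P : ℝ[X]) :
    (del t P).eval x = P.eval (x + t) - P.eval (x - t) := by
  unfold del
  simp [eval_comp]

theorem auxGen_del_aeval (t : ℝ) (z : ℂ) (P : ℝ[X]) :
    aeval z (del t P) = aeval (z + t) P - aeval (z - t) P := by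
  unfold del
  simp [aeval_comp]

theorem auxGen_poly (N n : ℕ) : ∀ c : ℝ, ∃ F : ℝ[X], ∀ l : ℝ, F.eval l = (PP N l n).eval (c * l) := by
  induction n with
  | zero =>
    intro c
    refine ⟨∏ k ∈ Finset.Icc (-(N : ℤ)) (N : ℤ), (C c * X - C (k : ℝ)), fun l => ?_⟩
    simp [PP, eval_prod]
  | succ n ih =>
    intro c
    obtain ⟨F1, h1⟩ := ih (c + 1)
    obtain ⟨F2, h2⟩ := ih (c - 1)
    refine ⟨F1 - F2, fun l => ?_⟩
    rw [eval_sub, h1, h2, PP, auxGen_del_eval]
    congr 2 <;> ring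

theorem auxGen_root0 (N : ℕ) (l : ℝ) (z : ℂ) (hz : aeval z (PP N l 0) = 0) :
    ∃ k : ℤ, |k| ≤ N ∧ z = k := by
  rw [PP, map_prod, Finset.prod_eq_zero_iff] at hz
  obtain ⟨k, hk, hz⟩ := hz
  refine ⟨k, abs_le.2 (Finset.mem_Icc.1 hk), ?_⟩
  simp only [map_sub, aeval_X, aeval_C] at hz
  have := sub_eq_zero.1 hz
  rw [this]
  simp

theorem auxGen_tame (N : ℕ) {l : ℝ} (hl : 0 < l) (hN : (N : ℝ) < l) (n : ℕ) (hn : n ≤ 2 * N + 1) :
    Tame l (PP N l n) ∧ (1 ≤ n → ∀ z : ℂ, aeval z (PP N l n) = 0 → z.re = 0) := by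
  induction n with
  | zero =>
    refine ⟨?_, fun h => absurd h (by norm_num)⟩
    intro z hz
    obtain ⟨k, hk, rfl⟩ := auxGen_root0 N l z hz
    right
    refine ⟨by simp, ?_⟩
    have h1 : |((k : ℂ)).re| = |(k : ℝ)| := by simp
    rw [h1]
    have h2 : |(k : ℝ)| ≤ N := by exact_mod_cast hk
    linarith
  | succ n ih =>
    have h0 := ih (by omega)
    obtain ⟨f1, -, -, f4⟩ := PP_facts N hl n (by omega)
    have h1 : ∀ z : ℂ, aeval z (PP N l (n+1)) = 0 → z.re = 0 := by
      refine Tame.step hl (by rw [f1]; omega) ?_ h0.1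
      rw [f1]; exact f4
    exact ⟨fun z hz => Or.inl (h1 z hz), fun _ => h1⟩

theorem auxGen_ne (N : ℕ) {l : ℝ} (hl : 0 < l) (hN : (N : ℝ) < l) (n : ℕ) (hn : n ≤ 2 * N + 1) :
    (PP N l n).eval l ≠ 0 := by
  intro h0
  have h1 : aeval (l : ℂ) (PP N l n) = 0 := by
    have : aeval (l : ℂ) (PP N l n) = (((PP N l n).eval l : ℝ) : ℂ) := by
      have := aeval_algebraMap_apply ℂ l (PP N l n)
      simpa using this
    rw [this, h0]; simp
  rcases Nat.eq_zero_or_pos n with rfl | hn0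
  · obtain ⟨k, hk, hlk⟩ := auxGen_root0 N l _ h1
    have h2 : l = (k : ℝ) := by exact_mod_cast hlk
    have h3 : |(k : ℝ)| ≤ N := by exact_mod_cast hk
    have := le_abs_self (k : ℝ)
    linarith
  · have := (auxGen_tame N hl hN n hn).2 hn0 _ h1
    simp at this
    linarith

/-- the set of bad parameters is finite (apart from half integers) -/
theorem exists_generic (N : ℕ) : {l : ℝ | 0 < l ∧ ∃ n ≤ 2 * N + 1, (PP N l n).eval l = 0}.Finite := by
  choose F hF using fun n => auxGen_poly N n 1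
  have hF0 : ∀ n ≤ 2 * N + 1, F n ≠ 0 := by
    intro n hn h0
    have h1 := hF n (N + 1)
    rw [h0, eval_zero, one_mul] at h1
    exact auxGen_ne N (l := N + 1) (by positivity) (by linarith) n hn h1.symm
  refine ((Finset.range (2 * N + 2)).finite_toSet.biUnion
    (t := fun n => {l : ℝ | n ≤ 2 * N + 1 ∧ (F n).eval l = 0}) ?_).subset ?_
  · intro n _
    by_cases hn : n ≤ 2 * N + 1
    · refine ((F n).roots.toFinset.finite_toSet).subset ?_
      intro l hl
      simp only [Finset.mem_coe, Multiset.mem_toFinset]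
      exact (mem_roots (hF0 n hn)).2 hl.2
    · convert Set.finite_empty
      ext l
      simp [hn]
  · rintro l ⟨-, n, hn, h⟩
    simp only [Set.mem_iUnion]
    refine ⟨n, by simpa using by omega, hn, ?_⟩
    rw [hF, one_mul]
    exact h

theorem auxGen_cont (N n : ℕ) : ∀ (c w : ℂ), Continuous fun t : ℝ => aeval (w + c * t) (PP N t n) := by
  induction n with
  | zero =>
    intro c w
    have h : (fun t : ℝ => aeval (w + c * t) (PP N t 0)) = fun t : ℝ =>
        aeval (w + c * t) (∏ k ∈ Finset.Icc (-(N : ℤ)) (N : ℤ), (X - C (k : ℝ)) : ℝ[X]) := rfl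
    rw [h]
    exact (Polynomial.continuous_aeval _).comp (by fun_prop)
  | succ n ih =>
    intro c w
    have h : (fun t : ℝ => aeval (w + c * t) (PP N t (n + 1))) = fun t : ℝ =>
        aeval (w + (c + 1) * t) (PP N t n) - aeval (w + (c - 1) * t) (PP N t n) := by
      ext t
      rw [PP, auxGen_del_aeval]
      congr 2 <;> ring
    rw [h]
    exact (ih _ _).sub (ih _ _)

theorem auxGen_prod {s : Multiset ℂ} {z : ℂ} {μ : ℝ} (hμ : 0 ≤ μ) (h : ∀ a ∈ s, μ ≤ ‖z - a‖) :
    μ ^ s.card ≤ ‖(s.map (z - ·)).prod‖ := by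
  induction s using Multiset.induction_on with
  | empty => simp
  | cons a s ih =>
    rw [Multiset.card_cons, Multiset.map_cons, Multiset.prod_cons, norm_mul, pow_succ']
    exact mul_le_mul (h a (Multiset.mem_cons_self a s))
      (ih fun b hb => h b (Multiset.mem_cons_of_mem hb)) (pow_nonneg hμ _) (norm_nonneg _)

theorem auxGen_lower {P : ℝ[X]} (hP : 0 < P.leadingCoeff) {z : ℂ} {μ : ℝ} (hμ : 0 ≤ μ)
    (h : ∀ a : ℂ, aeval a P = 0 → μ ≤ ‖z - a‖) :
    P.leadingCoeff * μ ^ P.natDegree ≤ ‖aeval z P‖ := by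
  have hs : (P.map (algebraMap ℝ ℂ)).Splits := IsAlgClosed.splits _
  have hP0 : P ≠ 0 := by
    rintro rfl
    simp at hP
  rw [Splits.aeval_eq_prod_aroots hs, norm_mul]
  have h1 : P.natDegree = (P.aroots ℂ).card := by
    have := hs.natDegree_eq_card_roots
    rwa [natDegree_map] at this
  have h2 : ‖(algebraMap ℝ ℂ) P.leadingCoeff‖ = P.leadingCoeff := by
    simp [abs_of_pos hP]
  rw [h1, h2]
  refine mul_le_mul_of_nonneg_left (auxGen_prod hμ fun a ha => h a ?_) hP.le
  exact (mem_aroots.1 ha).2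

theorem closure_step (N n : ℕ) (hn : n ≤ 2 * N + 1) {l : ℝ} (hl : 0 < l)
    (h : ∀ ε > 0, ∃ t : ℝ, |t - l| < ε ∧ 0 < t ∧ Good (PP N t n)) : Good (PP N l n) := by
  intro z hz
  by_contra hcon
  rw [not_or] at hcon
  obtain ⟨him, hre⟩ := hcon
  set μ : ℝ := min |z.re| |z.im| with hμ
  have hμ0 : 0 < μ := lt_min (abs_pos.2 hre) (abs_pos.2 him)
  set c0 : ℝ := l ^ n * (2 * N + 1).factorial / (2 * N + 1 - n).factorial with hc0
  have hc0p : 0 < c0 := by positivity
  have hcont : Continuous fun t : ℝ => aeval z (PP N t n) := by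
    have := auxGen_cont N n 0 z
    simpa using this
  have hη : 0 < c0 * μ ^ (2 * N + 1 - n) := by positivity
  obtain ⟨ε1, hε1, hc⟩ := Metric.continuous_iff.1 hcont l _ hη
  obtain ⟨t, ht1, ht0, htg⟩ := h (min ε1 (l / 2)) (lt_min hε1 (by linarith))
  have h1 := hc t (by rw [Real.dist_eq]; exact ht1.trans_le (min_le_left _ _))
  rw [hz, dist_zero_right] at h1
  have h2 : l / 2 < t := by
    have := (abs_lt.1 (ht1.trans_le (min_le_right _ _))).1
    linarith
  obtain ⟨f1, f2, f3, -⟩ := PP_facts N ht0 n hn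
  have h3 : (PP N t n).leadingCoeff * μ ^ (PP N t n).natDegree ≤ ‖aeval z (PP N t n)‖ := by
    refine auxGen_lower f3 hμ0.le fun a ha => ?_
    rcases htg a ha with h4 | h4
    · calc μ ≤ |z.im| := min_le_right _ _
        _ = |(z - a).im| := by rw [Complex.sub_im, h4, sub_zero]
        _ ≤ ‖z - a‖ := Complex.abs_im_le_norm _
    · calc μ ≤ |z.re| := min_le_left _ _
        _ = |(z - a).re| := by rw [Complex.sub_re, h4, sub_zero]
        _ ≤ ‖z - a‖ := Complex.abs_re_le_norm _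
  rw [f1, f2] at h3
  have h5 : c0 ≤ (2 * t) ^ n * (2 * N + 1).factorial / (2 * N + 1 - n).factorial := by
    rw [hc0]
    gcongr
    linarith
  have h6 := mul_le_mul_of_nonneg_right h5 (pow_nonneg hμ0.le (2 * N + 1 - n))
  linarith

theorem large_main (N : ℕ) {l : ℝ} (hl : 1 / 2 < l) (n : ℕ) (hn : n ≤ 2 * N + 1) :
    Good (PP N l n) := by
  refine closure_step N n hn (by linarith) fun ε hε => ?_
  have hc1 : {t : ℝ | ∃ k : ℤ, 2 * t = k}.Countable := by
    refine (Set.countable_range (fun k : ℤ => (k : ℝ) / 2)).mono ?_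
    rintro t ⟨k, hk⟩
    exact ⟨k, by simp only; linarith⟩
  have hc := (exists_generic N).countable.union hc1
  have hd := hc.dense_compl ℝ
  obtain ⟨t, ht1, ht2⟩ := hd.inter_open_nonempty (Set.Ioo (max (l - ε) (1 / 2)) (l + ε)) isOpen_Ioo
    ⟨l, max_lt (by linarith) hl, by linarith⟩
  have ht3 : 1 / 2 < t := (le_max_right _ _).trans_lt ht1.1
  have ht4 : l - ε < t := (le_max_left _ _).trans_lt ht1.1
  refine ⟨t, abs_lt.2 ⟨by linarith, by linarith [ht1.2]⟩, by linarith, ?_⟩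
  simp only [Set.mem_compl_iff, Set.mem_union, Set.mem_setOf_eq, not_or, not_exists, not_and] at ht2
  exact generic_main N ht3 (fun k hk => ht2.2 k hk)
    (fun n hn h0 => ht2.1 (by linarith) n hn h0) n hn

end Pool.Agent.Helper95.CDD
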