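import Pool.Agent.Helper95.CDD.Defs

set_option autoImplicit false

open Polynomial

namespace Pool.Agent.Helper95.CDD

theorem auxMesh_eval (l : ℝ) (P : ℝ[X]) (x : ℝ) :
    (del l P).eval x = P.eval (x + l) - P.eval (x - l) := by
  simp [del]

theorem auxMesh_evalP (c : ℝ) (n : ℕ) (r : ℕ → ℝ) (x : ℝ) :
    (C c * ∏ j ∈ Finset.range n, (X - C (r j))).eval x = c * ∏ j ∈ Finset.range n, (x - r j) := by
  simp [eval_prod]

theorem auxMesh_mono {d : ℕ} {r : ℕ → ℝ} (hr : ∀ i < d, r i + 1 ≤ r (i + 1)) (j m : ℕ)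
    (h : j + m ≤ d) : r j + m ≤ r (j + m) := by
  induction m with
  | zero => simp
  | succ m ih =>
    have h1 := ih (by omega)
    have h2 := hr (j + m) (by omega)
    rw [← Nat.add_assoc]
    push_cast
    linarith

theorem auxMesh_le {d : ℕ} {r : ℕ → ℝ} (hr : ∀ i < d, r i + 1 ≤ r (i + 1)) {j k : ℕ}
    (h : j ≤ k) (hk : k ≤ d) : r j ≤ r k := by
  obtain ⟨m, rfl⟩ := Nat.exists_eq_add_of_le h
  have h1 := auxMesh_mono hr j m hk
  have h2 : (0 : ℝ) ≤ m := Nat.cast_nonneg m
  linarith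

theorem auxMesh_lt {d : ℕ} {r : ℕ → ℝ} (hr : ∀ i < d, r i + 1 ≤ r (i + 1)) {j k : ℕ}
    (h : j < k) (hk : k ≤ d) : r j + 1 ≤ r k := by
  obtain ⟨m, rfl⟩ := Nat.exists_eq_add_of_le (show j + 1 ≤ k from h)
  have h1 := auxMesh_mono hr (j + 1) m hk
  have h2 : (0 : ℝ) ≤ m := Nat.cast_nonneg m
  have h3 := hr j (by omega)
  linarith

theorem auxMesh_sign {d : ℕ} {r : ℕ → ℝ} (hr : ∀ i < d, r i + 1 ≤ r (i + 1)) {i : ℕ} (hi : i < d)
    {y : ℝ} (h1 : r i ≤ y) (h2 : y ≤ r (i + 1)) :
    0 ≤ (∏ j ∈ Finset.range (d + 1), (y - r j)) * (-1) ^ (d - i) := by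
  have hd : d + 1 = (i + 1) + (d - i) := by omega
  rw [hd, Finset.prod_range_add]
  have h3 : (∏ j ∈ Finset.range (d - i), (y - r (i + 1 + j))) * (-1) ^ (d - i) =
      ∏ j ∈ Finset.range (d - i), (r (i + 1 + j) - y) := by
    have h4 : ((-1 : ℝ)) ^ (d - i) = ∏ j ∈ Finset.range (d - i), (-1 : ℝ) := by simp
    rw [h4, ← Finset.prod_mul_distrib]
    apply Finset.prod_congr rfl
    intro j _
    ring
  rw [mul_assoc, h3]
  apply mul_nonneg
  · apply Finset.prod_nonneg
    intro j hj
    have hj' := Finset.mem_range.1 hj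
    have := auxMesh_le hr (show j ≤ i by omega) (by omega)
    linarith
  · apply Finset.prod_nonneg
    intro j hj
    have hj' := Finset.mem_range.1 hj
    have := auxMesh_le hr (show i + 1 ≤ i + 1 + j by omega) (by omega)
    linarith

theorem auxMesh_root {n : ℕ} {r : ℕ → ℝ} {y : ℝ}
    (h : ∏ j ∈ Finset.range n, (y - r j) = 0) : ∃ j < n, y = r j := by
  obtain ⟨j, hj, h1⟩ := Finset.prod_eq_zero_iff.1 h
  exact ⟨j, Finset.mem_range.1 hj, by linarith⟩

theorem auxMesh_zero_of {n j : ℕ} {r : ℕ → ℝ} {y : ℝ} (hj : j < n) (h : y = r j) :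
    ∏ j ∈ Finset.range n, (y - r j) = 0 :=
  Finset.prod_eq_zero (Finset.mem_range.2 hj) (by linarith)

theorem mesh_zero {l : ℝ} (hl : 0 < l) (hl1 : l ≤ 1 / 2) (d : ℕ) (r : ℕ → ℝ)
    (hr : ∀ i < d, r i + 1 ≤ r (i + 1)) (c : ℝ) (hc : 0 < c) (i : ℕ) (hi : i < d) :
    ∃ z : ℝ, r i + l ≤ z ∧ z ≤ r (i + 1) - l ∧
      (del l (C c * ∏ j ∈ Finset.range (d + 1), (X - C (r j)))).eval z = 0 := by
  have hgap := hr i hi
  have hle : r i + l ≤ r (i + 1) - l := by linarith
  set Q : ℝ[X] := del l (C c * ∏ j ∈ Finset.range (d + 1), (X - C (r j))) with hQ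
  have hcont : ContinuousOn (fun x => Q.eval x * (-1) ^ (d - i))
      (Set.Icc (r i + l) (r (i + 1) - l)) := by fun_prop
  have hQe : ∀ x, Q.eval x = c * ∏ j ∈ Finset.range (d + 1), (x + l - r j) -
      c * ∏ j ∈ Finset.range (d + 1), (x - l - r j) := by
    intro x
    rw [hQ, auxMesh_eval, auxMesh_evalP, auxMesh_evalP]
  have hL : 0 ≤ Q.eval (r i + l) * (-1) ^ (d - i) := by
    have h1 := auxMesh_sign hr hi (y := r i + l + l) (by linarith) (by linarith)
    rw [hQe, auxMesh_zero_of (y := r i + l - l) (show i < d + 1 by omega) (by ring), mul_zero,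
      sub_zero, mul_assoc]
    exact mul_nonneg hc.le h1
  have hR : Q.eval (r (i + 1) - l) * (-1) ^ (d - i) ≤ 0 := by
    have h1 := auxMesh_sign hr hi (y := r (i + 1) - l - l) (by linarith) (by linarith)
    rw [hQe, auxMesh_zero_of (y := r (i + 1) - l + l) (show i + 1 < d + 1 by omega) (by ring),
      mul_zero, zero_sub, neg_mul, mul_assoc]
    have h2 := mul_nonneg hc.le h1
    linarith
  obtain ⟨z, hz, hz0⟩ := intermediate_value_Icc' hle hcont (show (0 : ℝ) ∈ Set.Icc _ _ from ⟨hR, hL⟩)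
  refine ⟨z, hz.1, hz.2, ?_⟩
  have h3 : ((-1 : ℝ)) ^ (d - i) ≠ 0 := pow_ne_zero _ (by norm_num)
  exact (mul_eq_zero.1 hz0).resolve_right h3

theorem auxMesh_phi_gt {l t : ℝ} (hl : 0 < l) (ht : l < t) : 1 < |t + l| / |t - l| := by
  rw [abs_of_pos (by linarith), abs_of_pos (by linarith), one_lt_div (by linarith)]
  linarith

theorem auxMesh_phi_lt {l t : ℝ} (hl : 0 < l) (ht : t < -l) : |t + l| / |t - l| < 1 := by
  rw [abs_of_neg (by linarith), abs_of_neg (by linarith), div_lt_one (by linarith)]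
  linarith

theorem auxMesh_phi_anti1 {l s t : ℝ} (hl : 0 < l) (hs : l < s) (hst : s ≤ t) :
    |t + l| / |t - l| ≤ |s + l| / |s - l| := by
  rw [abs_of_pos (by linarith), abs_of_pos (by linarith), abs_of_pos (by linarith),
    abs_of_pos (by linarith), div_le_div_iff₀ (by linarith) (by linarith)]
  nlinarith

theorem auxMesh_phi_anti2 {l s t : ℝ} (hl : 0 < l) (hst : s ≤ t) (ht : t < -l) :
    |t + l| / |t - l| ≤ |s + l| / |s - l| := by
  rw [abs_of_neg (by linarith), abs_of_neg (by linarith), abs_of_neg (by linarith),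
    abs_of_neg (by linarith), div_le_div_iff₀ (by linarith) (by linarith)]
  nlinarith

theorem auxMesh_prod_one {l x : ℝ} {n : ℕ} {r : ℕ → ℝ}
    (h : ∏ j ∈ Finset.range n, (x + l - r j) = ∏ j ∈ Finset.range n, (x - l - r j))
    (h0 : ∏ j ∈ Finset.range n, (x + l - r j) ≠ 0) :
    ∏ j ∈ Finset.range n, (|(x - r j) + l| / |(x - r j) - l|) = 1 := by
  rw [Finset.prod_div_distrib, ← Finset.abs_prod, ← Finset.abs_prod]
  have h1 : ∏ j ∈ Finset.range n, (x - r j + l) = ∏ j ∈ Finset.range n, (x + l - r j) :=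
    Finset.prod_congr rfl (fun j _ => by ring)
  have h2 : ∏ j ∈ Finset.range n, (x - r j - l) = ∏ j ∈ Finset.range n, (x - l - r j) :=
    Finset.prod_congr rfl (fun j _ => by ring)
  rw [h1, h2, ← h]
  exact div_self (abs_ne_zero.2 h0)

theorem mesh_gap {l : ℝ} (hl : 0 < l) (hl1 : l ≤ 1 / 2) (d : ℕ) (r : ℕ → ℝ)
    (hr : ∀ i < d, r i + 1 ≤ r (i + 1)) (c : ℝ) (hc : 0 < c) (i : ℕ) (hi : i + 1 < d) (z z' : ℝ)
    (h1 : r i + l ≤ z) (h2 : z ≤ r (i + 1) - l) (h3 : r (i + 1) + l ≤ z')
    (h4 : z' ≤ r (i + 2) - l)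
    (hz : (del l (C c * ∏ j ∈ Finset.range (d + 1), (X - C (r j)))).eval z = 0)
    (hz' : (del l (C c * ∏ j ∈ Finset.range (d + 1), (X - C (r j)))).eval z' = 0) :
    z + 1 ≤ z' := by
  have g1 := hr i (by omega)
  have g2 := hr (i + 1) hi
  rw [show i + 1 + 1 = i + 2 by ring] at g2
  -- rewrite the equations
  have hE : ∀ x, (del l (C c * ∏ j ∈ Finset.range (d + 1), (X - C (r j)))).eval x = 0 →
      ∏ j ∈ Finset.range (d + 1), (x + l - r j) = ∏ j ∈ Finset.range (d + 1), (x - l - r j) := by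
    intro x hx
    rw [auxMesh_eval, auxMesh_evalP, auxMesh_evalP, ← mul_sub] at hx
    rcases mul_eq_zero.1 hx with h | h
    · exact absurd h hc.ne'
    · linarith
  have e1 := hE z hz
  have e2 := hE z' hz'
  -- roots in a gap
  have hroot : ∀ m < d, ∀ y, r m ≤ y → y < r (m + 1) →
      ∏ j ∈ Finset.range (d + 1), (y - r j) = 0 → y = r m := by
    intro m hm y hy1 hy2 hy0
    obtain ⟨j, hj, hyj⟩ := auxMesh_root hy0
    rcases lt_trichotomy j m with h | h | h
    · have := auxMesh_lt hr h (by omega)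
      linarith
    · rw [hyj, h]
    · have := auxMesh_le hr (show m + 1 ≤ j by omega) (by omega)
      linarith
  have hroot' : ∀ m < d, ∀ y, r m < y → y ≤ r (m + 1) →
      ∏ j ∈ Finset.range (d + 1), (y - r j) = 0 → y = r (m + 1) := by
    intro m hm y hy1 hy2 hy0
    obtain ⟨j, hj, hyj⟩ := auxMesh_root hy0
    rcases lt_trichotomy j (m + 1) with h | h | h
    · have := auxMesh_le hr (show j ≤ m by omega) (by omega)
      linarith
    · rw [hyj, h]
    · have := auxMesh_lt hr (show m + 1 < j by omega) (by omega)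
      linarith
  by_cases hA : ∏ j ∈ Finset.range (d + 1), (z + l - r j) = 0
  · have a1 := hroot' i (by omega) (z + l) (by linarith) (by linarith) hA
    have a2 := hroot i (by omega) (z - l) (by linarith) (by linarith) (by rw [← e1]; exact hA)
    linarith
  by_cases hB : ∏ j ∈ Finset.range (d + 1), (z' + l - r j) = 0
  · have a1 := hroot' (i + 1) hi (z' + l) (by linarith) (by
      rw [show i + 1 + 1 = i + 2 by ring]; linarith) hB
    have a2 := hroot (i + 1) hi (z' - l) (by linarith) (by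
      rw [show i + 1 + 1 = i + 2 by ring]; linarith) (by rw [← e2]; exact hB)
    rw [show i + 1 + 1 = i + 2 by ring] at a1
    linarith
  by_contra hcon
  push Not at hcon
  have p1 := auxMesh_prod_one e1 hA
  have p2 := auxMesh_prod_one e2 hB
  have s1 : l < z - r i := by
    rcases eq_or_lt_of_le h1 with h | h
    · exfalso
      apply hA
      rw [e1]
      exact auxMesh_zero_of (show i < d + 1 by omega) (by linarith)
    · linarith
  have s2 : z - r (i + 1) < -l := by
    rcases eq_or_lt_of_le h2 with h | h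
    · exfalso
      apply hA
      exact auxMesh_zero_of (show i + 1 < d + 1 by omega) (by linarith)
    · linarith
  have s3 : l < z' - r (i + 1) := by
    rcases eq_or_lt_of_le h3 with h | h
    · exfalso
      apply hB
      rw [e2]
      exact auxMesh_zero_of (show i + 1 < d + 1 by omega) (by linarith)
    · linarith
  have s4 : z' - r (i + 2) < -l := by
    rcases eq_or_lt_of_le h4 with h | h
    · exfalso
      apply hB
      exact auxMesh_zero_of (show i + 2 < d + 1 by omega) (by linarith)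
    · linarith
  rw [Finset.prod_range_succ] at p1
  rw [Finset.prod_range_succ'] at p2
  have hle : ∏ j ∈ Finset.range d, (|(z - r j) + l| / |(z - r j) - l|) ≤
      ∏ j ∈ Finset.range d, (|(z' - r (j + 1)) + l| / |(z' - r (j + 1)) - l|) := by
    apply Finset.prod_le_prod
    · intro j _
      positivity
    · intro j hj
      have hj' := Finset.mem_range.1 hj
      have hrj := hr j hj'
      rcases Nat.lt_or_ge i j with h | h
      · have t1 := auxMesh_le hr (show i + 1 ≤ j by omega) (by omega)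
        exact auxMesh_phi_anti2 hl (by linarith) (by linarith)
      · have t1 := auxMesh_le hr (show j + 1 ≤ i + 1 by omega) (by omega)
        exact auxMesh_phi_anti1 hl (by linarith) (by linarith)
  have b0 : 1 < |(z' - r 0) + l| / |(z' - r 0) - l| := by
    apply auxMesh_phi_gt hl
    have := auxMesh_le hr (show 0 ≤ i + 1 by omega) (by omega)
    linarith
  have ad : |(z - r d) + l| / |(z - r d) - l| < 1 := by
    apply auxMesh_phi_lt hl
    have := auxMesh_le hr (show i + 1 ≤ d by omega) le_rfl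
    linarith
  set A := ∏ j ∈ Finset.range d, (|(z - r j) + l| / |(z - r j) - l|) with hAdef
  set B := ∏ j ∈ Finset.range d, (|(z' - r (j + 1)) + l| / |(z' - r (j + 1)) - l|) with hBdef
  have hA0 : 0 ≤ A := Finset.prod_nonneg (fun j _ => by positivity)
  have hB0 : 0 ≤ B := Finset.prod_nonneg (fun j _ => by positivity)
  have hA1 : 1 ≤ A := by
    by_contra hlt
    push Not at hlt
    have : A * (|(z - r d) + l| / |(z - r d) - l|) < 1 :=
      calc A * (|(z - r d) + l| / |(z - r d) - l|) ≤ A * 1 := by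
            apply mul_le_mul_of_nonneg_left ad.le hA0
        _ < 1 := by linarith
    linarith
  have hB1 : B < 1 := by
    by_contra hge
    push Not at hge
    have : 1 < B * (|(z' - r 0) + l| / |(z' - r 0) - l|) :=
      calc (1 : ℝ) < 1 * (|(z' - r 0) + l| / |(z' - r 0) - l|) := by linarith
        _ ≤ B * (|(z' - r 0) + l| / |(z' - r 0) - l|) := by
            apply mul_le_mul_of_nonneg_right hge
            positivity
    linarith
  linarith

end Pool.Agent.Helper95.CDD
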