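import Pool.Agent.Helper95.CDD.Defs
import Pool.Agent.Helper95.CDD.J10
import Pool.Agent.Helper95.CDD.J16a

set_option autoImplicit false

open Polynomial

namespace Pool.Agent.Helper95.CDD

theorem auxSmall_deg (c : ℝ) (hc : 0 < c) (m : ℕ) (r : ℕ → ℝ) :
    (C c * ∏ j ∈ Finset.range m, (X - C (r j))).natDegree = m ∧
      (C c * ∏ j ∈ Finset.range m, (X - C (r j))).leadingCoeff = c := by
  have h1 : (∏ j ∈ Finset.range m, (X - C (r j))).Monic := monic_prod_X_sub_C _ _
  constructor
  · rw [natDegree_C_mul hc.ne', natDegree_prod_of_monic _ _ (fun j _ => monic_X_sub_C _)]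
    simp
  · rw [leadingCoeff_mul, leadingCoeff_C, h1.leadingCoeff, mul_one]

theorem mesh_step {l : ℝ} (hl : 0 < l) (hl1 : l ≤ 1 / 2) (d : ℕ) (r : ℕ → ℝ)
    (hr : ∀ i < d, r i + 1 ≤ r (i + 1)) (c : ℝ) (hc : 0 < c) :
    ∃ s : ℕ → ℝ, (∀ i, i + 1 < d → s i + 1 ≤ s (i + 1)) ∧ ∃ c' : ℝ, 0 < c' ∧
      del l (C c * ∏ j ∈ Finset.range (d + 1), (X - C (r j))) =
        C c' * ∏ j ∈ Finset.range d, (X - C (s j)) := by
  classical
  have hz := mesh_zero hl hl1 d r hr c hc
  set P : ℝ[X] := C c * ∏ j ∈ Finset.range (d + 1), (X - C (r j)) with hP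
  obtain ⟨hPd, hPl⟩ := auxSmall_deg c hc (d + 1) r
  rw [← hP] at hPd hPl
  obtain ⟨hQd, hQl⟩ := del_natDegree hl P (by rw [hPd]; omega)
  rw [hPd, Nat.add_sub_cancel] at hQd
  rw [hPd, hPl] at hQl
  set Q : ℝ[X] := del l P with hQ
  set c' : ℝ := 2 * l * ((d + 1 : ℕ) : ℝ) * c with hc'
  have hc'0 : 0 < c' := by positivity
  have hQ0 : Q ≠ 0 := by
    intro h
    rw [h, leadingCoeff_zero] at hQl
    linarith
  choose! s hs1 hs2 hs3 using hz
  have hgap : ∀ i, i + 1 < d → s i + 1 ≤ s (i + 1) := by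
    intro i hi
    exact mesh_gap hl hl1 d r hr c hc i hi (s i) (s (i + 1)) (hs1 i (by omega)) (hs2 i (by omega))
      (hs1 (i + 1) hi) (hs2 (i + 1) hi) (hs3 i (by omega)) (hs3 (i + 1) hi)
  have hmono : ∀ k i, i + (k + 1) < d → s i < s (i + (k + 1)) := by
    intro k
    induction k with
    | zero =>
      intro i hi
      have := hgap i hi
      simp only [zero_add]
      linarith
    | succ k ih =>
      intro i hi
      have h1 := ih i (by omega)
      have h2 := hgap (i + (k + 1)) (by omega)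
      have h3 : i + (k + 1 + 1) = i + (k + 1) + 1 := by ring
      rw [h3]
      linarith
  have hinj : Set.InjOn s (Finset.range d : Set ℕ) := by
    intro i hi j hj hij
    have hi' : i < d := Finset.mem_range.1 (Finset.mem_coe.1 hi)
    have hj' : j < d := Finset.mem_range.1 (Finset.mem_coe.1 hj)
    rcases lt_trichotomy i j with h | h | h
    · have := hmono (j - i - 1) i (by omega)
      rw [show i + (j - i - 1 + 1) = j by omega] at this
      linarith
    · exact h
    · have := hmono (i - j - 1) j (by omega)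
      rw [show j + (i - j - 1 + 1) = i by omega] at this
      linarith
  set T : Finset ℝ := (Finset.range d).image s with hT
  have hTcard : T.card = d := by
    rw [hT, Finset.card_image_of_injOn hinj, Finset.card_range]
  have hle : T.val ≤ Q.roots := by
    rw [Multiset.le_iff_subset T.nodup]
    intro x hx
    have hx' : x ∈ T := hx
    rw [hT, Finset.mem_image] at hx'
    obtain ⟨i, hi, rfl⟩ := hx'
    rw [mem_roots hQ0]
    exact hs3 i (Finset.mem_range.1 hi)
  have heq : T.val = Q.roots := by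
    apply Multiset.eq_of_le_of_card_le hle
    have := Q.card_roots'
    rw [hQd] at this
    calc Multiset.card Q.roots ≤ d := this
      _ = Multiset.card T.val := hTcard.symm
  have hcard : Multiset.card Q.roots = Q.natDegree := by
    rw [← heq, hQd]
    exact hTcard
  refine ⟨s, hgap, c', hc'0, ?_⟩
  have h := C_leadingCoeff_mul_prod_multiset_X_sub_C hcard
  rw [← h, hQl, ← heq]
  congr 1
  show ∏ a ∈ T, (X - C a) = _
  rw [hT, Finset.prod_image hinj]

theorem auxSmall_form (N : ℕ) {l : ℝ} (hl : 0 < l) (hl1 : l ≤ 1 / 2) (n : ℕ) :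
    n ≤ 2 * N + 1 → ∃ (c : ℝ) (r : ℕ → ℝ), 0 < c ∧
      (∀ i, i + 1 < 2 * N + 1 - n → r i + 1 ≤ r (i + 1)) ∧
      PP N l n = C c * ∏ j ∈ Finset.range (2 * N + 1 - n), (X - C (r j)) := by
  induction n with
  | zero =>
    intro _
    refine ⟨1, fun i => (i : ℝ) - N, one_pos, ?_, ?_⟩
    · intro i _
      push_cast
      linarith
    · rw [C_1, one_mul, Nat.sub_zero]
      show ∏ k ∈ Finset.Icc (-(N : ℤ)) (N : ℤ), (X - C (k : ℝ)) = _
      symm
      refine Finset.prod_bij (fun (i : ℕ) _ => (i : ℤ) - N) ?_ ?_ ?_ ?_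
      · intro i hi
        have := Finset.mem_range.1 hi
        rw [Finset.mem_Icc]
        omega
      · intro i _ j _ h
        have h' : (i : ℤ) - N = (j : ℤ) - N := h
        omega
      · intro k hk
        rw [Finset.mem_Icc] at hk
        refine ⟨(k + N).toNat, ?_, ?_⟩
        · rw [Finset.mem_range]
          omega
        · omega
      · intro i _
        push_cast
        rfl
  | succ n ih =>
    intro hn
    obtain ⟨c, r, hc, hr, hP⟩ := ih (by omega)
    obtain ⟨d, hd⟩ : ∃ d, 2 * N + 1 - n = d + 1 := ⟨2 * N - n, by omega⟩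
    rw [hd] at hr hP
    obtain ⟨s, hs, c', hc', hQ⟩ := mesh_step hl hl1 d r (fun i hi => hr i (by omega)) c hc
    have hd' : 2 * N + 1 - (n + 1) = d := by omega
    rw [hd']
    refine ⟨c', s, hc', hs, ?_⟩
    show del l (PP N l n) = _
    rw [hP, hQ]

/-- the small step case: real zeros with gaps at least one -/
theorem small_main (N : ℕ) {l : ℝ} (hl : 0 < l) (hl1 : l ≤ 1 / 2) (n : ℕ) (hn : n ≤ 2 * N + 1) :
    Good (PP N l n) := by
  obtain ⟨c, r, hc, -, hP⟩ := auxSmall_form N hl hl1 n hn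
  intro z hz
  left
  rw [hP, map_mul, aeval_C, map_prod] at hz
  rcases mul_eq_zero.1 hz with h | h
  · exfalso
    have h1 : (c : ℂ) = 0 := h
    exact hc.ne' (by exact_mod_cast h1)
  · obtain ⟨i, -, hi⟩ := Finset.prod_eq_zero_iff.1 h
    rw [map_sub, aeval_X, aeval_C] at hi
    have h1 : z = ((r i : ℝ) : ℂ) := sub_eq_zero.1 hi
    rw [h1, Complex.ofReal_im]

end Pool.Agent.Helper95.CDD
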