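import Pool.Agent.Helper95.CDD.Defs

set_option autoImplicit false

open Polynomial

namespace Pool.Agent.Helper95.CDD

theorem auxIter_splits_derivative {p : ℝ[X]} (hp : p.Splits) : (derivative p).Splits := by
  rw [splits_iff_card_roots] at hp ⊢
  apply le_antisymm (card_roots' _)
  have h1 := card_roots_le_derivative p
  have h2 := natDegree_derivative_le p
  omega

theorem auxIter_splits_iterate {p : ℝ[X]} (hp : p.Splits) (n : ℕ) :
    (derivative^[n] p).Splits := by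
  induction n with
  | zero => exact hp
  | succ n ih =>
    rw [Function.iterate_succ_apply']
    exact auxIter_splits_derivative ih

theorem auxIter_ne_zero {p : ℝ[X]} (hp : p ≠ 0) {n : ℕ} (hn : n ≤ p.natDegree) :
    derivative^[n] p ≠ 0 := by
  intro h
  have h1 := coeff_iterate_derivative (k := n) p (p.natDegree - n)
  rw [h, coeff_zero, Nat.sub_add_cancel hn, nsmul_eq_mul] at h1
  have h2 : (p.natDegree.descFactorial n : ℝ) ≠ 0 := by
    rw [Nat.cast_ne_zero]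
    intro h3
    rw [Nat.descFactorial_eq_zero_iff_lt] at h3
    omega
  have h3 : p.coeff p.natDegree ≠ 0 := by
    rw [coeff_natDegree]
    exact leadingCoeff_ne_zero.2 hp
  exact mul_ne_zero h2 h3 h1.symm

theorem auxIter_deriv (p : ℝ[X]) (n : ℕ) :
    ((fun (f : ℂ → ℂ) (w : ℂ) => deriv f w)^[n] (fun w : ℂ => aeval w p)) =
      fun w : ℂ => aeval w (derivative^[n] p) := by
  induction n with
  | zero => rfl
  | succ n ih =>
    rw [Function.iterate_succ_apply', ih, Function.iterate_succ_apply']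
    funext w
    exact Polynomial.deriv_aeval _

theorem auxIter_base (N : ℕ) : (fun w : ℂ => ∏ k ∈ Finset.Icc (-(N : ℤ)) (N : ℤ), (w - (k : ℂ))) =
    fun w : ℂ => aeval w (∏ k ∈ Finset.Icc (-(N : ℤ)) (N : ℤ), (X - C (k : ℝ)) : ℝ[X]) := by
  funext w
  rw [map_prod]
  refine Finset.prod_congr rfl fun k _ => ?_
  rw [map_sub, aeval_X, aeval_C]
  simp

theorem auxIter_real {r : ℝ[X]} (hr : r.Splits) (h0 : r ≠ 0) {z : ℂ} (hz : aeval z r = 0) :
    z.im = 0 := by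
  have h1 : z ∈ (r.map (algebraMap ℝ ℂ)).roots := by
    rw [mem_roots (Polynomial.map_ne_zero h0), IsRoot, eval_map_algebraMap]
    exact hz
  rw [hr.roots_map_of_injective (algebraMap ℝ ℂ).injective] at h1
  obtain ⟨x, _, hx⟩ := Multiset.mem_map.1 h1
  rw [← hx]
  simp

theorem deriv_main (N : ℕ) (n : ℕ) (hn : n ≤ 2 * N + 1) (z : ℂ)
    (hz : ((fun (f : ℂ → ℂ) (w : ℂ) => deriv f w)^[n]
      (fun w : ℂ => ∏ k ∈ Finset.Icc (-(N : ℤ)) (N : ℤ), (w - (k : ℂ)))) z = 0) : z.im = 0 := by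
  rw [auxIter_base, auxIter_deriv] at hz
  have hsp : (∏ k ∈ Finset.Icc (-(N : ℤ)) (N : ℤ), (X - C (k : ℝ)) : ℝ[X]).Splits :=
    Splits.prod fun k _ => Splits.X_sub_C _
  have hmon : (∏ k ∈ Finset.Icc (-(N : ℤ)) (N : ℤ), (X - C (k : ℝ)) : ℝ[X]).Monic :=
    monic_prod_of_monic _ _ fun k _ => monic_X_sub_C _
  have hdeg : (∏ k ∈ Finset.Icc (-(N : ℤ)) (N : ℤ), (X - C (k : ℝ)) : ℝ[X]).natDegree =
      2 * N + 1 := by
    rw [natDegree_prod_of_monic _ _ fun k _ => monic_X_sub_C _]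
    simp only [natDegree_X_sub_C, Finset.sum_const, Int.card_Icc, smul_eq_mul, mul_one]
    omega
  exact auxIter_real (auxIter_splits_iterate hsp n)
    (auxIter_ne_zero hmon.ne_zero (by rw [hdeg]; exact hn)) hz

theorem auxIter_abs (l : ℝ) :
    (fun (f : ℂ → ℂ) (w : ℂ) => (f (w + (l : ℂ)) - f (w - (l : ℂ))) / (2 * (l : ℂ))) =
    (fun (f : ℂ → ℂ) (w : ℂ) => (f (w + ((|l| : ℝ) : ℂ)) - f (w - ((|l| : ℝ) : ℂ))) /
      (2 * ((|l| : ℝ) : ℂ))) := by
  rcases abs_choice l with h | h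
  · rw [h]
  · rw [h]
    funext f w
    push_cast
    rw [sub_neg_eq_add, ← sub_eq_add_neg, mul_neg, div_neg, ← neg_div, neg_sub]

theorem auxIter_pos (N : ℕ) (t : ℝ) (ht : t ≠ 0) (n : ℕ) :
    ((fun (f : ℂ → ℂ) (w : ℂ) => (f (w + (t : ℂ)) - f (w - (t : ℂ))) / (2 * (t : ℂ)))^[n]
      (fun w : ℂ => ∏ k ∈ Finset.Icc (-(N : ℤ)) (N : ℤ), (w - (k : ℂ)))) =
    fun z : ℂ => aeval z (PP N t n) / (2 * (t : ℂ)) ^ n := by
  induction n with
  | zero =>
    rw [Function.iterate_zero, id, auxIter_base]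
    funext z
    rw [pow_zero, div_one]
    rfl
  | succ n ih =>
    rw [Function.iterate_succ_apply', ih]
    funext z
    show (aeval (z + (t : ℂ)) (PP N t n) / (2 * (t : ℂ)) ^ n -
      aeval (z - (t : ℂ)) (PP N t n) / (2 * (t : ℂ)) ^ n) / (2 * (t : ℂ)) =
      aeval z (PP N t (n + 1)) / (2 * (t : ℂ)) ^ (n + 1)
    have h1 : aeval z (PP N t (n + 1)) =
        aeval (z + (t : ℂ)) (PP N t n) - aeval (z - (t : ℂ)) (PP N t n) := by
      show aeval z (del t (PP N t n)) = _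
      rw [del, map_sub, aeval_comp, aeval_comp, map_add, map_sub, aeval_X, aeval_C]
      rfl
    rw [h1, ← sub_div, div_div, pow_succ]

theorem iterate_eq (N : ℕ) (l : ℝ) (hl : l ≠ 0) (n : ℕ) (z : ℂ) :
    ((fun (f : ℂ → ℂ) (w : ℂ) => (f (w + (l : ℂ)) - f (w - (l : ℂ))) / (2 * (l : ℂ)))^[n]
      (fun w : ℂ => ∏ k ∈ Finset.Icc (-(N : ℤ)) (N : ℤ), (w - (k : ℂ)))) z =
    aeval z (PP N |l| n) / (2 * ((|l| : ℝ) : ℂ)) ^ n := by
  rw [auxIter_abs, auxIter_pos N |l| (abs_ne_zero.2 hl)]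

end Pool.Agent.Helper95.CDD
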