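import Pool.Agent.Helper95.CDD.J15
import Pool.Agent.Helper95.CDD.J16b
import Pool.Agent.Helper95.CDD.J17

set_option autoImplicit false

open Polynomial

namespace Pool.Agent.Helper95.CDD

theorem pos_main (N : ℕ) {l : ℝ} (hl : 0 < l) (n : ℕ) (hn : n ≤ 2 * N + 1) :
    Good (PP N l n) := by
  rcases le_or_gt l (1 / 2) with h | h
  · exact small_main N hl h n hn
  · exact large_main N h n hn

theorem main_result :
    ∀ N : ℕ, ∀ l : ℝ, ∀ n : ℕ, n ≤ 2 * N + 1 → ∀ z : ℂ,
      ((fun (f : ℂ → ℂ) (w : ℂ) =>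
          if l = 0 then deriv f w
          else (f (w + (l : ℂ)) - f (w - (l : ℂ))) / (2 * (l : ℂ)))^[n]
        (fun w : ℂ => ∏ k ∈ Finset.Icc (-(N : ℤ)) (N : ℤ), (w - (k : ℂ)))) z = 0 →
      z.im ≠ 0 → z.re = 0 := by
  intro N l n hn z hz him
  by_cases hl : l = 0
  · simp only [hl, if_true] at hz
    exact absurd (deriv_main N n hn z hz) him
  · simp only [hl, if_false] at hz
    rw [iterate_eq N l hl n z] at hz
    have habs : 0 < |l| := abs_pos.mpr hl
    have h2 : (2 * ((|l| : ℝ) : ℂ)) ^ n ≠ 0 := by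
      apply pow_ne_zero
      apply mul_ne_zero two_ne_zero
      exact_mod_cast habs.ne'
    have h3 : aeval z (PP N |l| n) = 0 := by
      rcases div_eq_zero_iff.mp hz with h | h
      · exact h
      · exact absurd h h2
    rcases pos_main N habs n hn z h3 with h | h
    · exact absurd h him
    · exact h

end Pool.Agent.Helper95.CDD
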